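import Mathlib

/-!
# Sums of independent nonnegative random variables: moments of order `5/2`
-/

set_option autoImplicit false

namespace Pool.Agent.TH791.Av

open MeasureTheory Filter Topology
open scoped ENNReal

variable {E : Type} [MeasurableSpace E] (μ : Measure E) [IsProbabilityMeasure μ]

/-- product measure -/
noncomputable abbrev pm (n : ℕ) : Measure (Fin n → E) := Measure.pi fun _ => μ

lemma lint_insert {n : ℕ} (i : Fin (n + 1)) {F : (Fin (n + 1) → E) → ℝ≥0∞} (hF : Measurable F) :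
    ∫⁻ R, F R ∂pm μ (n + 1) =
      ∫⁻ x, ∫⁻ R', F (Fin.insertNth (α := fun _ => E) i x R') ∂pm μ n ∂μ := by
  have h := (measurePreserving_piFinSuccAbove (fun _ : Fin (n + 1) => μ) i).symm
  have h2 : Measurable fun p : E × (Fin n → E) => F (Fin.insertNth (α := fun _ => E) i p.1 p.2) :=
    hF.comp h.measurable
  rw [← lintegral_prod _ h2.aemeasurable]
  exact (h.lintegral_comp_emb (MeasurableEquiv.measurableEmbedding _) F).symm

lemma lint_single {n : ℕ} (i : Fin n) {f : E → ℝ≥0∞} (hf : Measurable f) :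
    ∫⁻ R, f (R i) ∂pm μ n = ∫⁻ x, f x ∂μ :=
  (measurePreserving_eval (fun _ : Fin n => μ) i).lintegral_comp hf

lemma lint_two {n : ℕ} {i j : Fin n} (hij : i ≠ j) {g : E → E → ℝ≥0∞}
    (hg : Measurable fun p : E × E => g p.1 p.2) :
    ∫⁻ R, g (R i) (R j) ∂pm μ n = ∫⁻ x, ∫⁻ y, g x y ∂μ ∂μ := by
  obtain ⟨n, rfl⟩ : ∃ m, n = m + 1 := ⟨n - 1, by have := i.pos; omega⟩
  obtain ⟨k, rfl⟩ := Fin.exists_succAbove_eq hij.symm
  have hm : Measurable fun R : Fin (n + 1) → E => g (R i) (R (i.succAbove k)) := by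
    have h1 : Measurable fun R : Fin (n + 1) → E => (R i, R (i.succAbove k)) :=
      (measurable_pi_apply i).prodMk (measurable_pi_apply (i.succAbove k))
    exact hg.comp h1
  rw [lint_insert μ i hm]
  simp only [Fin.insertNth_apply_same, Fin.insertNth_apply_succAbove]
  refine lintegral_congr fun x => ?_
  exact lint_single μ k (f := fun y => g x y)
    (hg.comp (measurable_const.prodMk measurable_id : Measurable fun y : E => (x, y)))

/-- sum of the values -/
noncomputable def S {n : ℕ} (y : E → ℝ≥0∞) (R : Fin n → E) : ℝ≥0∞ := ∑ j, y (R j)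

variable {y : E → ℝ≥0∞} (hy : Measurable y)

include hy in
lemma S_meas {n : ℕ} : Measurable fun R : Fin n → E => S y R :=
  Finset.measurable_fun_sum _ fun j _ => hy.comp (measurable_pi_apply j)

lemma S_insert {n : ℕ} (i : Fin (n + 1)) (x : E) (R : Fin n → E) :
    S y (Fin.insertNth (α := fun _ => E) i x R) = y x + S y R := by
  unfold S
  rw [Fin.sum_univ_succAbove _ i]
  simp only [Fin.insertNth_apply_same, Fin.insertNth_apply_succAbove]

include hy in
lemma lint_SF {n : ℕ} {F : ℝ≥0∞ → ℝ≥0∞} (hF : Measurable F) :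
    ∫⁻ R, S y R * F (S y R) ∂pm μ (n + 1) =
      (n + 1 : ℕ) * ∫⁻ x, ∫⁻ R', y x * F (y x + S y R') ∂pm μ n ∂μ := by
  have h1 : ∀ R : Fin (n + 1) → E, S y R * F (S y R) = ∑ i, y (R i) * F (S y R) := by
    intro R
    rw [← Finset.sum_mul]; rfl
  have hm : ∀ i : Fin (n + 1), Measurable fun R : Fin (n + 1) → E => y (R i) * F (S y R) := fun i =>
    (hy.comp (measurable_pi_apply i)).mul (hF.comp (S_meas hy))
  simp_rw [h1]
  rw [lintegral_finsetSum _ fun i _ => hm i]
  simp_rw [fun i => lint_insert μ i (hm i)]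
  simp only [S_insert, Fin.insertNth_apply_same]
  rw [Finset.sum_const, Finset.card_univ, Fintype.card_fin, nsmul_eq_mul]

include hy in
lemma E1 (n : ℕ) : ∫⁻ R, S y R ∂pm μ n = n * ∫⁻ x, y x ∂μ := by
  unfold S
  have hm : ∀ j : Fin n, Measurable fun R : Fin n → E => y (R j) := fun j =>
    hy.comp (measurable_pi_apply j)
  rw [lintegral_finsetSum _ fun j _ => hm j]
  simp_rw [fun j : Fin n => lint_single μ j hy]
  rw [Finset.sum_const, Finset.card_univ, Fintype.card_fin, nsmul_eq_mul]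

include hy in
lemma E2 (n : ℕ) : ∫⁻ R, S y R ^ 2 ∂pm μ n ≤
    n * (∫⁻ x, y x ^ 2 ∂μ) + (n * ∫⁻ x, y x ∂μ) ^ 2 := by
  cases n with
  | zero => simp [S]
  | succ n =>
    have h1 : ∀ R : Fin (n + 1) → E, S y R ^ 2 = S y R * id (S y R) := fun R => by
      rw [id, pow_two]
    simp_rw [h1]
    rw [lint_SF μ hy measurable_id]
    simp only [id]
    have h2 : ∀ x, ∫⁻ R', y x * (y x + S y R') ∂pm μ n = y x ^ 2 + y x * (n * ∫⁻ x, y x ∂μ) := by
      intro x
      rw [lintegral_const_mul _ ((S_meas hy).const_add _), lintegral_add_left measurable_const, E1 μ hy]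
      simp
      ring
    simp_rw [h2]
    rw [lintegral_add_left (hy.pow_const 2), lintegral_mul_const _ hy, mul_add]
    gcongr
    rw [pow_two, mul_assoc]
    gcongr
    simp

lemma scal {a b w : ℝ} (ha : 0 ≤ a) (hb : 0 ≤ b) (hw : 0 < w) :
    (a + b) ^ (3 / 2 : ℝ) ≤ 1 / (2 * w) * b ^ 2 + w / 2 * b + 3 / (4 * w) * (a * b) + 3 * w / 4 * a +
      a ^ (3 / 2 : ℝ) := by
  have hh : ∀ t : ℝ, 0 ≤ t → t ^ (3 / 2 : ℝ) = √t ^ 3 := by
    intro t ht
    rw [Real.sqrt_eq_rpow, ← Real.rpow_natCast, ← Real.rpow_mul ht]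
    norm_num
  rw [hh _ (add_nonneg ha hb), hh a ha]
  set α := √a with hα
  set β := √b with hβ
  set γ := √(a + b) with hγ
  have hα0 : 0 ≤ α := Real.sqrt_nonneg _
  have hβ0 : 0 ≤ β := Real.sqrt_nonneg _
  have hγ0 : 0 ≤ γ := Real.sqrt_nonneg _
  have ha2 : α ^ 2 = a := Real.sq_sqrt ha
  have hb2 : β ^ 2 = b := Real.sq_sqrt hb
  have hc2 : γ ^ 2 = α ^ 2 + β ^ 2 := by rw [ha2, hb2]; exact Real.sq_sqrt (add_nonneg ha hb)
  have h1 : γ ^ 3 ≤ β ^ 3 + 3 / 2 * α ^ 2 * β + α ^ 3 := by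
    have hQ : 0 ≤ β ^ 3 + 3 / 2 * α ^ 2 * β + α ^ 3 := by positivity
    refine (sq_le_sq₀ (by positivity) hQ).1 ?_
    have e : (γ ^ 3) ^ 2 = (γ ^ 2) ^ 3 := by ring
    rw [e, hc2]
    have h2 : 0 ≤ α ^ 3 * β * (3 * α ^ 2 - 3 / 4 * α * β + 2 * β ^ 2) := by
      refine mul_nonneg (by positivity) ?_
      nlinarith [sq_nonneg (α - β), sq_nonneg (α + β), mul_nonneg hα0 hβ0]
    nlinarith [h2]
  have h2 : β ≤ (b / w + w) / 2 := by
    rw [← hb2]
    have : 0 ≤ (β - w) ^ 2 / w := by positivity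
    have e : (β - w) ^ 2 / w = β ^ 2 / w - 2 * β + w := by field_simp; ring
    linarith
  have h3 : β ^ 3 + 3 / 2 * α ^ 2 * β + α ^ 3 = (b + 3 / 2 * a) * β + α ^ 3 := by
    rw [← ha2, ← hb2]; ring
  have h4 : (b + 3 / 2 * a) * β ≤ (b + 3 / 2 * a) * ((b / w + w) / 2) :=
    mul_le_mul_of_nonneg_left h2 (by positivity)
  have h5 : (b + 3 / 2 * a) * ((b / w + w) / 2) =
      1 / (2 * w) * b ^ 2 + w / 2 * b + 3 / (4 * w) * (a * b) + 3 * w / 4 * a := by
    field_simp
    ring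
  linarith

lemma scalE (a b : ℝ≥0∞) {w : ℝ} (hw : 0 < w) :
    (a + b) ^ (3 / 2 : ℝ) ≤ ENNReal.ofReal (1 / (2 * w)) * b ^ 2 + ENNReal.ofReal (w / 2) * b +
      ENNReal.ofReal (3 / (4 * w)) * (a * b) + ENNReal.ofReal (3 * w / 4) * a + a ^ (3 / 2 : ℝ) := by
  by_cases hb : b = ∞
  · have : ENNReal.ofReal (1 / (2 * w)) * b ^ 2 = ∞ := by
      rw [hb, ENNReal.top_pow (by norm_num), ENNReal.mul_top]
      simpa using hw
    rw [this]; simp
  by_cases ha : a = ∞
  · rw [ha, ENNReal.top_rpow_of_pos (by norm_num)]; simp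
  obtain ⟨x, hx, rfl⟩ : ∃ x : ℝ, 0 ≤ x ∧ a = ENNReal.ofReal x :=
    ⟨a.toReal, ENNReal.toReal_nonneg, (ENNReal.ofReal_toReal ha).symm⟩
  obtain ⟨z, hz, rfl⟩ : ∃ x : ℝ, 0 ≤ x ∧ b = ENNReal.ofReal x :=
    ⟨b.toReal, ENNReal.toReal_nonneg, (ENNReal.ofReal_toReal hb).symm⟩
  have h := scal hx hz hw
  rw [← ENNReal.ofReal_add hx hz, ENNReal.ofReal_rpow_of_nonneg (add_nonneg hx hz) (by norm_num),
    ENNReal.ofReal_rpow_of_nonneg hx (by norm_num), ← ENNReal.ofReal_pow hz,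
    ← ENNReal.ofReal_mul (by positivity), ← ENNReal.ofReal_mul (by positivity),
    ← ENNReal.ofReal_mul hx, ← ENNReal.ofReal_mul (by positivity), ← ENNReal.ofReal_mul (by positivity),
    ← ENNReal.ofReal_add (by positivity) (by positivity),
    ← ENNReal.ofReal_add (by positivity) (by positivity),
    ← ENNReal.ofReal_add (by positivity) (by positivity),
    ← ENNReal.ofReal_add (by positivity) (by positivity)]
  exact ENNReal.ofReal_le_ofReal h

include hy in
/-- the `5/2` moment of a sum of independent variables -/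
theorem E52 {n : ℕ} {w v q : ℝ} (hw : 0 < w) (hv : 0 ≤ v) (hq : 0 ≤ q)
    (h1 : (n + 1 : ℕ) * (∫⁻ x, y x ∂μ) ≤ ENNReal.ofReal (w ^ 2))
    (h2 : (n + 1 : ℕ) * (∫⁻ x, y x ^ 2 ∂μ) ≤ ENNReal.ofReal v)
    (h3 : (n + 1 : ℕ) * (∫⁻ x, y x ^ (5 / 2 : ℝ) ∂μ) ≤ ENNReal.ofReal q) :
    ∫⁻ R, S y R ^ (5 / 2 : ℝ) ∂pm μ (n + 1) ≤ ENNReal.ofReal (w ^ 5 + 2 * w * v + q) := by
  have hF : Measurable fun t : ℝ≥0∞ => t ^ (3 / 2 : ℝ) := by fun_prop
  have e1 : ∀ R : Fin (n + 1) → E, S y R ^ (5 / 2 : ℝ) = S y R * (S y R) ^ (3 / 2 : ℝ) := by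
    intro R
    rw [show (5 / 2 : ℝ) = 1 + 3 / 2 by norm_num, ENNReal.rpow_add_of_nonneg _ _ (by norm_num)
      (by norm_num), ENNReal.rpow_one]
  simp_rw [e1]
  rw [lint_SF μ hy hF]
  set c1 := ENNReal.ofReal (1 / (2 * w)) with hc1
  set c2 := ENNReal.ofReal (w / 2) with hc2
  set c3 := ENNReal.ofReal (3 / (4 * w)) with hc3
  set c4 := ENNReal.ofReal (3 * w / 4) with hc4
  set m := ENNReal.ofReal (w ^ 2) with hm
  set V := ENNReal.ofReal v with hV
  have hn : (n : ℝ≥0∞) ≤ (n + 1 : ℕ) := by simp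
  have hS1 : ∫⁻ R, S y R ∂pm μ n ≤ m := by
    rw [E1 μ hy]
    exact le_trans (by gcongr) h1
  have hS2 : ∫⁻ R, S y R ^ 2 ∂pm μ n ≤ V + m ^ 2 := by
    refine (E2 μ hy n).trans ?_
    gcongr
    · exact le_trans (by gcongr) h2
    · exact le_trans (by gcongr) h1
  have hSm : Measurable fun R : Fin n → E => S y R := S_meas hy
  have h4 : ∀ x, ∫⁻ R', y x * (y x + S y R') ^ (3 / 2 : ℝ) ∂pm μ n ≤
      (c1 * (V + m ^ 2) + c2 * m) * y x + (c3 * m + c4) * y x ^ 2 + y x ^ (5 / 2 : ℝ) := by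
    intro x
    calc ∫⁻ R', y x * (y x + S y R') ^ (3 / 2 : ℝ) ∂pm μ n ≤
        ∫⁻ R', y x * (c1 * S y R' ^ 2 + c2 * S y R' + c3 * (y x * S y R') + c4 * y x +
          y x ^ (3 / 2 : ℝ)) ∂pm μ n := by
          refine lintegral_mono fun R' => ?_
          simp only
          gcongr
          exact scalE _ _ hw
      _ = y x * (c1 * (∫⁻ R', S y R' ^ 2 ∂pm μ n) + c2 * (∫⁻ R', S y R' ∂pm μ n) +
          c3 * (y x * ∫⁻ R', S y R' ∂pm μ n) + c4 * y x + y x ^ (3 / 2 : ℝ)) := by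
          have m1 : Measurable fun R' : Fin n → E => c1 * S y R' ^ 2 := (hSm.pow_const 2).const_mul _
          have m2 : Measurable fun R' : Fin n → E => c2 * S y R' := hSm.const_mul _
          have m3 : Measurable fun R' : Fin n → E => c3 * (y x * S y R') :=
            (hSm.const_mul _).const_mul _
          have m4 : Measurable fun R' : Fin n → E => c1 * S y R' ^ 2 + c2 * S y R' +
              c3 * (y x * S y R') + c4 * y x + y x ^ (3 / 2 : ℝ) :=
            (((m1.add m2).add m3).add measurable_const).add measurable_const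
          rw [lintegral_const_mul _ m4, lintegral_add_right _ measurable_const, lintegral_add_right _ measurable_const,
            lintegral_add_right _ m3, lintegral_add_right _ m2,
            lintegral_const_mul _ (hSm.pow_const 2), lintegral_const_mul _ hSm,
            lintegral_const_mul _ (hSm.const_mul _), lintegral_const_mul _ hSm]
          simp
      _ ≤ y x * (c1 * (V + m ^ 2) + c2 * m + c3 * (y x * m) + c4 * y x + y x ^ (3 / 2 : ℝ)) := by
          gcongr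
      _ = _ := by
          have : y x ^ (5 / 2 : ℝ) = y x * y x ^ (3 / 2 : ℝ) := by
            rw [show (5 / 2 : ℝ) = 1 + 3 / 2 by norm_num, ENNReal.rpow_add_of_nonneg _ _ (by norm_num)
              (by norm_num), ENNReal.rpow_one]
          rw [this]
          ring
  have h5 : (n + 1 : ℕ) * ∫⁻ x, ∫⁻ R', y x * (y x + S y R') ^ (3 / 2 : ℝ) ∂pm μ n ∂μ ≤
      (c1 * (V + m ^ 2) + c2 * m) * m + (c3 * m + c4) * V + ENNReal.ofReal q := by
    calc _ ≤ (n + 1 : ℕ) * ∫⁻ x, ((c1 * (V + m ^ 2) + c2 * m) * y x + (c3 * m + c4) * y x ^ 2 +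
          y x ^ (5 / 2 : ℝ)) ∂μ := by
          gcongr with x
          exact h4 x
      _ = (c1 * (V + m ^ 2) + c2 * m) * ((n + 1 : ℕ) * ∫⁻ x, y x ∂μ) +
          (c3 * m + c4) * ((n + 1 : ℕ) * ∫⁻ x, y x ^ 2 ∂μ) +
          (n + 1 : ℕ) * ∫⁻ x, y x ^ (5 / 2 : ℝ) ∂μ := by
          rw [lintegral_add_right _ (hy.pow_const _), lintegral_add_right _ ((hy.pow_const 2).const_mul _),
            lintegral_const_mul _ hy, lintegral_const_mul _ (hy.pow_const 2)]
          ring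
      _ ≤ _ := by gcongr
  refine h5.trans (le_of_eq ?_)
  rw [hc1, hc2, hc3, hc4, hm, hV, ← ENNReal.ofReal_pow (by positivity), ← ENNReal.ofReal_add hv (by positivity),
    ← ENNReal.ofReal_mul (by positivity), ← ENNReal.ofReal_mul (by positivity),
    ← ENNReal.ofReal_add (by positivity) (by positivity), ← ENNReal.ofReal_mul (by positivity),
    ← ENNReal.ofReal_mul (by positivity), ← ENNReal.ofReal_add (by positivity) (by positivity),
    ← ENNReal.ofReal_mul (by positivity), ← ENNReal.ofReal_add (by positivity) (by positivity),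
    ← ENNReal.ofReal_add (by positivity) hq]
  congr 1
  field_simp
  ring

end Pool.Agent.TH791.Av
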