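import Pool.Agent.TH791.Geo
import Pool.Agent.TH791.Avg

/-!
# Averaging over the positions of the nuclei
-/

set_option autoImplicit false

namespace Pool.Agent.TH791.Co

open MeasureTheory Filter Topology Metric
open Pool.Agent.TH791.QM
open Pool.Agent.TH791.Nw Pool.Agent.TH791.Tl Pool.Agent.TH791.Tq Pool.Agent.TH791.Ge
open Pool.Agent.TH791.Av
open Pool.Agent.TH791.Ob (p3 box p3_mid p3_le p3_nonneg p3_zero box_meas box_vol p3_int p3_integrable p3_cont)
open scoped ENNReal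

/-- distribution of a nucleus -/
noncomputable def mu (L : ℝ) : Measure E3 := volume.withDensity (P L)

lemma mu_lint (L : ℝ) {f : E3 → ℝ≥0∞} (hf : Measurable f) : ∫⁻ x, f x ∂mu L = ∫⁻ x, P L x * f x := by
  unfold mu
  rw [lintegral_withDensity_eq_lintegral_mul _ (P_meas L) hf]
  rfl

lemma P_lint {L : ℝ} (hL : 1 ≤ L) : ∫⁻ x, P L x = 1 := by
  unfold P
  rw [← ofReal_integral_eq_lintegral_ofReal (p3_integrable L)
    (Eventually.of_forall (p3_nonneg (by linarith))), p3_int hL, ENNReal.ofReal_one]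

lemma mu_prob {L : ℝ} (hL : 1 ≤ L) : IsProbabilityMeasure (mu L) := by
  refine ⟨?_⟩
  unfold mu
  rw [withDensity_apply _ MeasurableSet.univ, Measure.restrict_univ, P_lint hL]

lemma mu_single (L : ℝ) (x : E3) : mu L {x} = 0 :=
  (withDensity_absolutelyContinuous volume (P L)) (by simp)

variable {N : ℕ} {L : ℝ}

lemma ae_inj [IsProbabilityMeasure (mu L)] :
    ∀ᵐ R ∂pm (mu L) N, Function.Injective R := by
  have h : ∀ i j : Fin N, i ≠ j → ∀ᵐ R ∂pm (mu L) N, R i ≠ R j := by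
    intro i j hij
    have hS : MeasurableSet {p : E3 × E3 | p.1 = p.2} :=
      measurableSet_eq_fun measurable_fst measurable_snd
    have hm : Measurable fun p : E3 × E3 => (if p.1 = p.2 then 1 else 0 : ℝ≥0∞) :=
      Measurable.ite hS measurable_const measurable_const
    have h1 := lint_two (mu L) hij (g := fun x y => if x = y then 1 else 0) hm
    have h2 : ∀ x : E3, ∫⁻ y, (if x = y then 1 else 0 : ℝ≥0∞) ∂mu L = 0 := by
      intro x
      have : (fun y : E3 => (if x = y then 1 else 0 : ℝ≥0∞)) = ({x} : Set E3).indicator 1 := by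
        funext y
        by_cases h : x = y
        · simp [h]
        · rw [if_neg h, Set.indicator_of_notMem]
          exact fun h' => h (Set.mem_singleton_iff.1 h').symm
      rw [this, lintegral_indicator_one (measurableSet_singleton x), mu_single]
    simp_rw [h2] at h1
    rw [lintegral_zero] at h1
    have h3 : Measurable fun R : Fin N → E3 => (if R i = R j then 1 else 0 : ℝ≥0∞) :=
      hm.comp ((measurable_pi_apply i).prodMk (measurable_pi_apply j) :
        Measurable fun R : Fin N → E3 => (R i, R j))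
    rw [lintegral_eq_zero_iff h3] at h1
    filter_upwards [h1] with R hR h4
    simp [h4] at hR
  have h2 : ∀ᵐ R ∂pm (mu L) N, ∀ i j : Fin N, i ≠ j → R i ≠ R j := by
    rw [ae_all_iff]; intro i
    rw [ae_all_iff]; intro j
    rw [ae_all_iff]; intro hij
    exact h i j hij
  filter_upwards [h2] with R hR i j hij
  by_contra h3
  exact hR i j h3 hij

lemma shift_meas (s : ℝ) (x : E3) : Measurable fun R : E3 => Ye s (x - R) :=
  (Ye_meas s).comp (measurable_const.sub measurable_id)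

lemma P_le {L : ℝ} (hL : 1 ≤ L) (x : E3) : P L x ≤ ENNReal.ofReal ((L ^ 3)⁻¹) :=
  ENNReal.ofReal_le_ofReal (p3_le hL x)

lemma mom_bound {L : ℝ} (hL : 1 ≤ L) (x : E3) {F : ℝ≥0∞ → ℝ≥0∞} (hF : Measurable F) {s a : ℝ}
    (h : ∫⁻ u, F (Ye s u) ≤ ENNReal.ofReal a) :
    (N : ℝ≥0∞) * ∫⁻ R, F (Ye s (x - R)) ∂mu L ≤ ENNReal.ofReal (N * (L ^ 3)⁻¹ * a) := by
  have hL0 : 0 < L := by linarith
  have hm : Measurable fun R : E3 => F (Ye s (x - R)) := hF.comp (shift_meas s x)
  rw [mu_lint L hm]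
  calc (N : ℝ≥0∞) * ∫⁻ R, P L R * F (Ye s (x - R)) ≤
      (N : ℝ≥0∞) * ∫⁻ R, ENNReal.ofReal ((L ^ 3)⁻¹) * F (Ye s (x - R)) := by
        gcongr with R
        exact P_le hL R
    _ = (N : ℝ≥0∞) * (ENNReal.ofReal ((L ^ 3)⁻¹) * ∫⁻ u, F (Ye s u)) := by
        rw [lintegral_const_mul' _ _ ENNReal.ofReal_ne_top]
        congr 2
        exact lintegral_sub_left_eq_self (fun u => F (Ye s u)) x
    _ ≤ (N : ℝ≥0∞) * (ENNReal.ofReal ((L ^ 3)⁻¹) * ENNReal.ofReal a) := by gcongr
    _ = ENNReal.ofReal (N * (L ^ 3)⁻¹ * a) := by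
        rw [mul_assoc, ENNReal.ofReal_mul (by positivity), ENNReal.ofReal_mul (by positivity),
          ENNReal.ofReal_natCast]

lemma far_zero {L s : ℝ} (hs : s ≤ 1) {x : E3} (hx : x ∉ box (-1) (L + 2)) (R : E3) :
    P L R * Ye s (x - R) = 0 := by
  by_cases h : s ≤ ‖x - R‖
  · rw [Ye_far h, mul_zero]
  · have h1 : R ∉ box 0 (L + 1) := by
      intro hR
      apply hx
      intro c
      have h1 : ‖(x - R) c‖ ≤ ‖x - R‖ := PiLp.norm_apply_le _ _
      have h2 : (x - R) c = x c - R c := rfl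
      rw [h2, Real.norm_eq_abs] at h1
      have h3 := abs_le.1 (h1.trans (not_le.1 h).le)
      have h4 := hR c
      rw [Set.mem_Icc] at h4 ⊢
      constructor <;> linarith [h3.1, h3.2, h4.1, h4.2]
    unfold P
    rw [p3_zero h1]; simp

/-- average of the `5/2`-integral -/
lemma Ph_avg {n : ℕ} {L s w v q : ℝ} (hL : 1 ≤ L) (hs : 0 < s) (hs1 : s ≤ 1) (hw : 0 < w) (hv : 0 ≤ v)
    (hq : 0 ≤ q) (h1 : (n + 1 : ℕ) * (L ^ 3)⁻¹ * (2 * Real.pi * s ^ 2 / 5) ≤ w ^ 2)
    (h2 : (n + 1 : ℕ) * (L ^ 3)⁻¹ * (4 * Real.pi * s) ≤ v)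
    (h3 : (n + 1 : ℕ) * (L ^ 3)⁻¹ * (8 * Real.pi * √s) ≤ q) [IsProbabilityMeasure (mu L)] :
    ∫⁻ R, Ph s R ∂pm (mu L) (n + 1) ≤ ENNReal.ofReal ((L + 3) ^ 3 * (w ^ 5 + 2 * w * v + q)) := by
  unfold Ph
  have hm : Measurable fun p : (Fin (n + 1) → E3) × E3 => (∑ j, Ye s (p.2 - p.1 j)) ^ (5 / 2 : ℝ) := by
    refine Measurable.pow_const ?_ _
    refine Finset.measurable_fun_sum _ fun j _ => ?_
    exact (Ye_meas s).comp (measurable_snd.sub ((measurable_pi_apply j).comp measurable_fst))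
  rw [lintegral_lintegral_swap hm.aemeasurable]
  have h4 : ∀ x, x ∉ box (-1) (L + 2) →
      ∫⁻ R, (∑ j, Ye s (x - R j)) ^ (5 / 2 : ℝ) ∂pm (mu L) (n + 1) = 0 := by
    intro x hx
    have h5 := E1 (mu L) (shift_meas s x) (n + 1)
    rw [mu_lint L (shift_meas s x)] at h5
    simp_rw [far_zero hs1 hx] at h5
    rw [lintegral_zero, mul_zero, lintegral_eq_zero_iff (S_meas (shift_meas s x))] at h5
    rw [← lintegral_zero (μ := pm (mu L) (n + 1))]
    refine lintegral_congr_ae ?_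
    filter_upwards [h5] with R hR
    have : ∑ j, Ye s (x - R j) = 0 := hR
    rw [this, ENNReal.zero_rpow_of_pos (by norm_num)]
  have h5 : ∀ x, ∫⁻ R, (∑ j, Ye s (x - R j)) ^ (5 / 2 : ℝ) ∂pm (mu L) (n + 1) ≤
      ENNReal.ofReal (w ^ 5 + 2 * w * v + q) := by
    intro x
    refine E52 (mu L) (shift_meas s x) hw hv hq ?_ ?_ ?_
    · exact (mom_bound hL x (F := fun t => t) measurable_id (I1 hs).le).trans (ENNReal.ofReal_le_ofReal h1)
    · exact (mom_bound hL x (F := fun t => t ^ 2) (by fun_prop) (I2 hs)).trans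
        (ENNReal.ofReal_le_ofReal h2)
    · exact (mom_bound hL x (F := fun t => t ^ (5 / 2 : ℝ)) (by fun_prop) (I3 hs)).trans
        (ENNReal.ofReal_le_ofReal h3)
  calc ∫⁻ x, ∫⁻ R, (∑ j, Ye s (x - R j)) ^ (5 / 2 : ℝ) ∂pm (mu L) (n + 1) ≤
      ∫⁻ x, (box (-1) (L + 2)).indicator (fun _ => ENNReal.ofReal (w ^ 5 + 2 * w * v + q)) x := by
        refine lintegral_mono fun x => ?_
        by_cases hx : x ∈ box (-1) (L + 2)
        · rw [Set.indicator_of_mem hx]; exact h5 x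
        · rw [h4 x hx]; exact zero_le
    _ = ENNReal.ofReal ((L + 3) ^ 3 * (w ^ 5 + 2 * w * v + q)) := by
        rw [lintegral_indicator (box_meas _ _), setLIntegral_const, box_vol,
          ← ENNReal.ofReal_pow (by linarith), ← ENNReal.ofReal_mul (by positivity), mul_comm]
        congr 2
        ring

lemma Ap_meas : Measurable (Ap L) := by
  unfold Ap
  have hm : Measurable fun q : E3 × E3 => p3 L q.2 / ‖q.2 - q.1‖ :=
    ((p3_cont L).measurable.comp measurable_snd).div (measurable_snd.sub measurable_fst).norm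
  exact (StronglyMeasurable.integral_prod_right
    (f := fun (R : E3) (x : E3) => p3 L x / ‖x - R‖) hm.stronglyMeasurable).measurable

lemma Ap_avg (hL : 1 ≤ L) : ∫⁻ R, ENNReal.ofReal (Ap L R) ∂mu L = D0 L := by
  have hL0 : 0 ≤ L := by linarith
  rw [mu_lint L Ap_meas.ennreal_ofReal]
  unfold D0
  refine lintegral_congr fun x => ?_
  unfold Ap
  rw [ofReal_integral_eq_lintegral_ofReal (Ap_int hL0 x)
    (Eventually.of_forall fun u => div_nonneg (p3_nonneg hL0 u) (norm_nonneg _)),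
    ← lintegral_const_mul' _ _ (by unfold P; exact ENNReal.ofReal_ne_top)]
  refine lintegral_congr fun y => ?_
  unfold cw P
  rw [div_eq_mul_one_div, ENNReal.ofReal_mul (p3_nonneg hL0 y), norm_sub_rev]
  ring

lemma Ap_sum_avg (hL : 1 ≤ L) [IsProbabilityMeasure (mu L)] :
    ∫⁻ R, ENNReal.ofReal (N * ∑ j, Ap L (R j)) ∂pm (mu L) N = ENNReal.ofReal ((N : ℝ) ^ 2) * D0 L := by
  have hL0 : 0 ≤ L := by linarith
  have h1 : ∀ R : Fin N → E3, ENNReal.ofReal (N * ∑ j, Ap L (R j)) =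
      ENNReal.ofReal N * ∑ j, ENNReal.ofReal (Ap L (R j)) := by
    intro R
    rw [ENNReal.ofReal_mul (by positivity), ENNReal.ofReal_sum_of_nonneg fun j _ => Ap_nonneg hL0 _]
  simp_rw [h1]
  have hm : ∀ j : Fin N, Measurable fun R : Fin N → E3 => ENNReal.ofReal (Ap L (R j)) := fun j =>
    (Ap_meas.comp (measurable_pi_apply j)).ennreal_ofReal
  rw [lintegral_const_mul' _ _ ENNReal.ofReal_ne_top, lintegral_finsetSum _ fun j _ => hm j]
  simp_rw [fun j : Fin N => lint_single (mu L) j (f := fun x => ENNReal.ofReal (Ap L x))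
    Ap_meas.ennreal_ofReal, Ap_avg hL]
  rw [Finset.sum_const, Finset.card_univ, Fintype.card_fin, nsmul_eq_mul, ← mul_assoc, pow_two,
    ENNReal.ofReal_mul (by positivity), ENNReal.ofReal_natCast]

lemma pair_meas (i j : Fin N) : Measurable fun R : Fin N → E3 => (R i, R j) :=
  (measurable_pi_apply i).prodMk (measurable_pi_apply j)

lemma WkE_meas (s : ℝ) : Measurable fun p : E3 × E3 => ENNReal.ofReal (Wk s p.1 p.2) :=
  (Wk_meas s).ennreal_ofReal

lemma Wk_pair_meas (s : ℝ) (i j : Fin N) :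
    Measurable fun R : Fin N → E3 => ENNReal.ofReal (Wk s (R i) (R j)) := by
  have := comp1 (WkE_meas s) (pair_meas i j)
  exact this

lemma W_two {s : ℝ} [IsProbabilityMeasure (mu L)] {i j : Fin N} (hij : i ≠ j) :
    ∫⁻ R : Fin N → E3, ENNReal.ofReal (Wk s (R i) (R j)) ∂pm (mu L) N = W0 L s := by
  rw [lint_two (mu L) hij (g := fun x y => ENNReal.ofReal (Wk s x y)) (WkE_meas s)]
  have hsec : ∀ x : E3, Measurable fun y : E3 => ENNReal.ofReal (Wk s x y) := fun x => by
    have := comp1 (WkE_meas s) (measurable_const.prodMk measurable_id : Measurable fun y : E3 => (x, y))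
    exact this
  simp_rw [fun x => mu_lint L (hsec x)]
  have hm2 : Measurable fun p : E3 × E3 => P L p.2 * ENNReal.ofReal (Wk s p.1 p.2) :=
    ((P_meas L).comp measurable_snd).mul (WkE_meas s)
  have hm3 : Measurable fun x : E3 => ∫⁻ y, P L y * ENNReal.ofReal (Wk s x y) :=
    Measurable.lintegral_prod_right' hm2
  rw [mu_lint L hm3]
  unfold W0
  refine lintegral_congr fun x => ?_
  rw [← lintegral_const_mul' _ _ (by unfold P; exact ENNReal.ofReal_ne_top)]
  refine lintegral_congr fun y => ?_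
  ring

lemma W_one {s : ℝ} (hs : 0 < s) [IsProbabilityMeasure (mu L)] (i : Fin N) :
    ∫⁻ R : Fin N → E3, ENNReal.ofReal (Wk s (R i) (R i)) ∂pm (mu L) N ≤
      ENNReal.ofReal (3 / (2 * s)) := by
  calc _ ≤ ∫⁻ _R : Fin N → E3, ENNReal.ofReal (3 / (2 * s)) ∂pm (mu L) N :=
        lintegral_mono fun R => ENNReal.ofReal_le_ofReal (Wk_self hs _)
    _ = _ := by simp

lemma W_le {s : ℝ} (hs : 0 < s) [IsProbabilityMeasure (mu L)] (i j : Fin N) :
    ∫⁻ R : Fin N → E3, ENNReal.ofReal (Wk s (R i) (R j)) ∂pm (mu L) N ≤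
      (if i = j then ENNReal.ofReal (3 / (2 * s)) else 0) + W0 L s := by
  by_cases hij : i = j
  · subst hij
    rw [if_pos rfl]
    exact le_trans (W_one hs i) le_self_add
  · rw [if_neg hij, zero_add, W_two hij]

lemma W_avg {s : ℝ} (hs : 0 < s) [IsProbabilityMeasure (mu L)] :
    ∫⁻ R : Fin N → E3, ENNReal.ofReal (1 / 2 * ∑ i, ∑ j, Wk s (R i) (R j)) ∂pm (mu L) N ≤
      ENNReal.ofReal (1 / 2) * (ENNReal.ofReal (N * (3 / (2 * s))) + ENNReal.ofReal ((N : ℝ) ^ 2) * W0 L s) := by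
  have h1 : ∀ R : Fin N → E3, ENNReal.ofReal (1 / 2 * ∑ i, ∑ j, Wk s (R i) (R j)) =
      ENNReal.ofReal (1 / 2) * ∑ i, ∑ j, ENNReal.ofReal (Wk s (R i) (R j)) := by
    intro R
    rw [ENNReal.ofReal_mul (by positivity), ENNReal.ofReal_sum_of_nonneg fun i _ =>
      Finset.sum_nonneg fun j _ => Wk_nonneg hs _ _]
    simp_rw [fun i => ENNReal.ofReal_sum_of_nonneg (s := Finset.univ) (f := fun j => Wk s (R i) (R j))
      fun j _ => Wk_nonneg hs _ _]
  simp_rw [h1]
  rw [lintegral_const_mul' _ _ ENNReal.ofReal_ne_top]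
  refine mul_le_mul_right ?_ _
  rw [lintegral_finsetSum _ fun i _ => Finset.measurable_fun_sum _ fun j _ => Wk_pair_meas s i j]
  have h3 : ∀ i : Fin N, ∫⁻ R : Fin N → E3, ∑ j, ENNReal.ofReal (Wk s (R i) (R j)) ∂pm (mu L) N =
      ∑ j, ∫⁻ R : Fin N → E3, ENNReal.ofReal (Wk s (R i) (R j)) ∂pm (mu L) N := fun i =>
    lintegral_finsetSum _ fun j _ => Wk_pair_meas s i j
  simp_rw [h3]
  calc _ ≤ ∑ i : Fin N, ∑ j : Fin N, ((if i = j then ENNReal.ofReal (3 / (2 * s)) else 0) + W0 L s) :=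
        Finset.sum_le_sum fun i _ => Finset.sum_le_sum fun j _ => W_le hs i j
    _ = _ := by
        simp_rw [Finset.sum_add_distrib]
        simp only [Finset.sum_ite_eq, Finset.mem_univ, if_true, Finset.sum_const, Finset.card_univ,
          Fintype.card_fin, nsmul_eq_mul]
        rw [ENNReal.ofReal_mul (by positivity), ENNReal.ofReal_natCast, pow_two,
          ENNReal.ofReal_mul (by positivity), ENNReal.ofReal_natCast, mul_assoc]

end Pool.Agent.TH791.Co
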