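import Mathlib

/-!
# Coulomb potentials of densities in `L¹ ∩ L^{5/3}(ℝ³)`

Extracted (with other names) from the starting files `Pool/Agent/Helper557/TF/Core.lean`,
`Diatomic.lean`, `All.lean`: potentials, Newton's theorem for balls, positivity of the Coulomb energy.
-/

set_option autoImplicit false
set_option linter.unusedSectionVars false

open MeasureTheory Set Filter Topology Metric
open scoped RealInnerProductSpace BigOperators ENNReal

namespace Pool.Agent.TH791.Cl

abbrev E3 := EuclideanSpace ℝ (Fin 3)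

/-- integrable, `L^{5/3}` and measurable -/
def Nice (g : E3 → ℝ) : Prop :=
  Measurable g ∧ Integrable g ∧ Integrable (fun x => |g x| ^ (5/3 : ℝ))

/-- the Coulomb potential of a density -/
noncomputable def pot (g : E3 → ℝ) (x : E3) : ℝ := ∫ y, g y / ‖x - y‖

/-! ### newton_ball -/
section
abbrev E2v := EuclideanSpace ℝ (Fin 2)

lemma I1 (c ρ : ℝ) (hρ : 0 ≤ ρ) :
    IntegrableOn (fun y : ℝ => y * (1/√(c^2+y^2))) (Ioc 0 ρ) ∧
    ∫ y in (0:ℝ)..ρ, y * (1/√(c^2+y^2)) = √(c^2+ρ^2) - |c| := by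
  have hc : ContinuousOn (fun y : ℝ => √(c^2+y^2)) (Icc 0 ρ) := by
    apply Continuous.continuousOn; fun_prop
  have hd : ∀ x ∈ Ioo (0:ℝ) ρ, HasDerivAt (fun y : ℝ => √(c^2+y^2)) (x * (1/√(c^2+x^2))) x := by
    intro x hx
    have h0 : c^2+x^2 ≠ 0 := by have := hx.1; positivity
    have h1 : HasDerivAt (fun y : ℝ => c^2+y^2) (2*x) x := by
      simpa using ((hasDerivAt_pow 2 x).const_add (c^2))
    have := h1.sqrt h0
    convert this using 1
    field_simp
  have hi : IntegrableOn (fun y : ℝ => y * (1/√(c^2+y^2))) (Ioc 0 ρ) := by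
    apply intervalIntegral.integrableOn_deriv_of_nonneg hc hd
    intro x hx
    have := hx.1
    positivity
  refine ⟨hi, ?_⟩
  rw [intervalIntegral.integral_eq_sub_of_hasDerivAt_of_le hρ hc hd
    ((intervalIntegrable_iff_integrableOn_Ioc_of_le hρ).2 hi)]
  simp [Real.sqrt_sq_eq_abs]

lemma I2 (c ρ : ℝ) (hρ : 0 ≤ ρ) :
    Integrable (fun v : E2v => (Iio ρ).indicator (fun r : ℝ => 1/√(c^2+r^2)) ‖v‖) ∧
    ∫ v : E2v, (Iio ρ).indicator (fun r : ℝ => 1/√(c^2+r^2)) ‖v‖ = 2 * Real.pi * (√(c^2+ρ^2) - |c|) := by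
  obtain ⟨hi, hv⟩ := I1 c ρ hρ
  have hfun : ∀ y : ℝ, y ^ (Module.finrank ℝ E2v - 1) • (Iio ρ).indicator (fun r : ℝ => 1/√(c^2+r^2)) y
      = (Iio ρ).indicator (fun y : ℝ => y * (1/√(c^2+y^2))) y := by
    intro y
    have : Module.finrank ℝ E2v = 2 := by simp
    rw [this]
    by_cases hy : y ∈ Iio ρ
    · simp only [indicator_of_mem hy]; simp
    · simp only [indicator_of_notMem hy]; simp
  have hsub : Ioi (0:ℝ) ∩ Iio ρ = Ioo 0 ρ := by ext; simp
  constructor
  · rw [integrable_fun_norm_addHaar (μ := (volume : Measure E2v))]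
    simp only [hfun]
    rw [integrableOn_indicator_iff measurableSet_Iio, inter_comm, hsub]
    exact hi.mono_set Ioo_subset_Ioc_self
  · rw [integral_fun_norm_addHaar (volume : Measure E2v)]
    simp only [hfun]
    rw [setIntegral_indicator measurableSet_Iio, hsub, ← integral_Ioc_eq_integral_Ioo,
      ← intervalIntegral.integral_of_le hρ, hv]
    have h1 : (volume : Measure E2v).real (ball 0 1) = Real.pi := by
      rw [Measure.real, EuclideanSpace.volume_ball_fin_two]
      simp [Real.pi_nonneg]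
    rw [h1]
    simp
    ring

noncomputable def eqv : E3 ≃ᵐ ℝ × E2v :=
  (MeasurableEquiv.toLp 2 (Fin 3 → ℝ)).symm.trans
    ((MeasurableEquiv.piFinSuccAbove (fun _ => ℝ) 0).trans
      ((MeasurableEquiv.refl ℝ).prodCongr (MeasurableEquiv.toLp 2 (Fin 2 → ℝ))))

lemma eqv_mp : MeasurePreserving eqv := by
  have h1 := PiLp.volume_preserving_ofLp (Fin 3)
  have h2 := volume_preserving_piFinSuccAbove (fun _ : Fin 3 => ℝ) 0
  have h3 := (MeasurePreserving.id (volume : Measure ℝ)).prod (PiLp.volume_preserving_toLp (Fin 2))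
  exact h3.comp (h2.comp h1)

lemma eqv_fst (x : E3) : (eqv x).1 = x 0 := rfl

lemma eqv_norm (x : E3) : ‖x‖^2 = (eqv x).1^2 + ‖(eqv x).2‖^2 := by
  rw [EuclideanSpace.norm_sq_eq, EuclideanSpace.norm_sq_eq]
  rw [Fin.sum_univ_succ]
  simp only [Real.norm_eq_abs, sq_abs]
  rfl

lemma eqv_norm_sub (x : E3) (a : ℝ) :
    ‖x - EuclideanSpace.single 0 a‖^2 = ((eqv x).1 - a)^2 + ‖(eqv x).2‖^2 := by
  rw [EuclideanSpace.norm_sq_eq, EuclideanSpace.norm_sq_eq]
  rw [Fin.sum_univ_succ]
  simp only [Real.norm_eq_abs, sq_abs]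
  congr 1
  simp
  rfl

/-- the slice function -/
noncomputable def FF (a s : ℝ) (p : ℝ × E2v) : ℝ :=
  (Iio √(s^2 - p.1^2)).indicator (fun r : ℝ => 1/√((p.1 - a)^2+r^2)) ‖p.2‖

lemma FF_eq (a s : ℝ) (hs : 0 < s) (x : E3) :
    (ball (0:E3) s).indicator (fun x => 1 / ‖x - EuclideanSpace.single 0 a‖) x = FF a s (eqv x) := by
  have h1 : x ∈ ball (0:E3) s ↔ ‖(eqv x).2‖ ∈ Iio √(s^2 - (eqv x).1^2) := by
    rw [mem_ball_zero_iff, mem_Iio, Real.lt_sqrt (norm_nonneg _)]
    have := eqv_norm x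
    rw [← sq_lt_sq₀ (norm_nonneg _) hs.le]
    constructor <;> intro h <;> linarith
  unfold FF
  by_cases hx : x ∈ ball (0:E3) s
  · rw [indicator_of_mem hx, indicator_of_mem (h1.1 hx), ← eqv_norm_sub, Real.sqrt_sq (norm_nonneg _)]
  · rw [indicator_of_notMem hx, indicator_of_notMem (fun h => hx (h1.2 h))]

lemma FF_meas (a s : ℝ) : Measurable (FF a s) := by
  have : FF a s = {p : ℝ × E2v | ‖p.2‖ < √(s^2 - p.1^2)}.indicator
      (fun p : ℝ × E2v => 1/√((p.1 - a)^2+‖p.2‖^2)) := by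
    funext p
    unfold FF
    by_cases h : ‖p.2‖ < √(s^2 - p.1^2)
    · rw [indicator_of_mem (show ‖p.2‖ ∈ Iio √(s^2 - p.1^2) from h), indicator_of_mem (show p ∈ {p : ℝ × E2v | ‖p.2‖ < √(s^2 - p.1^2)} from h)]
    · rw [indicator_of_notMem (show ‖p.2‖ ∉ Iio √(s^2 - p.1^2) from h), indicator_of_notMem (show p ∉ {p : ℝ × E2v | ‖p.2‖ < √(s^2 - p.1^2)} from h)]
  rw [this]
  apply Measurable.indicator
  · fun_prop
  · apply measurableSet_lt <;> fun_prop

lemma FF_nonneg (a s : ℝ) (p : ℝ × E2v) : 0 ≤ FF a s p := by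
  unfold FF
  apply indicator_nonneg
  intro r _
  positivity

lemma inner_val (a s z : ℝ) (hs : 0 < s) :
    2 * Real.pi * (√((z-a)^2+√(s^2 - z^2)^2) - |z-a|) =
      (Ioc (-s) s).indicator (fun z => 2 * Real.pi * (√(s^2+a^2-2*a*z) - |z-a|)) z := by
  by_cases hz : z ∈ Ioc (-s) s
  · rw [indicator_of_mem hz]
    have : 0 ≤ s^2 - z^2 := by nlinarith [hz.1, hz.2]
    rw [Real.sq_sqrt this]
    congr 3
    ring_nf
  · rw [indicator_of_notMem hz]
    have : s^2 - z^2 ≤ 0 := by
      by_contra h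
      push Not at h
      apply hz
      have h2 : |z| < s := by
        rw [← sq_lt_sq₀ (abs_nonneg _) hs.le, sq_abs]; linarith
      rw [abs_lt] at h2
      exact ⟨h2.1, h2.2.le⟩
    rw [Real.sqrt_eq_zero_of_nonpos this]
    simp [Real.sqrt_sq_eq_abs]

lemma FF_int (a s : ℝ) (hs : 0 < s) :
    Integrable (FF a s) (volume.prod volume) ∧
    ∫ p, FF a s p ∂(volume.prod volume) = ∫ z in (-s)..s, 2 * Real.pi * (√(s^2+a^2-2*a*z) - |z-a|) := by
  have hin : ∀ z : ℝ, Integrable (fun v : E2v => FF a s (z, v)) ∧ ∫ v : E2v, FF a s (z, v) =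
      (Ioc (-s) s).indicator (fun z => 2 * Real.pi * (√(s^2+a^2-2*a*z) - |z-a|)) z := by
    intro z
    have := I2 (z-a) (√(s^2 - z^2)) (Real.sqrt_nonneg _)
    refine ⟨this.1, ?_⟩
    rw [← inner_val a s z hs]
    exact this.2
  have hle : -s ≤ s := by linarith
  have hint : Integrable (FF a s) (volume.prod volume) := by
    rw [integrable_prod_iff (FF_meas a s).aestronglyMeasurable]
    refine ⟨Eventually.of_forall fun z => (hin z).1, ?_⟩
    have : (fun z : ℝ => ∫ v : E2v, ‖FF a s (z, v)‖) =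
        (Ioc (-s) s).indicator (fun z => 2 * Real.pi * (√(s^2+a^2-2*a*z) - |z-a|)) := by
      funext z
      rw [← (hin z).2]
      congr 1
      funext v
      exact Real.norm_of_nonneg (FF_nonneg _ _ _)
    rw [this, integrable_indicator_iff measurableSet_Ioc]
    apply IntegrableOn.mono_set _ Ioc_subset_Icc_self
    apply Continuous.integrableOn_Icc
    fun_prop
  refine ⟨hint, ?_⟩
  rw [integral_prod _ hint]
  simp only [fun z => (hin z).2]
  rw [integral_indicator measurableSet_Ioc, intervalIntegral.integral_of_le hle]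

lemma A_val (a s : ℝ) (hs : 0 < s) (ha : 0 < a) :
    ∫ z in (-s)..s, √(s^2+a^2-2*a*z) = ((s+a)^3 - |s-a|^3)/(3*a) := by
  have hle : -s ≤ s := by linarith
  have hc : ContinuousOn (fun z : ℝ => -((s^2+a^2-2*a*z) * √(s^2+a^2-2*a*z))/(3*a)) (Icc (-s) s) := by
    apply Continuous.continuousOn; fun_prop
  have hd : ∀ x ∈ Ioo (-s) s, HasDerivAt (fun z : ℝ => -((s^2+a^2-2*a*z) * √(s^2+a^2-2*a*z))/(3*a))
      (√(s^2+a^2-2*a*x)) x := by
    intro x hx
    have hw : 0 < s^2+a^2-2*a*x := by nlinarith [hx.2, mul_pos ha (sub_pos.2 hx.2), sq_nonneg (s-a)]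
    have h1 : HasDerivAt (fun y : ℝ => s^2+a^2-2*a*y) (-(2*a)) x := by
      simpa using ((hasDerivAt_id x).const_mul (2*a)).const_sub (s^2+a^2)
    have h2 := ((h1.mul (h1.sqrt hw.ne')).neg).div_const (3*a)
    refine h2.congr_deriv ?_
    have h3 : √(s^2+a^2-2*a*x) ≠ 0 := (Real.sqrt_pos.2 hw).ne'
    have h4 := Real.sq_sqrt hw.le
    generalize √(s^2+a^2-2*a*x) = t at h3 h4 ⊢
    rw [← h4]
    field_simp
    ring
  rw [intervalIntegral.integral_eq_sub_of_hasDerivAt_of_le hle hc hd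
    ((Continuous.intervalIntegrable (by fun_prop) _ _))]
  have e1 : s^2+a^2-2*a*s = (s-a)^2 := by ring
  have e2 : s^2+a^2-2*a*(-s) = (s+a)^2 := by ring
  rw [e1, e2, Real.sqrt_sq_eq_abs, Real.sqrt_sq (by positivity), ← sq_abs (s-a)]
  ring

lemma B_val1 (a s : ℝ) (hs : 0 < s) (ha : s ≤ a) :
    ∫ z in (-s)..s, |z-a| = 2*a*s := by
  have hle : -s ≤ s := by linarith
  have : ∫ z in (-s)..s, |z-a| = ∫ z in (-s)..s, (a - z) := by
    apply intervalIntegral.integral_congr
    intro z hz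
    rw [uIcc_of_le hle] at hz
    simp only
    rw [abs_of_nonpos (by linarith [hz.2])]
    ring
  rw [this, intervalIntegral.integral_sub (by simp) (by simp)]
  simp
  ring

lemma B_val2 (a s : ℝ) (hs : 0 < s) (ha0 : 0 ≤ a) (ha : a ≤ s) :
    ∫ z in (-s)..s, |z-a| = s^2+a^2 := by
  have hle1 : -s ≤ a := by linarith
  have h1 : ∫ z in (-s)..a, |z-a| = ∫ z in (-s)..a, (a - z) := by
    apply intervalIntegral.integral_congr
    intro z hz
    rw [uIcc_of_le hle1] at hz
    simp only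
    rw [abs_of_nonpos (by linarith [hz.2])]
    ring
  have h2 : ∫ z in a..s, |z-a| = ∫ z in a..s, (z - a) := by
    apply intervalIntegral.integral_congr
    intro z hz
    rw [uIcc_of_le ha] at hz
    simp only
    rw [abs_of_nonneg (by linarith [hz.1])]
  rw [← intervalIntegral.integral_add_adjacent_intervals (a := -s) (b := a) (c := s)
    (Continuous.intervalIntegrable (by fun_prop) _ _) (Continuous.intervalIntegrable (by fun_prop) _ _),
    h1, h2, intervalIntegral.integral_sub (by simp) (by simp), intervalIntegral.integral_sub (by simp) (by simp)]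
  simp
  ring

lemma tot (a s : ℝ) (hs : 0 < s) :
    ∫ z in (-s)..s, 2 * Real.pi * (√(s^2+a^2-2*a*z) - |z-a|) =
    2 * Real.pi * ((∫ z in (-s)..s, √(s^2+a^2-2*a*z)) - ∫ z in (-s)..s, |z-a|) := by
  rw [intervalIntegral.integral_const_mul, intervalIntegral.integral_sub
    (Continuous.intervalIntegrable (by fun_prop) _ _) (Continuous.intervalIntegrable (by fun_prop) _ _)]

lemma centered (a s : ℝ) (hs : 0 < s) (ha0 : 0 ≤ a) :
    IntegrableOn (fun x : E3 => 1 / ‖x - EuclideanSpace.single 0 a‖) (ball 0 s) ∧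
    (s ≤ a → ∫ x in ball (0:E3) s, 1 / ‖x - EuclideanSpace.single 0 a‖ = (4/3*Real.pi*s^3) / a) ∧
    (0 < a → ∫ x in ball (0:E3) s, 1 / ‖x - EuclideanSpace.single 0 a‖ ≤ (4/3*Real.pi*s^3) / a) := by
  obtain ⟨hi, hv⟩ := FF_int a s hs
  have hval : ∫ x in ball (0:E3) s, 1 / ‖x - EuclideanSpace.single 0 a‖ =
      2 * Real.pi * ((∫ z in (-s)..s, √(s^2+a^2-2*a*z)) - ∫ z in (-s)..s, |z-a|) := by
    rw [← integral_indicator measurableSet_ball]
    simp only [FF_eq a s hs]
    rw [← tot a s hs, ← hv]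
    exact eqv_mp.integral_comp eqv.measurableEmbedding (FF a s)
  have hpi := Real.pi_pos
  refine ⟨?_, ?_, ?_⟩
  · rw [← integrable_indicator_iff measurableSet_ball]
    have : (ball (0:E3) s).indicator (fun x => 1 / ‖x - EuclideanSpace.single 0 a‖) = FF a s ∘ eqv := by
      funext x; exact FF_eq a s hs x
    rw [this]
    exact (eqv_mp.integrable_comp_emb eqv.measurableEmbedding).2 hi
  · intro h
    have ha : 0 < a := by linarith
    rw [hval, A_val a s hs ha, B_val1 a s hs h, abs_of_nonpos (by linarith)]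
    field_simp
    ring
  · intro ha
    rw [hval, A_val a s hs ha]
    rcases le_total a s with h | h
    · rw [B_val2 a s hs ha.le h, abs_of_nonneg (by linarith), le_div_iff₀ ha]
      have e : 2 * Real.pi * (((s + a) ^ 3 - (s - a) ^ 3) / (3 * a) - (s ^ 2 + a ^ 2)) * a =
        2 * Real.pi * ((3 * s^2 * a - a^3) / 3) := by
        field_simp
        ring
      rw [e]
      have h2 : 3 * s^2 * a - a^3 ≤ 2 * s^3 := by
        nlinarith [mul_nonneg (sq_nonneg (s-a)) (by linarith : 0 ≤ 2*s+a)]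
      nlinarith
    · apply le_of_eq
      rw [B_val1 a s hs h, abs_of_nonpos (by linarith)]
      field_simp
      ring

/-- Newton's theorem: the average of the Coulomb kernel over a ball. -/
theorem newton_ball (x0 y : E3) (s : ℝ) (hs : 0 < s) :
    IntegrableOn (fun x : E3 => 1 / ‖x - y‖) (ball x0 s) ∧
    (s ≤ ‖x0 - y‖ → ∫ x in ball x0 s, 1 / ‖x - y‖ = (volume (ball x0 s)).toReal / ‖x0 - y‖) ∧
    (y ≠ x0 → ∫ x in ball x0 s, 1 / ‖x - y‖ ≤ (volume (ball x0 s)).toReal / ‖x0 - y‖) := by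
  set a := ‖x0 - y‖ with ha
  have ha0 : 0 ≤ a := norm_nonneg _
  have hn : ‖y - x0‖ = ‖(EuclideanSpace.single 0 a : E3)‖ := by
    rw [EuclideanSpace.norm_single, norm_sub_rev, Real.norm_of_nonneg ha0]
  set L : E3 ≃ₗᵢ[ℝ] E3 := Submodule.reflection (Submodule.span ℝ {(y - x0) - (EuclideanSpace.single 0 a : E3)})ᗮ with hL
  have hLy : L (y - x0) = EuclideanSpace.single 0 a := Submodule.reflection_sub hn
  -- the map x ↦ L (x - x0)
  let T : E3 ≃ᵢ E3 := (IsometryEquiv.subRight x0).trans L.toIsometryEquiv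
  have hT : ∀ x, T x = L (x - x0) := fun x => rfl
  have hTm : MeasurePreserving (fun x : E3 => L (x - x0)) := by
    exact L.measurePreserving.comp (measurePreserving_sub_right volume x0)
  have hTe : MeasurableEmbedding (fun x : E3 => L (x - x0)) :=
    T.toHomeomorph.measurableEmbedding
  have hpre : (fun x : E3 => L (x - x0)) ⁻¹' (ball 0 s) = ball x0 s := by
    ext x
    rw [mem_preimage, mem_ball_zero_iff, LinearIsometryEquiv.norm_map, mem_ball, dist_eq_norm]
  have hf : ∀ x : E3, 1 / ‖x - y‖ = 1 / ‖L (x - x0) - EuclideanSpace.single 0 a‖ := by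
    intro x
    rw [← hLy, ← map_sub, LinearIsometryEquiv.norm_map]
    congr 2
    abel
  have hvol : (volume (ball x0 s)).toReal = 4/3*Real.pi*s^3 := by
    rw [EuclideanSpace.volume_ball_fin_three]
    rw [← ENNReal.ofReal_pow hs.le, ← ENNReal.ofReal_mul (by positivity), ENNReal.toReal_ofReal (by positivity)]
    ring
  obtain ⟨c1, c2, c3⟩ := centered a s hs ha0
  have hint : ∫ x in ball x0 s, 1 / ‖x - y‖ = ∫ x in ball (0:E3) s, 1 / ‖x - EuclideanSpace.single 0 a‖ := by
    simp only [hf]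
    rw [← hpre]
    exact hTm.setIntegral_preimage_emb hTe (fun x => 1 / ‖x - EuclideanSpace.single 0 a‖) _
  rw [hint, hvol]
  refine ⟨?_, c2, ?_⟩
  · simp only [hf]
    rw [← hpre]
    exact (hTm.integrableOn_comp_preimage hTe).2 c1
  · intro hne
    apply c3
    rw [ha]
    exact norm_pos_iff.2 (sub_ne_zero.2 hne.symm)
end


/-! ### nice_bound -/
section
-- ===== TARGET =====
theorem nb_ker :
    Integrable (Set.indicator (ball (0:E3) 1) (fun u : E3 => ‖u‖ ^ (-(5/2) : ℝ))) := by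
  have h2 : IntegrableOn (fun x : E3 => ‖x‖ ^ (-(5/2) : ℝ)) (ball 0 1) := by
    rw [integrableOn_fun_norm_addHaar (volume : Measure E3) (f := fun r : ℝ => r ^ (-(5/2) : ℝ))]
    rw [finrank_euclideanSpace_fin]
    have h := (intervalIntegral.integrableOn_Ioo_rpow_iff (s := (-(1/2) : ℝ)) (t := (1:ℝ))
      one_pos).mpr (by norm_num)
    refine h.congr_fun ?_ measurableSet_Ioo
    intro y hy
    have hy0 : 0 < y := hy.1
    show y ^ (-(1/2) : ℝ) = y ^ (3 - 1) • y ^ (-(5/2) : ℝ)
    rw [smul_eq_mul, show (3 - 1 : ℕ) = 2 by norm_num, ← Real.rpow_natCast y 2,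
      ← Real.rpow_add hy0]
    norm_num
  exact h2.integrable_indicator measurableSet_ball

theorem nb_pt (a : ℝ) (ha : 0 ≤ a) (u : E3) :
    a / ‖u‖ ≤ 3/5 * a ^ (5/3 : ℝ)
      + 2/5 * Set.indicator (ball (0:E3) 1) (fun u : E3 => ‖u‖ ^ (-(5/2) : ℝ)) u + a := by
  by_cases h : u ∈ ball (0:E3) 1
  · rw [Set.indicator_of_mem h]
    have hq : Real.HolderConjugate (5/3) (5/2) := by
      rw [Real.holderConjugate_iff]
      constructor <;> norm_num
    have hy := Real.young_inequality_of_nonneg ha (inv_nonneg.mpr (norm_nonneg u)) hq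
    have e : (‖u‖⁻¹) ^ (5/2 : ℝ) = ‖u‖ ^ (-(5/2) : ℝ) := by
      rw [Real.inv_rpow (norm_nonneg u), Real.rpow_neg (norm_nonneg u)]
    rw [e] at hy
    rw [div_eq_mul_inv]
    linarith
  · rw [Set.indicator_of_notMem h, mul_zero, add_zero]
    have h1 : 1 ≤ ‖u‖ := by
      rw [mem_ball_zero_iff] at h
      exact not_lt.mp h
    have h2 : a / ‖u‖ ≤ a := div_le_self ha h1
    have h3 : 0 ≤ a ^ (5/3 : ℝ) := Real.rpow_nonneg ha _
    linarith

theorem nice_bound (g : E3 → ℝ) (hg : Nice g) :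
    ∃ B : ℝ, ∀ x : E3, Integrable (fun y => g y / ‖x - y‖) ∧ ∫ y, |g y| / ‖x - y‖ ≤ B := by
  obtain ⟨hm, h1, h53⟩ := hg
  have hK := nb_ker
  obtain ⟨K, hKdef⟩ : ∃ K : E3 → ℝ, K = Set.indicator (ball (0:E3) 1)
    (fun u : E3 => ‖u‖ ^ (-(5/2) : ℝ)) := ⟨_, rfl⟩
  rw [← hKdef] at hK
  refine ⟨3/5 * (∫ y, |g y| ^ (5/3 : ℝ)) + 2/5 * (∫ u, K u) + ∫ y, |g y|, fun x => ?_⟩
  have hKx : Integrable (fun y => K (x - y)) := hK.comp_sub_left x
  have hH1 : Integrable (fun y => 3/5 * |g y| ^ (5/3 : ℝ) + 2/5 * K (x - y)) :=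
    (h53.const_mul (3/5)).add (hKx.const_mul (2/5))
  have hH : Integrable (fun y => 3/5 * |g y| ^ (5/3 : ℝ) + 2/5 * K (x - y) + |g y|) :=
    hH1.add h1.abs
  have hpt : ∀ y, |g y| / ‖x - y‖ ≤ 3/5 * |g y| ^ (5/3 : ℝ) + 2/5 * K (x - y) + |g y| := by
    intro y
    rw [hKdef]
    exact nb_pt _ (abs_nonneg _) _
  have hmeas : Measurable (fun y => g y / ‖x - y‖) :=
    hm.div (measurable_const.sub measurable_id).norm
  have hint : Integrable (fun y => g y / ‖x - y‖) := by
    refine hH.mono' hmeas.aestronglyMeasurable (Filter.Eventually.of_forall fun y => ?_)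
    rw [norm_div, norm_norm, Real.norm_eq_abs]
    exact hpt y
  refine ⟨hint, ?_⟩
  have hintabs : Integrable (fun y => |g y| / ‖x - y‖) := by
    have h := hint.abs
    refine h.congr (Filter.Eventually.of_forall fun y => ?_)
    show |g y / ‖x - y‖| = |g y| / ‖x - y‖
    rw [abs_div, abs_of_nonneg (norm_nonneg (x - y))]
  calc ∫ y, |g y| / ‖x - y‖ ≤ ∫ y, (3/5 * |g y| ^ (5/3 : ℝ) + 2/5 * K (x - y) + |g y|) :=
        integral_mono hintabs hH hpt
    _ = (∫ y, (3/5 * |g y| ^ (5/3 : ℝ) + 2/5 * K (x - y))) + ∫ y, |g y| :=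
        integral_add hH1 h1.abs
    _ = (∫ y, 3/5 * |g y| ^ (5/3 : ℝ)) + (∫ y, 2/5 * K (x - y)) + ∫ y, |g y| := by
        rw [integral_add (h53.const_mul (3/5)) (hKx.const_mul (2/5))]
    _ = 3/5 * (∫ y, |g y| ^ (5/3 : ℝ)) + 2/5 * (∫ u, K u) + ∫ y, |g y| := by
        rw [integral_const_mul, integral_const_mul, integral_sub_left_eq_self (fun u => K u) volume x]
end


/-! ### coulomb_pd -/
section
-- ===== given lemmas (leave as they are, do not prove) =====


-- ===== TARGET =====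

theorem cpd_gpos (b : ℝ) (hb : 0 < b) : 0 < ∫ v : E3, Real.exp (-b * ‖v‖^2) := by
  rw [GaussianFourier.integral_rexp_neg_mul_sq_norm hb]
  positivity

theorem cpd_gint (b : ℝ) (hb : 0 < b) :
    Integrable (fun v : E3 => Real.exp (-b * ‖v‖^2)) := by
  by_contra hc
  have := cpd_gpos b hb
  rw [integral_undef hc] at this
  exact lt_irrefl _ this

theorem cpd_par (τ : ℝ) (x y w : E3) :
    Real.exp (-(2*τ) * ‖x - w‖^2) * Real.exp (-(2*τ) * ‖y - w‖^2)
      = Real.exp (-τ * ‖x - y‖^2) * Real.exp (-(4*τ) * ‖w - (1/2 : ℝ) • (x + y)‖^2) := by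
  have h := parallelogram_law_with_norm ℝ (x - w) (y - w)
  have h1 : (x - w) + (y - w) = -((2:ℝ) • (w - (1/2 : ℝ) • (x + y))) := by
    module
  have h2 : (x - w) - (y - w) = x - y := by abel
  rw [h1, h2, norm_neg, norm_smul] at h
  rw [← Real.exp_add, ← Real.exp_add]
  congr 1
  have h3 : ‖(2:ℝ)‖ = 2 := by norm_num
  rw [h3] at h
  linear_combination τ * h

theorem cpd_gauss (h : E3 → ℝ) (hm : Measurable h) (hi : Integrable h) (τ : ℝ)
    (hτ : 0 < τ) :
    0 ≤ ∫ p : E3 × E3, h p.1 * h p.2 * Real.exp (-τ * ‖p.1 - p.2‖^2)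
      ∂((volume : Measure E3).prod (volume : Measure E3)) := by
  obtain ⟨G, hG⟩ : ∃ G : ℝ, G = ∫ v : E3, Real.exp (-(4*τ) * ‖v‖^2) := ⟨_, rfl⟩
  have hGpos : 0 < G := hG ▸ cpd_gpos (4*τ) (by positivity)
  have hGint := cpd_gint (4*τ) (by positivity)
  have hfun : ∀ p : E3 × E3, (fun w : E3 => (h p.1 * Real.exp (-(2*τ) * ‖p.1 - w‖^2))
      * (h p.2 * Real.exp (-(2*τ) * ‖p.2 - w‖^2)))
      = fun w => (h p.1 * h p.2 * Real.exp (-τ * ‖p.1 - p.2‖^2))
        * Real.exp (-(4*τ) * ‖w - (1/2 : ℝ) • (p.1 + p.2)‖^2) := by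
    intro p
    funext w
    have := cpd_par τ p.1 p.2 w
    linear_combination (h p.1 * h p.2) * this
  have hshift : ∀ c : E3, ∫ w : E3, Real.exp (-(4*τ) * ‖w - c‖^2) = G := by
    intro c
    rw [hG]
    exact integral_sub_right_eq_self (fun v : E3 => Real.exp (-(4*τ) * ‖v‖^2)) c
  have hshifti : ∀ c : E3, Integrable (fun w : E3 => Real.exp (-(4*τ) * ‖w - c‖^2)) := by
    intro c
    exact hGint.comp_sub_right c
  have hinner : ∀ p : E3 × E3, ∫ w : E3, (h p.1 * Real.exp (-(2*τ) * ‖p.1 - w‖^2))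
      * (h p.2 * Real.exp (-(2*τ) * ‖p.2 - w‖^2))
      = h p.1 * h p.2 * Real.exp (-τ * ‖p.1 - p.2‖^2) * G := by
    intro p
    rw [hfun p, integral_const_mul, hshift]
  have hm1 : Measurable (fun q : (E3 × E3) × E3 => h q.1.1) :=
    hm.comp (measurable_fst.comp measurable_fst)
  have hm2 : Measurable (fun q : (E3 × E3) × E3 => h q.1.2) :=
    hm.comp (measurable_snd.comp measurable_fst)
  have hm3 : Measurable (fun q : (E3 × E3) × E3 => Real.exp (-(2*τ) * ‖q.1.1 - q.2‖^2)) := by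
    fun_prop
  have hm4 : Measurable (fun q : (E3 × E3) × E3 => Real.exp (-(2*τ) * ‖q.1.2 - q.2‖^2)) := by
    fun_prop
  have hΦm : Measurable (fun q : (E3 × E3) × E3 =>
      (h q.1.1 * Real.exp (-(2*τ) * ‖q.1.1 - q.2‖^2))
      * (h q.1.2 * Real.exp (-(2*τ) * ‖q.1.2 - q.2‖^2))) := (hm1.mul hm3).mul (hm2.mul hm4)
  have hΦi : Integrable (fun q : (E3 × E3) × E3 =>
      (h q.1.1 * Real.exp (-(2*τ) * ‖q.1.1 - q.2‖^2))
      * (h q.1.2 * Real.exp (-(2*τ) * ‖q.1.2 - q.2‖^2)))
      (((volume : Measure E3).prod (volume : Measure E3)).prod (volume : Measure E3)) := by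
    rw [integrable_prod_iff hΦm.aestronglyMeasurable]
    constructor
    · filter_upwards with p
      have := hfun p
      simp only [this]
      exact (hshifti _).const_mul _
    · have hc : (fun p : E3 × E3 => ∫ w : E3, ‖(h p.1 * Real.exp (-(2*τ) * ‖p.1 - w‖^2))
          * (h p.2 * Real.exp (-(2*τ) * ‖p.2 - w‖^2))‖)
          = fun p => ‖h p.1 * h p.2‖ * (Real.exp (-τ * ‖p.1 - p.2‖^2) * G) := by
        funext p
        have h1 : (fun w : E3 => ‖(h p.1 * Real.exp (-(2*τ) * ‖p.1 - w‖^2))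
          * (h p.2 * Real.exp (-(2*τ) * ‖p.2 - w‖^2))‖)
          = fun w => (‖h p.1 * h p.2‖ * Real.exp (-τ * ‖p.1 - p.2‖^2))
            * Real.exp (-(4*τ) * ‖w - (1/2 : ℝ) • (p.1 + p.2)‖^2) := by
          funext w
          have := congrFun (hfun p) w
          rw [this, norm_mul, norm_mul, Real.norm_of_nonneg (Real.exp_pos _).le,
            Real.norm_of_nonneg (Real.exp_pos _).le]
        rw [h1, integral_const_mul, hshift]
        ring
      simp only
      rw [hc]
      have hpr : Integrable (fun p : E3 × E3 => h p.1 * h p.2)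
          ((volume : Measure E3).prod (volume : Measure E3)) := hi.mul_prod hi
      have hmm : Measurable (fun p : E3 × E3 => Real.exp (-τ * ‖p.1 - p.2‖^2) * G) := by
        fun_prop
      refine Integrable.mono' (hpr.norm.mul_const G)
        (hpr.norm.aestronglyMeasurable.mul hmm.aestronglyMeasurable) ?_
      filter_upwards with p
      rw [norm_mul, norm_norm, Real.norm_of_nonneg
        (show 0 ≤ Real.exp (-τ * ‖p.1 - p.2‖^2) * G by positivity)]
      refine mul_le_mul_of_nonneg_left ?_ (norm_nonneg _)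
      have : Real.exp (-τ * ‖p.1 - p.2‖^2) ≤ 1 := by
        rw [Real.exp_le_one_iff]
        have : 0 ≤ τ * ‖p.1 - p.2‖^2 := by positivity
        linarith
      nlinarith
  have hswap := integral_integral_swap (μ := (volume : Measure E3).prod (volume : Measure E3))
    (ν := (volume : Measure E3)) (f := fun (p : E3 × E3) (w : E3) =>
      (h p.1 * Real.exp (-(2*τ) * ‖p.1 - w‖^2)) * (h p.2 * Real.exp (-(2*τ) * ‖p.2 - w‖^2))) hΦi
  have hL : (∫ p : E3 × E3, h p.1 * h p.2 * Real.exp (-τ * ‖p.1 - p.2‖^2)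
      ∂((volume : Measure E3).prod (volume : Measure E3))) * G
      = ∫ w : E3, ∫ p : E3 × E3, (h p.1 * Real.exp (-(2*τ) * ‖p.1 - w‖^2))
        * (h p.2 * Real.exp (-(2*τ) * ‖p.2 - w‖^2))
          ∂((volume : Measure E3).prod (volume : Measure E3)) := by
    rw [← hswap, ← integral_mul_const]
    refine integral_congr_ae (Filter.Eventually.of_forall fun p => ?_)
    exact (hinner p).symm
  have hR : 0 ≤ ∫ w : E3, ∫ p : E3 × E3, (h p.1 * Real.exp (-(2*τ) * ‖p.1 - w‖^2))
        * (h p.2 * Real.exp (-(2*τ) * ‖p.2 - w‖^2))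
          ∂((volume : Measure E3).prod (volume : Measure E3)) := by
    refine integral_nonneg fun w => ?_
    have := integral_prod_mul (μ := (volume : Measure E3)) (ν := (volume : Measure E3))
      (fun x : E3 => h x * Real.exp (-(2*τ) * ‖x - w‖^2))
      (fun x : E3 => h x * Real.exp (-(2*τ) * ‖x - w‖^2))
    simp only [Pi.zero_apply]
    rw [this]
    exact mul_self_nonneg _
  rw [← hL] at hR
  exact nonneg_of_mul_nonneg_left hR hGpos

theorem cpd_diag :
    ∀ᵐ p : E3 × E3 ∂((volume : Measure E3).prod (volume : Measure E3)), p.1 ≠ p.2 := by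
  have hs : MeasurableSet {p : E3 × E3 | p.1 = p.2} :=
    measurableSet_eq_fun measurable_fst measurable_snd
  have h0 : ((volume : Measure E3).prod (volume : Measure E3)) {p : E3 × E3 | p.1 = p.2} = 0 := by
    rw [Measure.measure_prod_null hs]
    filter_upwards with x
    have : (Prod.mk x ⁻¹' {p : E3 × E3 | p.1 = p.2}) = {x} := by
      ext y
      simp [eq_comm]
    rw [this]
    simp
  rw [ae_iff]
  simpa using h0

theorem cpd_sub (r : ℝ) (hr : 0 < r) :
    ∫ t in Ioi (0:ℝ), t^((1/2:ℝ)-1) * Real.exp (-(r^2 * t)) = √Real.pi / r := by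
  rw [Real.integral_rpow_mul_exp_neg_mul_Ioi (by norm_num) (by positivity), Real.Gamma_one_half_eq,
    ← Real.sqrt_eq_rpow, Real.sqrt_div zero_le_one, Real.sqrt_one, Real.sqrt_sq hr.le]
  ring

theorem cpd_subi (r : ℝ) (hr : 0 < r) :
    IntegrableOn (fun t : ℝ => t^((1/2:ℝ)-1) * Real.exp (-(r^2 * t))) (Ioi 0) := by
  by_contra hc
  have h1 := cpd_sub r hr
  rw [integral_undef hc] at h1
  have : 0 < √Real.pi / r := by positivity
  exact absurd h1 this.ne

theorem coulomb_pd (h : E3 → ℝ) (hh : Nice h) : 0 ≤ ∫ x, ∫ y, h x * h y / ‖x - y‖ := by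
  obtain ⟨B, hB⟩ := nice_bound h hh
  obtain ⟨hm, hi, h53⟩ := hh
  have hm1 : Measurable (fun p : E3 × E3 => h p.1) := hm.comp measurable_fst
  have hm2 : Measurable (fun p : E3 × E3 => h p.2) := hm.comp measurable_snd
  have hPm : Measurable (fun p : E3 × E3 => h p.1 * h p.2 / ‖p.1 - p.2‖) :=
    (hm1.mul hm2).div (measurable_fst.sub measurable_snd).norm
  have hPi : Integrable (fun p : E3 × E3 => h p.1 * h p.2 / ‖p.1 - p.2‖)
      ((volume : Measure E3).prod (volume : Measure E3)) := by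
    rw [integrable_prod_iff hPm.aestronglyMeasurable]
    constructor
    · filter_upwards with x
      have := ((hB x).1).const_mul (h x)
      refine this.congr (Filter.Eventually.of_forall fun y => ?_)
      simp only
      ring
    · have hcongr : (fun x : E3 => ∫ y : E3, ‖h x * h y / ‖x - y‖‖)
          = fun x => |h x| * ∫ y, |h y| / ‖x - y‖ := by
        funext x
        rw [← integral_const_mul]
        refine integral_congr_ae (Filter.Eventually.of_forall fun y => ?_)
        simp only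
        rw [Real.norm_eq_abs, abs_div, abs_mul, abs_norm]
        ring
      have hmeas : AEStronglyMeasurable (fun x : E3 => ∫ y : E3, ‖h x * h y / ‖x - y‖‖) volume :=
        (hPm.aestronglyMeasurable (μ := (volume : Measure E3).prod (volume : Measure E3))).norm.integral_prod_right'
      refine Integrable.mono' (hi.abs.mul_const B) hmeas ?_
      filter_upwards with x
      have hx := congrFun hcongr x
      rw [hx, Real.norm_eq_abs, abs_mul, abs_abs,
        abs_of_nonneg (integral_nonneg fun y => by positivity)]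
      exact mul_le_mul_of_nonneg_left (hB x).2 (abs_nonneg _)
  have hiter : ∫ x, ∫ y, h x * h y / ‖x - y‖
      = ∫ p : E3 × E3, h p.1 * h p.2 / ‖p.1 - p.2‖
        ∂((volume : Measure E3).prod (volume : Measure E3)) := (integral_prod _ hPi).symm
  rw [hiter]
  have hin : ∀ p : E3 × E3, p.1 ≠ p.2 →
      ∫ t in Ioi (0:ℝ), h p.1 * h p.2 * (t^((1/2:ℝ)-1) * Real.exp (-(‖p.1 - p.2‖^2 * t)))
        = √Real.pi * (h p.1 * h p.2 / ‖p.1 - p.2‖) := by
    intro p hp
    rw [integral_const_mul, cpd_sub _ (norm_pos_iff.mpr (sub_ne_zero.mpr hp))]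
    ring
  have hΨm : Measurable (fun q : (E3 × E3) × ℝ =>
      h q.1.1 * h q.1.2 * (q.2^((1/2:ℝ)-1) * Real.exp (-(‖q.1.1 - q.1.2‖^2 * q.2)))) := by
    have a1 : Measurable (fun q : (E3 × E3) × ℝ => h q.1.1) :=
      hm.comp (measurable_fst.comp measurable_fst)
    have a2 : Measurable (fun q : (E3 × E3) × ℝ => h q.1.2) :=
      hm.comp (measurable_snd.comp measurable_fst)
    have a3 : Measurable (fun q : (E3 × E3) × ℝ => q.2^((1/2:ℝ)-1)) :=
      measurable_snd.pow_const _
    have a4 : Measurable (fun q : (E3 × E3) × ℝ => Real.exp (-(‖q.1.1 - q.1.2‖^2 * q.2))) := by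
      fun_prop
    exact (a1.mul a2).mul (a3.mul a4)
  have hΨi : Integrable (fun q : (E3 × E3) × ℝ =>
      h q.1.1 * h q.1.2 * (q.2^((1/2:ℝ)-1) * Real.exp (-(‖q.1.1 - q.1.2‖^2 * q.2))))
      (((volume : Measure E3).prod (volume : Measure E3)).prod
        ((volume : Measure ℝ).restrict (Ioi 0))) := by
    rw [integrable_prod_iff hΨm.aestronglyMeasurable]
    constructor
    · filter_upwards [cpd_diag] with p hp
      exact (cpd_subi _ (norm_pos_iff.mpr (sub_ne_zero.mpr hp))).const_mul _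
    · refine (hPi.norm.const_mul (√Real.pi)).congr ?_
      filter_upwards [cpd_diag] with p hp
      have h1 : ∫ t in Ioi (0:ℝ),
          ‖h p.1 * h p.2 * (t^((1/2:ℝ)-1) * Real.exp (-(‖p.1 - p.2‖^2 * t)))‖
          = ∫ t in Ioi (0:ℝ),
            ‖h p.1 * h p.2‖ * (t^((1/2:ℝ)-1) * Real.exp (-(‖p.1 - p.2‖^2 * t))) := by
        refine setIntegral_congr_fun measurableSet_Ioi fun t ht => ?_
        have ht' : (0:ℝ) < t := ht
        rw [norm_mul, Real.norm_of_nonneg (mul_nonneg (Real.rpow_nonneg ht'.le _) (Real.exp_pos _).le)]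
      rw [h1, integral_const_mul, cpd_sub _ (norm_pos_iff.mpr (sub_ne_zero.mpr hp)),
        norm_div, norm_norm]
      ring
  have hswap := integral_integral_swap (μ := (volume : Measure E3).prod (volume : Measure E3))
    (ν := (volume : Measure ℝ).restrict (Ioi 0)) (f := fun (p : E3 × E3) (t : ℝ) =>
      h p.1 * h p.2 * (t^((1/2:ℝ)-1) * Real.exp (-(‖p.1 - p.2‖^2 * t)))) hΨi
  have hL : √Real.pi * (∫ p : E3 × E3, h p.1 * h p.2 / ‖p.1 - p.2‖
        ∂((volume : Measure E3).prod (volume : Measure E3)))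
      = ∫ t in Ioi (0:ℝ), ∫ p : E3 × E3,
        h p.1 * h p.2 * (t^((1/2:ℝ)-1) * Real.exp (-(‖p.1 - p.2‖^2 * t)))
          ∂((volume : Measure E3).prod (volume : Measure E3)) := by
    rw [← hswap, ← integral_const_mul]
    refine integral_congr_ae ?_
    filter_upwards [cpd_diag] with p hp
    exact (hin p hp).symm
  have hR : 0 ≤ ∫ t in Ioi (0:ℝ), ∫ p : E3 × E3,
        h p.1 * h p.2 * (t^((1/2:ℝ)-1) * Real.exp (-(‖p.1 - p.2‖^2 * t)))
          ∂((volume : Measure E3).prod (volume : Measure E3)) := by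
    refine setIntegral_nonneg measurableSet_Ioi fun t ht => ?_
    have ht' : (0:ℝ) < t := ht
    have h1 : (fun p : E3 × E3 =>
        h p.1 * h p.2 * (t^((1/2:ℝ)-1) * Real.exp (-(‖p.1 - p.2‖^2 * t))))
        = fun p => t^((1/2:ℝ)-1) * (h p.1 * h p.2 * Real.exp (-t * ‖p.1 - p.2‖^2)) := by
      funext p
      rw [show -(‖p.1 - p.2‖^2 * t) = -t * ‖p.1 - p.2‖^2 by ring]
      ring
    rw [h1, integral_const_mul]
    exact mul_nonneg (Real.rpow_nonneg ht'.le _) (cpd_gauss h hm hi t ht')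
  rw [← hL] at hR
  exact nonneg_of_mul_nonneg_right hR (Real.sqrt_pos.mpr Real.pi_pos)
end


theorem pd_nice (g N : E3 → ℝ) (hg : Nice g) (hN : Nice N) : Nice (fun x => g x - N x) := by
  refine ⟨hg.1.sub hN.1, hg.2.1.sub hN.2.1, ?_⟩
  have hb : Integrable (fun x => (2:ℝ) ^ (5/3 : ℝ) * (|g x| ^ (5/3 : ℝ) + |N x| ^ (5/3 : ℝ))) :=
    (hg.2.2.add hN.2.2).const_mul _
  refine hb.mono' ?_ ?_
  · exact (((hg.1.sub hN.1).abs).pow_const _).aestronglyMeasurable
  · refine ae_of_all _ (fun x => ?_)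
    rw [Real.norm_eq_abs, abs_of_nonneg (by positivity)]
    have h1 : |g x - N x| ≤ 2 * max |g x| |N x| := by
      have := abs_sub (g x) (N x)
      have h2 := le_max_left |g x| |N x|
      have h3 := le_max_right |g x| |N x|
      linarith
    have h4 : |g x - N x| ^ (5/3 : ℝ) ≤ (2 * max |g x| |N x|) ^ (5/3 : ℝ) :=
      Real.rpow_le_rpow (abs_nonneg _) h1 (by norm_num)
    rw [Real.mul_rpow (by norm_num) (le_max_of_le_left (abs_nonneg _))] at h4
    refine h4.trans ?_
    apply mul_le_mul_of_nonneg_left _ (by positivity)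
    rcases max_cases |g x| |N x| with ⟨h, _⟩ | ⟨h, _⟩
    · rw [h]
      have : 0 ≤ |N x| ^ (5/3 : ℝ) := by positivity
      linarith
    · rw [h]
      have : 0 ≤ |g x| ^ (5/3 : ℝ) := by positivity
      linarith

theorem pd_meas2 (a b : E3 → ℝ) (ha : Measurable a) (hb : Measurable b) :
    Measurable (fun p : E3 × E3 => a p.1 * b p.2 / ‖p.1 - p.2‖) := by
  have h1 : Measurable (fun p : E3 × E3 => a p.1) := ha.comp measurable_fst
  have h2 : Measurable (fun p : E3 × E3 => b p.2) := hb.comp measurable_snd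
  have h3 : Measurable (fun p : E3 × E3 => ‖p.1 - p.2‖) := (measurable_fst.sub measurable_snd).norm
  exact (h1.mul h2).div h3

theorem pd_potmeas (b : E3 → ℝ) (hb : Measurable b) : StronglyMeasurable (pot b) := by
  have h1 : Measurable (fun p : E3 × E3 => b p.2 / ‖p.1 - p.2‖) := by
    have h2 : Measurable (fun p : E3 × E3 => b p.2) := hb.comp measurable_snd
    have h3 : Measurable (fun p : E3 × E3 => ‖p.1 - p.2‖) := (measurable_fst.sub measurable_snd).norm
    exact h2.div h3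
  exact StronglyMeasurable.integral_prod_right (f := fun x y => b y / ‖x - y‖) h1.stronglyMeasurable

theorem pd_int (a b : E3 → ℝ) (ha : Nice a) (hb : Nice b) :
    Integrable (fun x => a x * pot b x) := by
  obtain ⟨B, hB⟩ := nice_bound b hb
  refine (ha.2.1.abs.mul_const B).mono' ?_ ?_
  · exact (ha.1.aestronglyMeasurable).mul (pd_potmeas b hb.1).aestronglyMeasurable
  · refine ae_of_all _ (fun x => ?_)
    rw [norm_mul, Real.norm_eq_abs, Real.norm_eq_abs]
    apply mul_le_mul_of_nonneg_left _ (abs_nonneg _)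
    have h1 : |pot b x| ≤ ∫ y, |b y / ‖x - y‖| := by
      unfold pot
      exact abs_integral_le_integral_abs
    refine h1.trans (le_trans (le_of_eq ?_) (hB x).2)
    apply integral_congr_ae
    refine ae_of_all _ (fun y => ?_)
    show |b y / ‖x - y‖| = |b y| / ‖x - y‖
    rw [abs_div, abs_of_nonneg (norm_nonneg _)]

theorem pd_inner (a b : E3 → ℝ) (x : E3) :
    ∫ y, a x * b y / ‖x - y‖ = a x * pot b x := by
  unfold pot
  rw [← integral_const_mul]
  apply integral_congr_ae
  refine ae_of_all _ (fun y => ?_)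
  show a x * b y / ‖x - y‖ = a x * (b y / ‖x - y‖)
  rw [mul_div_assoc]

theorem pd_swap (a b : E3 → ℝ) (ha : Nice a) (hb : Nice b) :
    ∫ x, a x * pot b x = ∫ x, b x * pot a x := by
  obtain ⟨B, hB⟩ := nice_bound b hb
  have hm := pd_meas2 a b ha.1 hb.1
  have hint : Integrable (Function.uncurry fun x y => a x * b y / ‖x - y‖)
      ((volume : Measure E3).prod volume) := by
    have hm' : AEStronglyMeasurable (Function.uncurry fun x y => a x * b y / ‖x - y‖)
        ((volume : Measure E3).prod volume) := hm.aestronglyMeasurable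
    rw [integrable_prod_iff hm']
    constructor
    · refine ae_of_all _ (fun x => ?_)
      have h1 := (hB x).1.const_mul (a x)
      refine h1.congr (ae_of_all _ (fun y => ?_))
      show a x * (b y / ‖x - y‖) = a x * b y / ‖x - y‖
      rw [mul_div_assoc]
    · refine (ha.2.1.abs.mul_const B).mono' ?_ ?_
      · have : StronglyMeasurable (fun x : E3 => ∫ y : E3, ‖a x * b y / ‖x - y‖‖) :=
          StronglyMeasurable.integral_prod_right (f := fun x y => ‖a x * b y / ‖x - y‖‖) hm.norm.stronglyMeasurable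
        exact this.aestronglyMeasurable
      · refine ae_of_all _ (fun x => ?_)
        have e1 : (∫ y : E3, ‖a x * b y / ‖x - y‖‖) = |a x| * ∫ y, |b y| / ‖x - y‖ := by
          rw [← integral_const_mul]
          apply integral_congr_ae
          refine ae_of_all _ (fun y => ?_)
          show ‖a x * b y / ‖x - y‖‖ = |a x| * (|b y| / ‖x - y‖)
          rw [norm_div, norm_mul, norm_norm, Real.norm_eq_abs, Real.norm_eq_abs, mul_div_assoc]
        show ‖∫ y : E3, ‖a x * b y / ‖x - y‖‖‖ ≤ |a x| * B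
        rw [e1, Real.norm_eq_abs, abs_of_nonneg]
        · exact mul_le_mul_of_nonneg_left (hB x).2 (abs_nonneg _)
        · apply mul_nonneg (abs_nonneg _)
          exact integral_nonneg (fun y => by positivity)
  have h1 := integral_integral_swap hint
  have e1 : (∫ x, ∫ y, a x * b y / ‖x - y‖) = ∫ x, a x * pot b x := by
    apply integral_congr_ae
    exact ae_of_all _ (fun x => pd_inner a b x)
  have e2 : (∫ y, ∫ x, a x * b y / ‖x - y‖) = ∫ x, b x * pot a x := by
    apply integral_congr_ae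
    refine ae_of_all _ (fun y => ?_)
    show (∫ x, a x * b y / ‖x - y‖) = b y * pot a y
    rw [← pd_inner]
    apply integral_congr_ae
    refine ae_of_all _ (fun x => ?_)
    show a x * b y / ‖x - y‖ = b y * a x / ‖y - x‖
    rw [norm_sub_rev, mul_comm (a x)]
  rw [← e1, h1, e2]

theorem pd_main (g N : E3 → ℝ) (hg : Nice g) (hN : Nice N) :
    (∫ x, g x * pot N x) - 1/2 * (∫ x, N x * pot N x) ≤ 1/2 * ∫ x, ∫ y, g x * g y / ‖x - y‖ := by
  have hh := pd_nice g N hg hN
  have hpd := coulomb_pd (fun x => g x - N x) hh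
  obtain ⟨B1, hB1⟩ := nice_bound g hg
  obtain ⟨B2, hB2⟩ := nice_bound N hN
  have hpot : ∀ x, pot (fun x => g x - N x) x = pot g x - pot N x := by
    intro x
    unfold pot
    rw [← integral_sub (hB1 x).1 (hB2 x).1]
    apply integral_congr_ae
    refine ae_of_all _ (fun y => ?_)
    show (g y - N y) / ‖x - y‖ = g y / ‖x - y‖ - N y / ‖x - y‖
    rw [sub_div]
  have e0 : (∫ x, ∫ y, (g x - N x) * (g y - N y) / ‖x - y‖)
      = ∫ x, (g x * pot g x - g x * pot N x - N x * pot g x + N x * pot N x) := by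
    apply integral_congr_ae
    refine ae_of_all _ (fun x => ?_)
    show (∫ y, (g x - N x) * (g y - N y) / ‖x - y‖) = _
    have := pd_inner (fun x => g x - N x) (fun x => g x - N x) x
    rw [this, hpot x]
    ring
  have i1 := pd_int g g hg hg
  have i2 := pd_int g N hg hN
  have i3 := pd_int N g hN hg
  have i4 := pd_int N N hN hN
  have e5 : (∫ x, (g x * pot g x - g x * pot N x - N x * pot g x + N x * pot N x))
      = (∫ x, g x * pot g x) - (∫ x, g x * pot N x) - (∫ x, N x * pot g x) + ∫ x, N x * pot N x := by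
    have j1 : Integrable (fun x => g x * pot g x - g x * pot N x) := i1.sub i2
    have j2 : Integrable (fun x => g x * pot g x - g x * pot N x - N x * pot g x) := j1.sub i3
    rw [integral_add j2 i4, integral_sub j1 i3, integral_sub i1 i2]
  have e6 := pd_swap N g hN hg
  have e7 : (∫ x, ∫ y, g x * g y / ‖x - y‖) = ∫ x, g x * pot g x := by
    apply integral_congr_ae
    exact ae_of_all _ (fun x => pd_inner g g x)
  have hpd' : 0 ≤ ∫ x, ∫ y, (g x - N x) * (g y - N y) / ‖x - y‖ := hpd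
  rw [e0, e5, e6] at hpd'
  rw [e7]
  linarith




end Pool.Agent.TH791.Cl
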