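import Mathlib

/-!
# Quantum and Thomas-Fermi energies of molecules (MP_f7be6d_mp)
-/

set_option autoImplicit false

namespace Pool.Agent.TH791.QM

open MeasureTheory
open scoped ENNReal

abbrev E3 := EuclideanSpace ℝ (Fin 3)

/-- nuclear repulsion -/
noncomputable def Unuc {k : ℕ} (z : Fin k → ℝ) (R : Fin k → E3) : ℝ :=
  ∑ i, ∑ j ∈ Finset.Ioi i, z i * z j / ‖R i - R j‖

/-- attraction of the nuclei -/
noncomputable def Vext {k : ℕ} (z : Fin k → ℝ) (R : Fin k → E3) (y : E3) : ℝ :=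
  ∑ j, z j / ‖y - R j‖

/-- electron repulsion -/
noncomputable def Wee {N : ℕ} (x : Fin N → E3) : ℝ :=
  ∑ i, ∑ j ∈ Finset.Ioi i, 1 / ‖x i - x j‖

/-- partial derivative in the coordinate `c` of particle `i` -/
noncomputable def pd {N : ℕ} (i : Fin N) (c : Fin 3) (ψ : (Fin N → E3) → ℂ) (x : Fin N → E3) : ℂ :=
  fderiv ℝ ψ x (Pi.single i (EuclideanSpace.single c (1 : ℝ)))

/-- normalised antisymmetric wave functions of `N` spin-1/2 electrons, smooth and compactly supported -/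
structure Wave (N : ℕ) (ψ : (Fin N → Fin 2) → (Fin N → E3) → ℂ) : Prop where
  smooth : ∀ σ, ContDiff ℝ ((⊤ : ℕ∞) : WithTop ℕ∞) (ψ σ)
  supp : ∀ σ, HasCompactSupport (ψ σ)
  anti : ∀ (τ : Equiv.Perm (Fin N)) (σ : Fin N → Fin 2) (x : Fin N → E3),
    ψ (σ ∘ τ) (x ∘ τ) = ((Equiv.Perm.sign τ : ℤ) : ℂ) * ψ σ x
  norm : ∑ σ, ∫ x, ‖ψ σ x‖ ^ 2 = 1

/-- the energy `⟨ψ, H_N ψ⟩` -/
noncomputable def qEnergy {N k : ℕ} (z : Fin k → ℝ) (R : Fin k → E3)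
    (ψ : (Fin N → Fin 2) → (Fin N → E3) → ℂ) : ℝ :=
  ∑ σ, ∫ x, ((∑ i, ∑ c, ‖pd i c (ψ σ) x‖ ^ 2) +
    (Wee x - ∑ i, Vext z R (x i) + Unuc z R) * ‖ψ σ x‖ ^ 2)

/-- the quantum ground state energy -/
noncomputable def EQ (N : ℕ) {k : ℕ} (z : Fin k → ℝ) (R : Fin k → E3) : EReal :=
  ⨅ ψ : {ψ : (Fin N → Fin 2) → (Fin N → E3) → ℂ // Wave N ψ}, ((qEnergy z R ψ.1 : ℝ) : EReal)

/-- admissible densities -/
structure Dens (N : ℕ) (ρ : E3 → ℝ) : Prop where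
  meas : Measurable ρ
  nonneg : ∀ x, 0 ≤ ρ x
  int : Integrable ρ
  int53 : Integrable (fun x => ρ x ^ (5 / 3 : ℝ))
  mass : ∫ x, ρ x ≤ N

/-- the Thomas-Fermi functional -/
noncomputable def tfEnergy {k : ℕ} (z : Fin k → ℝ) (R : Fin k → E3) (ρ : E3 → ℝ) : ℝ :=
  3 / 5 * (3 * Real.pi ^ 2) ^ (2 / 3 : ℝ) * (∫ x, ρ x ^ (5 / 3 : ℝ)) - (∫ x, Vext z R x * ρ x) +
    1 / 2 * (∫ x, ∫ y, ρ x * ρ y / ‖x - y‖) + Unuc z R

/-- the Thomas-Fermi energy -/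
noncomputable def ETF (N : ℕ) {k : ℕ} (z : Fin k → ℝ) (R : Fin k → E3) : EReal :=
  ⨅ ρ : {ρ : E3 → ℝ // Dens N ρ}, ((tfEnergy z R ρ.1 : ℝ) : EReal)

end Pool.Agent.TH791.QM
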