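import Pool.Agent.TH791.Ineq
import Pool.Agent.W596.MY.LatticeMain

/-!
# Choice of parameters
-/

set_option autoImplicit false

namespace Pool.Agent.TH791.Fi

open MeasureTheory Filter Topology Metric
open Pool.Agent.TH791.QM
open Pool.Agent.TH791.Iq Pool.Agent.TH791.Tl
open Pool.Agent.TH791.Wn (f df_bound)
open scoped ENNReal

lemma ballVol3 : Pool.Agent.W564.MY.ballVol 3 = 4 / 3 * Real.pi := by
  rw [Pool.Agent.W596.MY.ballVol_eq, Measure.real, EuclideanSpace.volume_ball_fin_three]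
  have := Real.pi_pos
  rw [ENNReal.toReal_mul, ENNReal.toReal_pow, ENNReal.toReal_ofReal (by norm_num),
    ENNReal.toReal_ofReal (by positivity)]
  ring

lemma kcl3 : Pool.Agent.W564.MY.Kcl 3 = 3 / 5 * (6 * Real.pi ^ 2) ^ (2 / 3 : ℝ) := by
  have hp := Real.pi_pos
  unfold Pool.Agent.W564.MY.Kcl
  rw [ballVol3]
  have h1 : (4 : ℝ) * Real.pi ^ 2 = (8 * Real.pi ^ 3) ^ (2 / 3 : ℝ) := by
    rw [show 8 * Real.pi ^ 3 = (2 * Real.pi) ^ 3 by ring, ← Real.rpow_natCast (2 * Real.pi) 3,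
      ← Real.rpow_mul (by positivity)]
    norm_num
    ring
  have h2 : ((4 : ℝ) / 3 * Real.pi) ^ (-(2 : ℝ) / (3 : ℕ)) = ((4 / 3 * Real.pi) ^ (2 / 3 : ℝ))⁻¹ := by
    rw [← Real.rpow_neg (by positivity)]
    congr 1
    push_cast
    ring
  have h3 : (6 * Real.pi ^ 2 : ℝ) = (8 * Real.pi ^ 3) / (4 / 3 * Real.pi) := by
    field_simp
    norm_num
  rw [h2, h3, Real.div_rpow (by positivity) (by positivity), ← h1]
  push_cast
  ring

/-- lattice points with small kinetic energy -/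
lemma lattice {κ : ℝ} (hκ : 0 < κ) : ∃ N₀ : ℕ, ∀ n : ℕ, N₀ ≤ n → 1 ≤ n → ∀ L : ℝ, 0 < L →
    L ^ 3 = 6 * Real.pi ^ 2 * n / κ ^ 3 → ∃ K : Finset (Fin 3 → ℤ), K.card = n ∧
      ∑ k ∈ K, ∑ c, (2 * Real.pi * k c / L) ^ 2 ≤ n * (3 / 5 * κ ^ 2 + 1 / 2) := by
  have hp := Real.pi_pos
  set P6 : ℝ := (6 * Real.pi ^ 2) ^ (2 / 3 : ℝ) with hP6
  have hP60 : 0 < P6 := Real.rpow_pos_of_pos (by positivity) _
  obtain ⟨N₀, hN₀⟩ := Pool.Agent.W596.MY.s_lattice 3 (by norm_num) 1 (by simp) 1 one_pos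
    (P6 / (6 * κ ^ 2)) (by positivity)
  refine ⟨N₀, fun n hn hn1 L hL hL3 => ?_⟩
  obtain ⟨K, hK, hv⟩ := hN₀ n hn (fun _ => 1) (fun _ => ⟨le_rfl, le_rfl⟩) n (by simp)
  refine ⟨K, hK, ?_⟩
  have hn0 : (0 : ℝ) < n := by exact_mod_cast hn1
  -- the sum for each coordinate
  have h1 : ∀ c : Fin 3, ∑ k ∈ K, (2 * Real.pi * k c) ^ 2 ≤
      (n : ℝ) ^ (2 / 3 : ℝ) * n * (1 / 5 * P6 + P6 / (6 * κ ^ 2)) := by
    intro c
    have h2 := hv (Pi.single c 1)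
    simp only [Pi.single_apply, Matrix.one_apply] at h2
    have e1 : ∀ k : Fin 3 → ℤ, ∑ j, (if j = c then (1 : ℝ) else 0) * (2 * Real.pi * k j / 1) =
        2 * Real.pi * k c := by
      intro k
      simp
    have e2 : ∑ m : Fin 3, (∑ j : Fin 3, (if j = m then (1 : ℝ) else 0) * (if j = c then 1 else 0)) ^ 2 = 1 := by
      simp
    simp_rw [e1] at h2
    rw [e2, kcl3] at h2
    simp only [Finset.prod_const_one, mul_one] at h2
    refine h2.trans (le_of_eq ?_)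
    push_cast
    rw [← hP6]
    ring
  have h2 : (n : ℝ) ^ (2 / 3 : ℝ) * P6 = κ ^ 2 * L ^ 2 := by
    have e3 : (n : ℝ) * (6 * Real.pi ^ 2) = (κ * L) ^ 3 := by
      rw [mul_pow, hL3]; field_simp
    rw [hP6, ← Real.mul_rpow hn0.le (by positivity), e3, ← Real.rpow_natCast (κ * L) 3,
      ← Real.rpow_mul (by positivity)]
    norm_num
    ring
  calc ∑ k ∈ K, ∑ c, (2 * Real.pi * k c / L) ^ 2 = (∑ c, ∑ k ∈ K, (2 * Real.pi * k c) ^ 2) / L ^ 2 := by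
        rw [Finset.sum_comm, Finset.sum_div]
        refine Finset.sum_congr rfl fun c _ => ?_
        rw [Finset.sum_div]
        refine Finset.sum_congr rfl fun k _ => ?_
        rw [div_pow]
    _ ≤ (∑ _c : Fin 3, (n : ℝ) ^ (2 / 3 : ℝ) * n * (1 / 5 * P6 + P6 / (6 * κ ^ 2))) / L ^ 2 := by
        gcongr with c
        exact h1 c
    _ = ((n : ℝ) ^ (2 / 3 : ℝ) * P6) * n * (3 / 5 + 1 / (2 * κ ^ 2)) / L ^ 2 := by
        rw [Finset.sum_const, Finset.card_univ, Fintype.card_fin, nsmul_eq_mul]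
        push_cast
        field_simp
        ring
    _ = n * (3 / 5 * κ ^ 2 + 1 / 2) := by
        rw [h2]
        field_simp

lemma arith {κ t A x P1 P2 a g B : ℝ} (hA : 0 ≤ A) (ht : t = 343 + 114 * (A + 3)) (hκ : κ = t * t)
    (h : P1 * (κ ^ 2 + a) ≤ A + 3 / 5 * κ ^ 2 + 1 / 2 + B + P2 * (2 / 5 * κ ^ 2 + g))
    (hp1 : 1 - 9 * x ≤ P1) (hp2 : P2 ≤ 1 + 63 * x) (hx : 0 ≤ x) (hxk : x * κ ^ 2 ≤ 1 / 252)
    (ha : κ / 114 ≤ a) (ha' : a ≤ κ) (hg0 : 0 ≤ g) (hg : g ≤ 2 * t + 1) (hB : B ≤ t) : False := by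
  have ht1 : 343 ≤ t := by linarith
  have htt : 343 * t ≤ κ := by rw [hκ]; exact mul_le_mul_of_nonneg_right ht1 (by linarith)
  have hκ1 : 1 ≤ κ := by linarith
  have hκκ : κ ≤ κ ^ 2 := by rw [pow_two]; exact le_mul_of_one_le_left (by linarith) hκ1
  have h1 : (1 - 9 * x) * (κ ^ 2 + a) ≤ P1 * (κ ^ 2 + a) :=
    mul_le_mul_of_nonneg_right hp1 (by linarith)
  have h2 : P2 * (2 / 5 * κ ^ 2 + g) ≤ (1 + 63 * x) * (2 / 5 * κ ^ 2 + g) :=
    mul_le_mul_of_nonneg_right hp2 (by linarith)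
  have h3 : x * a ≤ x * κ ^ 2 := mul_le_mul_of_nonneg_left (by linarith) hx
  have h4 : x * g ≤ x * κ ^ 2 := mul_le_mul_of_nonneg_left (by linarith) hx
  have e1 : (1 - 9 * x) * (κ ^ 2 + a) = κ ^ 2 + a - 9 * (x * κ ^ 2) - 9 * (x * a) := by ring
  have e2 : (1 + 63 * x) * (2 / 5 * κ ^ 2 + g) =
      2 / 5 * κ ^ 2 + g + 126 / 5 * (x * κ ^ 2) + 63 * (x * g) := by ring
  have hAt : A ≤ A * t := by
    have := mul_le_mul_of_nonneg_left (by linarith : 1 ≤ t) hA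
    linarith
  have e5 : κ = 343 * t + 114 * (A * t) + 342 * t := by
    rw [hκ]
    calc t * t = (343 + 114 * (A + 3)) * t := by rw [← ht]
      _ = _ := by ring
  linarith

lemma pow_bounds {x : ℝ} (hx : 0 ≤ x) (hx1 : x ≤ 1) :
    1 - 9 * x ≤ (1 - 3 * x) ^ 3 ∧ (1 + 3 * x) ^ 3 ≤ 1 + 63 * x := by
  have hxx : 0 ≤ x ^ 2 * (1 - x) := mul_nonneg (by positivity) (by linarith)
  have hx0 : 0 ≤ x * (1 - x) := mul_nonneg hx (by linarith)
  have e1 : (1 - 3 * x) ^ 3 = 1 - 9 * x + 27 * (x ^ 2 * (1 - x)) := by ring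
  have e2 : (1 + 3 * x) ^ 3 = 1 + 63 * x - 54 * (x * (1 - x)) - 27 * (x ^ 2 * (1 - x)) := by ring
  constructor <;> linarith

lemma s_bounds {t s : ℝ} (ht : 343 ≤ t) (hs : s = √(15 * Real.pi / 2) / t) :
    0 < s ∧ s ≤ 1 ∧ 3 / (4 * s) ≤ t ∧ t ^ 2 * s ≤ 5 * t := by
  have hp3 := Real.pi_gt_three
  have hp4 := Real.pi_lt_d2
  have ht0 : 0 < t := by linarith
  have hr1 : √(15 * Real.pi / 2) ≤ 5 := by
    rw [Real.sqrt_le_left (by norm_num)]; linarith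
  have hr2 : 4 ≤ √(15 * Real.pi / 2) := by
    apply Real.le_sqrt_of_sq_le; linarith
  have hs0 : 0 < s := by rw [hs]; positivity
  have hst : s * t = √(15 * Real.pi / 2) := by rw [hs]; field_simp
  refine ⟨hs0, ?_, ?_, ?_⟩
  · rw [hs, div_le_one ht0]; linarith
  · rw [div_le_iff₀ (by positivity)]; linarith
  · calc t ^ 2 * s = (s * t) * t := by ring
      _ ≤ 5 * t := by rw [hst]; gcongr

lemma c_bound {t s : ℝ} (hs0 : 0 < s) (hs1 : s ≤ 1) (ht0 : 0 < t) (h : t ^ 2 * s ≤ 5 * t) :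
    0 ≤ cst * (8 * Real.pi * t ^ 2 * s + 8 * Real.pi * √s) ∧
      cst * (8 * Real.pi * t ^ 2 * s + 8 * Real.pi * √s) ≤ 2 * t + 1 := by
  have hp := Real.pi_pos
  have hp3 := Real.pi_gt_three
  have hs6 : √s ≤ 1 := by rw [Real.sqrt_le_one]; exact hs1
  have e : cst * (8 * Real.pi * t ^ 2 * s + 8 * Real.pi * √s) =
      16 / (15 * Real.pi) * (t ^ 2 * s + √s) := by
    unfold cst; field_simp; ring
  rw [e]
  have h1 : 16 / (15 * Real.pi) ≤ 2 / 5 := by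
    rw [div_le_iff₀ (by positivity)]; linarith
  refine ⟨by positivity, ?_⟩
  calc 16 / (15 * Real.pi) * (t ^ 2 * s + √s) ≤ 2 / 5 * (5 * t + 1) := by gcongr
    _ ≤ 2 * t + 1 := by linarith

/-- the final numerical estimate -/
lemma numeric {t C M L s : ℝ} (hM : 0 ≤ M)
    (ht : t = 343 + 114 * (6 * C ^ 2 + M + 3)) (hs : s = √(15 * Real.pi / 2) / t)
    (hL : 252 * (t ^ 2) ^ 2 ≤ L)
    (h : (1 - 3 / L) ^ 3 * ((t ^ 2) ^ 2 + t ^ 2 / (36 * Real.pi)) ≤ 6 * C ^ 2 + 3 / 5 * (t ^ 2) ^ 2 +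
      1 / 2 + M + 3 / (4 * s) +
      (1 + 3 / L) ^ 3 * (2 / 5 * (t ^ 2) ^ 2 + cst * (8 * Real.pi * t ^ 2 * s + 8 * Real.pi * √s))) :
    False := by
  have hp := Real.pi_pos
  have hp3 := Real.pi_gt_three
  have hp4 := Real.pi_lt_d2
  have hA : 0 ≤ 6 * C ^ 2 + M := by positivity
  have ht1 : 343 ≤ t := by linarith
  have ht0 : 0 < t := by linarith
  obtain ⟨hs0, hs1, hs2, hs3⟩ := s_bounds ht1 hs
  obtain ⟨hc0, hc1⟩ := c_bound hs0 hs1 ht0 hs3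
  have hκ1 : 1 ≤ t ^ 2 := one_le_pow₀ (by linarith)
  have hκ2 : 1 ≤ (t ^ 2) ^ 2 := one_le_pow₀ hκ1
  have hκ0 : 0 < (t ^ 2) ^ 2 := by linarith
  have hLpos : 0 < L := by linarith
  have hx0 : 0 ≤ 1 / L := by positivity
  have hx1 : 1 / L ≤ 1 := by rw [div_le_one hLpos]; linarith
  obtain ⟨hp1, hp2⟩ := pow_bounds hx0 hx1
  have e3 : 3 / L = 3 * (1 / L) := by ring
  rw [e3] at h
  have hxk : 1 / L * (t ^ 2) ^ 2 ≤ 1 / 252 := by
    rw [one_div_mul_eq_div, div_le_div_iff₀ hLpos (by norm_num)]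
    linarith
  have ha : t ^ 2 / 114 ≤ t ^ 2 / (36 * Real.pi) := by
    apply div_le_div_of_nonneg_left (by positivity) (by positivity) (by linarith)
  have ha' : t ^ 2 / (36 * Real.pi) ≤ t ^ 2 := div_le_self (by positivity) (by linarith)
  exact arith (A := 6 * C ^ 2 + M) (κ := t ^ 2) hA ht (by ring) (by linarith) hp1 hp2 hx0 hxk ha ha'
    hc0 hc1 hs2

theorem main (M : ℝ) : ∃ N : ℕ, 1 ≤ N ∧ ∃ R : Fin N → E3, Function.Injective R ∧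
    EQ N (fun _ => 1) R + ((M * N : ℝ) : EReal) < ETF N (fun _ => 1) R := by
  by_contra hcon
  push Not at hcon
  obtain ⟨C, hC, hCb⟩ := df_bound
  set M' := max M 0 with hM'
  have hM0 : 0 ≤ M' := le_max_right _ _
  have hneg : ∀ N : ℕ, 1 ≤ N → ∀ R : Fin N → E3, Function.Injective R →
      ETF N (fun _ => 1) R ≤ EQ N (fun _ => 1) R + ((M' * N : ℝ) : EReal) := by
    intro N hN R hR
    refine (hcon N hN R hR).trans (add_le_add_right ?_ _)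
    rw [EReal.coe_le_coe_iff]
    gcongr
    exact le_max_left _ _
  obtain ⟨t, ht⟩ : ∃ t : ℝ, t = 343 + 114 * (6 * C ^ 2 + M' + 3) := ⟨_, rfl⟩
  have hp := Real.pi_pos
  have hp3 := Real.pi_gt_three
  have hp4 := Real.pi_lt_d2
  have ht1 : 343 ≤ t := by rw [ht]; nlinarith [sq_nonneg C]
  have ht0 : 0 < t := by linarith
  obtain ⟨κ, hκ⟩ : ∃ κ, κ = t ^ 2 := ⟨_, rfl⟩
  have hκ1 : 343 ≤ κ := by rw [hκ]; nlinarith
  have hκ0 : 0 < κ := by linarith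
  obtain ⟨s, hs⟩ : ∃ s, s = √(15 * Real.pi / 2) / t := ⟨_, rfl⟩
  have hs0 : 0 < s := by rw [hs]; positivity
  have hs2 : s ≤ 1 / 2 := by
    rw [hs, div_le_iff₀ ht0]
    have hr1 : √(15 * Real.pi / 2) ≤ 5 := by
      rw [Real.sqrt_le_left (by norm_num)]; nlinarith
    linarith
  have hssq : s ^ 2 = 15 * Real.pi / (2 * κ) := by
    rw [hs, div_pow, Real.sq_sqrt (by positivity), hκ]; field_simp
  obtain ⟨N₀, hN₀⟩ := lattice hκ0
  obtain ⟨n₁, hn₁⟩ := exists_nat_ge (κ ^ 3 * (252 * κ ^ 2) ^ 3)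
  set n := max (max N₀ n₁) 1 with hn
  have hnN₀ : N₀ ≤ n := le_trans (le_max_left _ _) (le_max_left _ _)
  have hn1 : 1 ≤ n := le_max_right _ _
  have hnn₁ : (n₁ : ℝ) ≤ n := by exact_mod_cast le_trans (le_max_right N₀ n₁) (le_max_left _ _)
  have hn0 : (0 : ℝ) < n := by exact_mod_cast hn1
  obtain ⟨L, hL⟩ : ∃ L : ℝ, L = (6 * Real.pi ^ 2 * n / κ ^ 3) ^ (1 / 3 : ℝ) := ⟨_, rfl⟩
  have hLpos : 0 < L := by rw [hL]; positivity
  have hL3 : L ^ 3 = 6 * Real.pi ^ 2 * n / κ ^ 3 := by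
    rw [hL, ← Real.rpow_natCast, ← Real.rpow_mul (by positivity)]
    norm_num
  have hLbig : 252 * κ ^ 2 ≤ L := by
    have h1 : (252 * κ ^ 2) ^ 3 ≤ L ^ 3 := by
      rw [hL3, le_div_iff₀ (by positivity)]
      have h2 : κ ^ 3 * (252 * κ ^ 2) ^ 3 ≤ n := hn₁.trans hnn₁
      have h3 : (1 : ℝ) ≤ 6 * Real.pi ^ 2 := by nlinarith
      nlinarith [mul_le_mul_of_nonneg_right h3 hn0.le]
    exact le_of_pow_le_pow_left₀ (by norm_num) hLpos.le h1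
  have hL252 : 252 ≤ L := by nlinarith
  obtain ⟨K, hKc, hKsum⟩ := hN₀ n hnN₀ hn1 L hLpos hL3
  have hKne : K.Nonempty := by rw [← Finset.card_pos]; omega
  have hdens : ((2 * n : ℕ) : ℝ) * (L ^ 3)⁻¹ = κ ^ 3 / (3 * Real.pi ^ 2) := by
    rw [hL3]; push_cast; field_simp; ring
  have hK2 : ∑ k ∈ K, ∑ c, (2 * Real.pi * k c / L) ^ 2 ≤ κ ^ 2 * K.card := by
    rw [hKc]
    refine hKsum.trans ?_
    have : 3 / 5 * κ ^ 2 + 1 / 2 ≤ κ ^ 2 := by nlinarith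
    nlinarith
  set n0 : ℝ := κ ^ 3 / (3 * Real.pi ^ 2) with hn0def
  have hn0pos : 0 < n0 := by positivity
  have hI1 : 2 * Real.pi * s ^ 2 / 5 = 3 * Real.pi ^ 2 / κ := by
    rw [hssq]; field_simp; ring
  have hcore := core_ineq (M := M') (s := s) (κ := κ) (w := κ) (v := n0 * (4 * Real.pi * s))
    (q := n0 * (8 * Real.pi * √s)) (by linarith : 3 ≤ L) (by linarith) hs0 hs2 hM0 (hCb L) hKne
    (N := 2 * n) (by rw [hKc]) hK2 hκ0 (by positivity) (by positivity)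
    (by rw [hdens, hI1, hn0def]; exact le_of_eq (by field_simp)) (by rw [hdens]) (by rw [hdens])
    (hneg (2 * n) (by omega))
  rw [hKc, hI1] at hcore
  -- divide by `n0 L³`
  have hN : ((2 * n : ℕ) : ℝ) = n0 * L ^ 3 := by
    have : L ^ 3 ≠ 0 := by positivity
    rw [← hdens]; field_simp
  have hnn : (n : ℝ) = n0 * L ^ 3 / 2 := by rw [← hN]; push_cast; ring
  have hT : 12 * C ^ 2 * n + 2 * ∑ k ∈ K, ∑ c, (2 * Real.pi * k c / L) ^ 2 ≤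
      (n0 * L ^ 3) * (6 * C ^ 2 + 3 / 5 * κ ^ 2 + 1 / 2) := by
    calc _ ≤ 12 * C ^ 2 * n + 2 * (n * (3 / 5 * κ ^ 2 + 1 / 2)) := by gcongr
      _ = (n0 * L ^ 3) * (6 * C ^ 2 + 3 / 5 * κ ^ 2 + 1 / 2) := by rw [hnn]; ring
  have h5 := hcore.trans (add_le_add (add_le_add hT le_rfl) le_rfl)
  rw [hN] at h5
  have h6 : (1 - 3 / L) ^ 3 * (κ ^ 2 + κ / (36 * Real.pi)) ≤ 6 * C ^ 2 + 3 / 5 * κ ^ 2 + 1 / 2 + M' +
      3 / (4 * s) + (1 + 3 / L) ^ 3 * (2 / 5 * κ ^ 2 + cst * (8 * Real.pi * κ * s + 8 * Real.pi * √s)) := by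
    have e1 : (n0 * L ^ 3) ^ 2 * ((L ^ 3)⁻¹ ^ 2 * (L - 3) ^ 3) *
        (3 * Real.pi ^ 2 / κ + Real.pi / 12 * (κ ^ 2)⁻¹) =
        (n0 * L ^ 3) * ((1 - 3 / L) ^ 3 * (κ ^ 2 + κ / (36 * Real.pi))) := by
      rw [hn0def]
      field_simp
      ring
    have e2 : cst * ((L + 3) ^ 3 * (κ ^ 5 + 2 * κ * (n0 * (4 * Real.pi * s)) + n0 * (8 * Real.pi * √s))) =
        (n0 * L ^ 3) * ((1 + 3 / L) ^ 3 * (2 / 5 * κ ^ 2 +
          cst * (8 * Real.pi * κ * s + 8 * Real.pi * √s))) := by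
      have e3 : cst * κ ^ 5 = n0 * (2 / 5 * κ ^ 2) := by
        rw [hn0def]; unfold cst; field_simp; ring
      have e4 : (L + 3) ^ 3 = L ^ 3 * (1 + 3 / L) ^ 3 := by field_simp
      rw [e4]
      linear_combination (L ^ 3 * (1 + 3 / L) ^ 3) * e3
    rw [e1, e2] at h5
    have hpos : 0 < n0 * L ^ 3 := by positivity
    refine le_of_mul_le_mul_left ?_ hpos
    linarith
  rw [hκ] at h6 hLbig
  exact numeric hM0 ht hs hLbig h6

end Pool.Agent.TH791.Fi
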