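import Pool.Agent.TH791.TrialQ

/-!
# Energy of the Slater determinant of windowed plane waves, conclusion
-/

set_option autoImplicit false

namespace Pool.Agent.TH791.Tq

open MeasureTheory Filter Topology
open Pool.Agent.TH791.QM Pool.Agent.TH791.Sl Pool.Agent.TH791.Sp Pool.Agent.TH791.Tr
open Pool.Agent.TH791.Ob hiding E3
open Pool.Agent.TH791.Wn Pool.Agent.TH791.Tp
open scoped ENNReal ComplexConjugate

/-- potential of the density -/
noncomputable def Ap (L : ℝ) (R : E3) : ℝ := ∫ x, p3 L x / ‖x - R‖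

lemma Ap_int {L : ℝ} (hL : 0 ≤ L) (R : E3) : Integrable fun x => p3 L x / ‖x - R‖ := by
  obtain ⟨B, hB⟩ := Cl.nice_bound _ (p3_nice L hL)
  refine (hB R).1.congr (Eventually.of_forall fun y => ?_)
  simp only
  rw [norm_sub_rev]

variable {n m : ℕ} {L κ : ℝ} (hL : 1 ≤ L) (hκ : 0 < κ) {K : Finset (Fin 3 → ℤ)}
    (hK : ∑ k ∈ K, ∑ c, (2 * Real.pi * k c / L) ^ 2 ≤ κ ^ 2 * K.card) (e : Fin (n + 2) ≃ K × Spin)
    (R : Fin m → E3)

lemma Vext_one (y : E3) : Vext (fun _ => 1) R y = ∑ j, 1 / ‖y - R j‖ := rfl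

lemma Vext_meas : Measurable (Vext (fun _ => 1) R) := by
  unfold Vext
  exact Finset.measurable_fun_sum _ fun j _ =>
    measurable_const.div (measurable_id.sub measurable_const).norm

lemma Vext_nonneg (y : E3) : 0 ≤ Vext (fun _ => 1) R y :=
  Finset.sum_nonneg fun j _ => by positivity

include hL in
lemma Vext_int : Integrable (fun x => Vext (fun _ => 1) R x * p3 L x) ∧
    ∫ x, Vext (fun _ => 1) R x * p3 L x = ∑ j, Ap L (R j) := by
  have hL0 : 0 ≤ L := by linarith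
  have h : ∀ x, Vext (fun _ => 1) R x * p3 L x = ∑ j, p3 L x / ‖x - R j‖ := by
    intro x
    rw [Vext_one, Finset.sum_mul]
    refine Finset.sum_congr rfl fun j _ => ?_
    ring
  simp_rw [h]
  exact ⟨integrable_finsetSum _ fun j _ => Ap_int hL0 (R j),
    integral_finsetSum _ fun j _ => Ap_int hL0 (R j)⟩

include hL in
lemma one_val : ∑ a, ∫⁻ q, ENNReal.ofReal (Vext (fun _ => 1) R q.1) *
    ENNReal.ofReal (‖ob L K e a q‖ ^ 2) = ENNReal.ofReal ((n + 2 : ℕ) * ∑ j, Ap L (R j)) := by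
  have hL0 : 0 ≤ L := by linarith
  have h1 : ∀ a, ∫⁻ q, ENNReal.ofReal (Vext (fun _ => 1) R q.1) *
      ENNReal.ofReal (‖ob L K e a q‖ ^ 2) = ENNReal.ofReal (∑ j, Ap L (R j)) := by
    intro a
    have hm : Measurable fun q : X => ENNReal.ofReal (Vext (fun _ => 1) R q.1) *
        ENNReal.ofReal (‖ob L K e a q‖ ^ 2) :=
      ((Vext_meas R).comp measurable_fst).ennreal_ofReal.mul
        (((ob_SO L K e a).meas.norm.pow_const 2).ennreal_ofReal)
    rw [lint_pair hm, Finset.sum_eq_single (e a).2]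
    · rw [← (Vext_int hL R).2, ofReal_integral_eq_lintegral_ofReal (Vext_int hL R).1
        (Eventually.of_forall fun x => mul_nonneg (Vext_nonneg R x) (p3_nonneg hL0 x))]
      refine lintegral_congr fun x => ?_
      rw [ENNReal.ofReal_mul (Vext_nonneg R x)]
      unfold ob so
      simp only [if_true]
      rw [o3_norm hL]
    · intro r _ hr
      unfold ob so
      simp [hr]
    · intro h; exact absurd (Finset.mem_univ _) h
  simp_rw [h1]
  rw [Finset.sum_const, Finset.card_univ, Fintype.card_fin, nsmul_eq_mul,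
    ENNReal.ofReal_mul (by positivity), ENNReal.ofReal_natCast]

lemma Wee_eq {N : ℕ} (x : Fin N → E3) : Wee x = 1 / 2 * ∑ i, ∑ j, 1 / ‖x i - x j‖ := by
  unfold Wee
  refine sum_lt (fun i j => 1 / ‖x i - x j‖) (fun i j => ?_) fun i => ?_
  · rw [norm_sub_rev]
  · simp

lemma Ap_nonneg {L : ℝ} (hL : 0 ≤ L) (R : E3) : 0 ≤ Ap L R :=
  integral_nonneg fun x => div_nonneg (p3_nonneg hL x) (norm_nonneg _)

include hL hκ hK in
theorem trial_aux {C : ℝ} (hC : ∀ t : ℝ, |deriv (f L) t| ≤ C) :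
    Wave (n + 2) (wv (ob L K e)) ∧ ∃ EE T : ℝ, 0 ≤ EE ∧
      T ≤ 12 * C ^ 2 * K.card + 2 * ∑ k ∈ K, ∑ c, (2 * Real.pi * k c / L) ^ 2 ∧
      ENNReal.ofReal (2 * EE) + 2 * (ENNReal.ofReal ((K.card : ℝ) ^ 2 / 4) * X0 L κ) ≤
        4 * (ENNReal.ofReal ((K.card : ℝ) ^ 2) * D0 L) ∧
      ∀ (m : ℕ) (R : Fin m → E3), qEnergy (fun _ => 1) R (wv (ob L K e)) =
        T + EE - (n + 2 : ℕ) * (∑ j, Ap L (R j)) + Unuc (fun _ => 1) R := by
  have hL0 : 0 ≤ L := by linarith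
  have hSO := ob_SO L K e
  have ho := ob_orth L K e hL
  have hW := wv_wave hSO ho
  refine ⟨hW, ?_⟩
  have hp := pair_int hL hκ hK e
  have hfin : (4 * (ENNReal.ofReal ((K.card : ℝ) ^ 2) * D0 L)) ≠ ∞ :=
    ENNReal.mul_ne_top (by simp) (ENNReal.mul_ne_top ENNReal.ofReal_ne_top (D0_fin hL))
  have hwm : Measurable fun p : E3 × E3 => 1 / ‖p.1 - p.2‖ :=
    measurable_const.div (measurable_fst.sub measurable_snd).norm
  obtain ⟨h1, h2⟩ := two_eq hSO ho (w := fun x y => 1 / ‖x - y‖) hwm (fun x y => by positivity)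
    (fun x => by simp) (ne_top_of_le_ne_top hfin (le_trans le_self_add hp))
  obtain ⟨h3, h4⟩ := kin_eq hSO ho
  set EE : ℝ := 1 / 2 * ∑ σ, ∫ x, (∑ i, ∑ j, 1 / ‖x i - x j‖) * ‖wv (ob L K e) σ x‖ ^ 2 with hEE
  have hEE0 : 0 ≤ EE := by
    rw [hEE]
    refine mul_nonneg (by norm_num) (Finset.sum_nonneg fun σ _ => integral_nonneg fun x => ?_)
    exact mul_nonneg (Finset.sum_nonneg fun i _ => Finset.sum_nonneg fun j _ => by positivity)
      (by positivity)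
  refine ⟨EE, kin (ob L K e), hEE0, ob_kin L K e hL hC, ?_, fun m R => ?_⟩
  · have : 2 * EE = ∑ σ, ∫ x, (∑ i, ∑ j, 1 / ‖x i - x j‖) * ‖wv (ob L K e) σ x‖ ^ 2 := by
      rw [hEE]; ring
    rw [this, h2]
    exact hp
  · have hf := one_val (K := K) hL e R
    obtain ⟨h5, h6⟩ := one_eq hSO ho (Vext_meas R) (Vext_nonneg R) (by rw [hf]; exact ENNReal.ofReal_ne_top)
    rw [hf] at h6
    have h7 : ∑ σ, ∫ x, (∑ i, Vext (fun _ => 1) R (x i)) * ‖wv (ob L K e) σ x‖ ^ 2 =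
        (n + 2 : ℕ) * ∑ j, Ap L (R j) := by
      refine (ENNReal.ofReal_eq_ofReal_iff ?_ ?_).1 h6
      · exact Finset.sum_nonneg fun σ _ => integral_nonneg fun x =>
          mul_nonneg (Finset.sum_nonneg fun i _ => Vext_nonneg R _) (by positivity)
      · exact mul_nonneg (by positivity) (Finset.sum_nonneg fun j _ => Ap_nonneg hL0 _)
    have h8 : ∀ σ, Integrable fun x => ‖wv (ob L K e) σ x‖ ^ 2 := by
      intro σ
      have hc : Continuous fun x => ‖wv (ob L K e) σ x‖ ^ 2 := (hW.smooth σ).continuous.norm.pow 2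
      refine hc.integrable_of_hasCompactSupport ?_
      exact (hW.supp σ).comp_left (g := fun z : ℂ => ‖z‖ ^ 2) (by simp)
    have h9 : ∀ σ, Integrable fun x => Wee x * ‖wv (ob L K e) σ x‖ ^ 2 := by
      intro σ
      refine ((h1 σ).const_mul (1 / 2)).congr (Eventually.of_forall fun x => ?_)
      simp only
      rw [Wee_eq]; ring
    have h10 : ∀ σ, ∫ x, ((∑ i, ∑ c, ‖pd i c (wv (ob L K e) σ) x‖ ^ 2) +
        (Wee x - ∑ i, Vext (fun _ => 1) R (x i) + Unuc (fun _ => 1) R) * ‖wv (ob L K e) σ x‖ ^ 2) =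
        (∫ x, (∑ i, ∑ c, ‖pd i c (wv (ob L K e) σ) x‖ ^ 2)) +
          (∫ x, Wee x * ‖wv (ob L K e) σ x‖ ^ 2) -
          (∫ x, (∑ i, Vext (fun _ => 1) R (x i)) * ‖wv (ob L K e) σ x‖ ^ 2) +
          Unuc (fun _ => 1) R * ∫ x, ‖wv (ob L K e) σ x‖ ^ 2 := by
      intro σ
      have e1 : ∀ x, ((∑ i, ∑ c, ‖pd i c (wv (ob L K e) σ) x‖ ^ 2) +
        (Wee x - ∑ i, Vext (fun _ => 1) R (x i) + Unuc (fun _ => 1) R) * ‖wv (ob L K e) σ x‖ ^ 2) =
        (((∑ i, ∑ c, ‖pd i c (wv (ob L K e) σ) x‖ ^ 2) + Wee x * ‖wv (ob L K e) σ x‖ ^ 2) -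
          (∑ i, Vext (fun _ => 1) R (x i)) * ‖wv (ob L K e) σ x‖ ^ 2) +
          Unuc (fun _ => 1) R * ‖wv (ob L K e) σ x‖ ^ 2 := by
        intro x; ring
      have i1 : Integrable fun x => (∑ i, ∑ c, ‖pd i c (wv (ob L K e) σ) x‖ ^ 2) +
          Wee x * ‖wv (ob L K e) σ x‖ ^ 2 := (h3 σ).add (h9 σ)
      have i2 : Integrable fun x => ((∑ i, ∑ c, ‖pd i c (wv (ob L K e) σ) x‖ ^ 2) +
          Wee x * ‖wv (ob L K e) σ x‖ ^ 2) -
          (∑ i, Vext (fun _ => 1) R (x i)) * ‖wv (ob L K e) σ x‖ ^ 2 := i1.sub (h5 σ)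
      simp_rw [e1]
      rw [integral_add i2 ((h8 σ).const_mul _),
        integral_sub i1 (h5 σ), integral_add (h3 σ) (h9 σ), integral_const_mul]
    unfold qEnergy
    simp_rw [h10]
    rw [Finset.sum_add_distrib, Finset.sum_sub_distrib, Finset.sum_add_distrib, h4, h7,
      ← Finset.mul_sum, hW.norm, mul_one]
    congr 2
    congr 1
    rw [hEE, Finset.mul_sum]
    refine Finset.sum_congr rfl fun σ _ => ?_
    rw [← integral_const_mul]
    refine integral_congr_ae (Eventually.of_forall fun x => ?_)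
    simp only
    rw [Wee_eq]; ring

theorem trial_main {L κ C : ℝ} (hL : 1 ≤ L) (hκ : 0 < κ) (hC : ∀ t : ℝ, |deriv (f L) t| ≤ C)
    {K : Finset (Fin 3 → ℤ)} (hKne : K.Nonempty)
    (hK : ∑ k ∈ K, ∑ c, (2 * Real.pi * k c / L) ^ 2 ≤ κ ^ 2 * K.card) :
    ∃ ψ, Wave (2 * K.card) ψ ∧ ∃ EE T : ℝ, 0 ≤ EE ∧
      T ≤ 12 * C ^ 2 * K.card + 2 * ∑ k ∈ K, ∑ c, (2 * Real.pi * k c / L) ^ 2 ∧
      ENNReal.ofReal (2 * EE) + 2 * (ENNReal.ofReal ((K.card : ℝ) ^ 2 / 4) * X0 L κ) ≤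
        4 * (ENNReal.ofReal ((K.card : ℝ) ^ 2) * D0 L) ∧
      ∀ (m : ℕ) (R : Fin m → E3), qEnergy (fun _ => 1) R ψ =
        T + EE - (2 * K.card : ℕ) * (∑ j, Ap L (R j)) + Unuc (fun _ => 1) R := by
  have hc : 0 < K.card := hKne.card_pos
  obtain ⟨n, hn⟩ : ∃ n, 2 * K.card = n + 2 := ⟨2 * K.card - 2, by omega⟩
  have hcard : Fintype.card (K × Spin) = n + 2 := by
    rw [Fintype.card_prod, Fintype.card_coe]
    have : Fintype.card Spin = 2 := rfl
    rw [this]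
    omega
  have e : Fin (n + 2) ≃ K × Spin := (Fintype.equivFinOfCardEq hcard).symm
  obtain ⟨h1, EE, T, h2, h3, h4, h5⟩ := trial_aux hL hκ hK e hC
  rw [hn]
  exact ⟨_, h1, EE, T, h2, h3, h4, h5⟩

end Pool.Agent.TH791.Tq
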