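import Pool.Agent.TH791.TFlow
import Pool.Agent.TH791.TrialR

/-!
# Integrals of the short range part, lower bounds for double integrals
-/

set_option autoImplicit false

namespace Pool.Agent.TH791.Ge

open MeasureTheory Filter Topology Metric
open Pool.Agent.TH791.QM
open Pool.Agent.TH791.Nw Pool.Agent.TH791.Tl Pool.Agent.TH791.Tq
open Pool.Agent.TH791.Ob (p3 box p3_mid p3_le p3_nonneg p3_zero box_meas box_vol)
open scoped ENNReal

lemma radial {s : ℝ} {h : ℝ → ℝ} (hi : IntegrableOn (fun y => y ^ 2 * h y) (Set.Ioo 0 s)) :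
    Integrable (fun u : E3 => if ‖u‖ < s then h ‖u‖ else 0) ∧
      ∫ u : E3, (if ‖u‖ < s then h ‖u‖ else 0) = 4 * Real.pi * ∫ y in Set.Ioo 0 s, y ^ 2 * h y := by
  have hfun : ∀ y : ℝ, y ^ (Module.finrank ℝ E3 - 1) • (if y < s then h y else 0) =
      (Set.Iio s).indicator (fun y => y ^ 2 * h y) y := by
    intro y
    have : Module.finrank ℝ E3 = 3 := by simp
    rw [this]
    by_cases hy : y < s
    · rw [Set.indicator_of_mem (show y ∈ Set.Iio s from hy), if_pos hy]; simp
    · rw [Set.indicator_of_notMem (show y ∉ Set.Iio s from hy), if_neg hy]; simp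
  have hsub : Set.Ioi (0:ℝ) ∩ Set.Iio s = Set.Ioo 0 s := by ext; simp
  constructor
  · rw [integrable_fun_norm_addHaar (μ := (volume : Measure E3)) (f := fun y => if y < s then h y else 0)]
    simp only [hfun]
    rw [integrableOn_indicator_iff measurableSet_Iio, Set.inter_comm, hsub]
    exact hi
  · rw [integral_fun_norm_addHaar (volume : Measure E3) (fun y => if y < s then h y else 0)]
    simp only [hfun]
    rw [setIntegral_indicator measurableSet_Iio, hsub]
    have h1 : (volume : Measure E3).real (ball 0 1) = 4 / 3 * Real.pi := by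
      rw [Measure.real, EuclideanSpace.volume_ball_fin_three]
      have := Real.pi_pos
      rw [ENNReal.toReal_mul, ENNReal.toReal_pow, ENNReal.toReal_ofReal (by norm_num),
        ENNReal.toReal_ofReal (by positivity)]
      ring
    rw [h1]
    simp
    ring

lemma ae_ne_zero : ∀ᵐ u : E3, 0 < ‖u‖ := by
  filter_upwards [Measure.ae_ne (volume : Measure E3) (0 : E3)] with u hu
  exact norm_pos_iff.2 hu

/-- the integral of the short range potential -/
lemma I1 {s : ℝ} (hs : 0 < s) : ∫⁻ u, Ye s u = ENNReal.ofReal (2 * Real.pi * s ^ 2 / 5) := by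
  have hcont : Continuous fun y : ℝ => y - 3 / (2 * s) * y ^ 2 + y ^ 4 / (2 * s ^ 3) := by fun_prop
  have hi0 : IntegrableOn (fun y : ℝ => y - 3 / (2 * s) * y ^ 2 + y ^ 4 / (2 * s ^ 3)) (Set.Ioo 0 s) :=
    (hcont.integrableOn_Icc (a := 0) (b := s)).mono_set Set.Ioo_subset_Icc_self
  have heq : ∀ y ∈ Set.Ioo 0 s, y - 3 / (2 * s) * y ^ 2 + y ^ 4 / (2 * s ^ 3) = y ^ 2 * Yf s y := by
    intro y hy
    rw [Yf_eq hs hy.1 hy.2]
    have := hy.1
    field_simp
    ring
  obtain ⟨h1, h2⟩ := radial (s := s) (h := Yf s) (hi0.congr_fun heq measurableSet_Ioo)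
  have h3 : ∀ u : E3, (if ‖u‖ < s then Yf s ‖u‖ else 0) = Yf s ‖u‖ := by
    intro u
    split_ifs with h
    · rfl
    · rw [Yf_zero (not_lt.1 h)]
  simp_rw [h3] at h1 h2
  unfold Ye
  rw [← ofReal_integral_eq_lintegral_ofReal h1 (by
    filter_upwards [ae_ne_zero] with u hu using Yf_nonneg hs hu), h2]
  congr 1
  rw [← setIntegral_congr_fun measurableSet_Ioo heq, ← integral_Ioc_eq_integral_Ioo,
    ← intervalIntegral.integral_of_le hs.le]
  have : ∫ y in (0:ℝ)..s, (y - 3 / (2 * s) * y ^ 2 + y ^ 4 / (2 * s ^ 3)) = s ^ 2 / 10 := by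
    rw [intervalIntegral.integral_add, intervalIntegral.integral_sub, integral_id,
      intervalIntegral.integral_const_mul, integral_pow, intervalIntegral.integral_div, integral_pow]
    · field_simp
      norm_num
      ring
    all_goals exact Continuous.intervalIntegrable (by fun_prop) _ _
  rw [this]
  ring

lemma Ye_le {s : ℝ} (hs : 0 < s) (u : E3) : Ye s u ≤ if ‖u‖ < s then ENNReal.ofReal (1 / ‖u‖) else 0 := by
  unfold Ye
  split_ifs with h
  · exact ENNReal.ofReal_le_ofReal (Yf_le hs (norm_nonneg _))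
  · rw [Yf_zero (not_lt.1 h)]; simp

lemma I2 {s : ℝ} (hs : 0 < s) : ∫⁻ u, Ye s u ^ 2 ≤ ENNReal.ofReal (4 * Real.pi * s) := by
  have heq : ∀ y ∈ Set.Ioo 0 s, (1 : ℝ) = y ^ 2 * (1 / y ^ 2) := by
    intro y hy
    have := hy.1
    field_simp
  have hi0 : IntegrableOn (fun _ : ℝ => (1 : ℝ)) (Set.Ioo 0 s) := integrableOn_const (by simp)
  obtain ⟨h1, h2⟩ := radial (s := s) (h := fun y => 1 / y ^ 2) (hi0.congr_fun heq measurableSet_Ioo)
  calc ∫⁻ u, Ye s u ^ 2 ≤ ∫⁻ u : E3, ENNReal.ofReal (if ‖u‖ < s then 1 / ‖u‖ ^ 2 else 0) := by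
        refine lintegral_mono fun u => ?_
        simp only
        refine (pow_le_pow_left' (Ye_le hs u) 2).trans ?_
        split_ifs
        · rw [← ENNReal.ofReal_pow (by positivity)]
          refine ENNReal.ofReal_le_ofReal (le_of_eq ?_)
          ring
        · simp
    _ = ENNReal.ofReal (4 * Real.pi * s) := by
        rw [← ofReal_integral_eq_lintegral_ofReal h1 (Eventually.of_forall fun u => by positivity), h2,
          ← setIntegral_congr_fun measurableSet_Ioo heq]
        simp [hs.le]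

lemma I3 {s : ℝ} (hs : 0 < s) : ∫⁻ u, Ye s u ^ (5 / 2 : ℝ) ≤ ENNReal.ofReal (8 * Real.pi * √s) := by
  have heq : ∀ y ∈ Set.Ioo 0 s, y ^ (-(1 / 2) : ℝ) = y ^ 2 * (y ^ (-(5 / 2) : ℝ)) := by
    intro y hy
    have := hy.1
    rw [← Real.rpow_natCast y 2, ← Real.rpow_add hy.1]
    norm_num
  have hi0 : IntegrableOn (fun y : ℝ => y ^ (-(1 / 2) : ℝ)) (Set.Ioo 0 s) :=
    (intervalIntegral.integrableOn_Ioo_rpow_iff (s := (-(1/2) : ℝ)) (t := s) hs).mpr (by norm_num)
  obtain ⟨h1, h2⟩ := radial (s := s) (h := fun y => y ^ (-(5 / 2) : ℝ))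
    (hi0.congr_fun heq measurableSet_Ioo)
  calc ∫⁻ u, Ye s u ^ (5 / 2 : ℝ) ≤
      ∫⁻ u : E3, ENNReal.ofReal (if ‖u‖ < s then ‖u‖ ^ (-(5 / 2) : ℝ) else 0) := by
        refine lintegral_mono fun u => ?_
        simp only
        refine (ENNReal.rpow_le_rpow (Ye_le hs u) (by norm_num)).trans ?_
        split_ifs
        · rw [ENNReal.ofReal_rpow_of_nonneg (by positivity) (by norm_num)]
          refine ENNReal.ofReal_le_ofReal (le_of_eq ?_)
          rw [one_div, Real.inv_rpow (norm_nonneg u), Real.rpow_neg (norm_nonneg u)]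
        · rw [ENNReal.zero_rpow_of_pos (by norm_num)]; simp
    _ = ENNReal.ofReal (8 * Real.pi * √s) := by
        rw [← ofReal_integral_eq_lintegral_ofReal h1 (Eventually.of_forall fun u => by positivity), h2,
          ← setIntegral_congr_fun measurableSet_Ioo heq, ← integral_Ioc_eq_integral_Ioo,
          ← intervalIntegral.integral_of_le hs.le, integral_rpow (Or.inl (by norm_num))]
        congr 1
        rw [Real.sqrt_eq_rpow]
        norm_num
        ring

lemma box_near {L : ℝ} {x y : E3} (hx : x ∈ box 2 (L - 1)) (h : ‖x - y‖ < 1) : y ∈ box 1 L := by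
  intro c
  have h1 : ‖(x - y) c‖ ≤ ‖x - y‖ := PiLp.norm_apply_le _ _
  have h2 : (x - y) c = x c - y c := rfl
  rw [h2, Real.norm_eq_abs] at h1
  have h3 := abs_le.1 (h1.trans h.le)
  have h4 := hx c
  rw [Set.mem_Icc] at h4 ⊢
  constructor <;> linarith [h3.1, h3.2, h4.1, h4.2]

/-- lower bound for double integrals of short range kernels -/
lemma dbl_lower {L : ℝ} (hL : 3 ≤ L) {G : E3 → E3 → ℝ≥0∞} (I : ℝ≥0∞)
    (h0 : ∀ x y, 1 ≤ ‖x - y‖ → G x y = 0) (hI : ∀ x, ∫⁻ y, G x y = I) :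
    ENNReal.ofReal ((L ^ 3)⁻¹ ^ 2 * (L - 3) ^ 3) * I ≤ ∫⁻ x, ∫⁻ y, G x y * (P L x * P L y) := by
  have hL0 : 0 < L := by linarith
  have h1 : ∀ x ∈ box 2 (L - 1), ∫⁻ y, G x y * (P L x * P L y) =
      I * ENNReal.ofReal ((L ^ 3)⁻¹ ^ 2) := by
    intro x hx
    have hx1 : x ∈ box 1 L := box_near hx (by simp)
    have h2 : ∀ y, G x y * (P L x * P L y) = G x y * ENNReal.ofReal ((L ^ 3)⁻¹ ^ 2) := by
      intro y
      by_cases h : 1 ≤ ‖x - y‖
      · rw [h0 x y h]; simp
      · have hy : y ∈ box 1 L := box_near hx (not_le.1 h)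
        unfold P
        rw [p3_mid hx1, p3_mid hy, ← ENNReal.ofReal_mul (by positivity), pow_two]
    simp_rw [h2]
    rw [lintegral_mul_const' _ _ ENNReal.ofReal_ne_top, hI]
  calc ENNReal.ofReal ((L ^ 3)⁻¹ ^ 2 * (L - 3) ^ 3) * I =
      ∫⁻ _ in box 2 (L - 1), I * ENNReal.ofReal ((L ^ 3)⁻¹ ^ 2) := by
        rw [setLIntegral_const, box_vol, ← ENNReal.ofReal_pow (by linarith),
          ENNReal.ofReal_mul (by positivity)]
        rw [show L - 1 - 2 = L - 3 by ring]
        ring
    _ = ∫⁻ x in box 2 (L - 1), ∫⁻ y, G x y * (P L x * P L y) :=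
        (setLIntegral_congr_fun (box_meas _ _) h1).symm
    _ ≤ ∫⁻ x, ∫⁻ y, G x y * (P L x * P L y) := setLIntegral_le_lintegral _ _

lemma Ye_int (s : ℝ) (x : E3) : ∫⁻ y, Ye s (x - y) = ∫⁻ u, Ye s u :=
  lintegral_sub_left_eq_self (fun u => Ye s u) x

lemma Ye_far {s : ℝ} {u : E3} (h : s ≤ ‖u‖) : Ye s u = 0 := by
  unfold Ye
  rw [Yf_zero h]; simp

/-- smeared interaction energy -/
noncomputable def W0 (L s : ℝ) : ℝ≥0∞ := ∫⁻ x, ∫⁻ y, ENNReal.ofReal (Wk s x y) * (P L x * P L y)

/-- smeared short range kernel -/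
noncomputable def Z (s : ℝ) (x y : E3) : ℝ≥0∞ := ∫⁻ u, ENNReal.ofReal (gb s x u) * Ye s (u - y)

lemma gb_lint {s : ℝ} (hs : 0 < s) (x : E3) : ∫⁻ u, ENNReal.ofReal (gb s x u) = 1 := by
  rw [← ofReal_integral_eq_lintegral_ofReal (gb_int s x) (Eventually.of_forall (gb_nonneg hs x)),
    gb_total hs, ENNReal.ofReal_one]

lemma Z_int {s : ℝ} (hs : 0 < s) (x : E3) : ∫⁻ y, Z s x y = ∫⁻ u, Ye s u := by
  unfold Z
  have hm : Measurable fun p : E3 × E3 => ENNReal.ofReal (gb s x p.2) * Ye s (p.2 - p.1) := by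
    have h1 : Measurable fun p : E3 × E3 => ENNReal.ofReal (gb s x p.2) :=
      ((gb_meas s x).comp measurable_snd).ennreal_ofReal
    have h2 : Measurable fun p : E3 × E3 => Ye s (p.2 - p.1) :=
      (Ye_meas s).comp (measurable_snd.sub measurable_fst)
    exact h1.mul h2
  rw [lintegral_lintegral_swap hm.aemeasurable]
  have h3 : ∀ u : E3, ∫⁻ y, ENNReal.ofReal (gb s x u) * Ye s (u - y) =
      ENNReal.ofReal (gb s x u) * ∫⁻ u, Ye s u := by
    intro u
    rw [lintegral_const_mul' _ _ ENNReal.ofReal_ne_top, Ye_int]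
  simp_rw [h3]
  rw [lintegral_mul_const _ (gb_meas s x).ennreal_ofReal, gb_lint hs, one_mul]

lemma Z_far {s : ℝ} (hs : 0 < s) (hs2 : s ≤ 1 / 2) {x y : E3} (h : 1 ≤ ‖x - y‖) : Z s x y = 0 := by
  unfold Z
  rw [lintegral_eq_zero_iff' ?_]
  · refine Eventually.of_forall fun u => ?_
    simp only [Pi.zero_apply, mul_eq_zero]
    by_cases h1 : s ≤ ‖u - y‖
    · exact Or.inr (Ye_far h1)
    · left
      unfold gb
      rw [Set.indicator_of_notMem, ENNReal.ofReal_zero]
      rw [mem_ball, dist_eq_norm]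
      have h2 : ‖x - y‖ ≤ ‖u - x‖ + ‖u - y‖ := by
        have : x - y = (u - y) - (u - x) := by abel
        rw [this]
        linarith [norm_sub_le (u - y) (u - x)]
      push Not at h1 ⊢
      linarith
  · exact ((gb_meas s x).ennreal_ofReal.mul ((Ye_meas s).comp (measurable_id.sub measurable_const))).aemeasurable

lemma cw_split {s : ℝ} (hs : 0 < s) {x y : E3} (hxy : x ≠ y) :
    cw x y = ENNReal.ofReal (Gf s ‖x - y‖) + Ye s (x - y) := by
  unfold cw Ye
  have hr : 0 < ‖x - y‖ := norm_pos_iff.2 (sub_ne_zero.2 hxy)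
  rw [← ENNReal.ofReal_add (Gf_nonneg hs hr.le) (Yf_nonneg hs hr)]
  congr 1
  unfold Yf
  ring

lemma Gf_split {s : ℝ} (hs : 0 < s) (x y : E3) :
    ENNReal.ofReal (Gf s ‖x - y‖) = ENNReal.ofReal (Wk s x y) + Z s x y := by
  have h1 : Gf s ‖x - y‖ = ∫ u, gb s x u / ‖y - u‖ := by
    rw [norm_sub_rev, ← pot_gb hs]; rfl
  obtain ⟨B, hB⟩ := Cl.nice_bound _ (gb_nice s x)
  rw [h1, ofReal_integral_eq_lintegral_ofReal (hB y).1
    (Eventually.of_forall fun u => div_nonneg (gb_nonneg hs x u) (norm_nonneg _))]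
  unfold Wk Z
  have hmZ : Measurable fun u : E3 => ENNReal.ofReal (gb s x u) * Ye s (u - y) :=
    (gb_meas s x).ennreal_ofReal.mul ((Ye_meas s).comp (measurable_id.sub measurable_const))
  rw [ofReal_integral_eq_lintegral_ofReal (gG_int hs x y)
    (Eventually.of_forall fun u => mul_nonneg (gb_nonneg hs x u) (Gf_nonneg hs (norm_nonneg _))),
    ← lintegral_add_right _ hmZ]
  refine lintegral_congr_ae ?_
  filter_upwards [Measure.ae_ne (volume : Measure E3) y] with u hu
  have h2 : ENNReal.ofReal (gb s x u / ‖y - u‖) = ENNReal.ofReal (gb s x u) * cw u y := by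
    unfold cw
    rw [← ENNReal.ofReal_mul (gb_nonneg hs x u), norm_sub_rev]
    congr 1
    ring
  rw [h2, cw_split hs hu, mul_add, ENNReal.ofReal_mul (gb_nonneg hs x u)]

lemma Wk_meas (s : ℝ) : Measurable fun p : E3 × E3 => Wk s p.1 p.2 := by
  unfold Wk
  have hm : Measurable fun q : (E3 × E3) × E3 => gb s q.1.1 q.2 * Gf s ‖q.2 - q.1.2‖ := by
    have h1 : Measurable fun q : (E3 × E3) × E3 => gb s q.1.1 q.2 := by
      have : (fun q : (E3 × E3) × E3 => gb s q.1.1 q.2) =
          {q : (E3 × E3) × E3 | ‖q.2 - q.1.1‖ < s}.indicator fun _ => (4/3*Real.pi*s^3)⁻¹ := by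
        funext q
        unfold gb
        by_cases h : ‖q.2 - q.1.1‖ < s
        · rw [Set.indicator_of_mem (show q ∈ {q : (E3 × E3) × E3 | ‖q.2 - q.1.1‖ < s} from h),
            Set.indicator_of_mem]
          rw [mem_ball, dist_eq_norm]; exact h
        · rw [Set.indicator_of_notMem (show q ∉ {q : (E3 × E3) × E3 | ‖q.2 - q.1.1‖ < s} from h),
            Set.indicator_of_notMem]
          rw [mem_ball, dist_eq_norm]; exact h
      rw [this]
      exact measurable_const.indicator (measurableSet_lt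
        (measurable_snd.sub (measurable_fst.comp measurable_fst)).norm measurable_const)
    have h2 : Measurable fun q : (E3 × E3) × E3 => Gf s ‖q.2 - q.1.2‖ :=
      (Gf_meas s).comp (measurable_snd.sub (measurable_snd.comp measurable_fst)).norm
    exact h1.mul h2
  exact (StronglyMeasurable.integral_prod_right
    (f := fun (p : E3 × E3) (u : E3) => gb s p.1 u * Gf s ‖u - p.2‖) hm.stronglyMeasurable).measurable

/-- splitting of the direct energy -/
lemma D0_lower {L s : ℝ} (hL : 3 ≤ L) (hs : 0 < s) (hs2 : s ≤ 1 / 2) :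
    W0 L s + 2 * (ENNReal.ofReal ((L ^ 3)⁻¹ ^ 2 * (L - 3) ^ 3) * ∫⁻ u, Ye s u) ≤ D0 L := by
  have h1 := dbl_lower hL (G := fun x y => Ye s (x - y)) (∫⁻ u, Ye s u)
    (fun x y h => Ye_far (by linarith)) (fun x => Ye_int s x)
  have h2 := dbl_lower hL (G := fun x y => Z s x y) (∫⁻ u, Ye s u)
    (fun x y h => Z_far hs hs2 h) (fun x => Z_int hs x)
  have hPm : Measurable fun p : E3 × E3 => P L p.1 * P L p.2 :=
    ((P_meas L).comp measurable_fst).mul ((P_meas L).comp measurable_snd)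
  have hYm : Measurable fun p : E3 × E3 => Ye s (p.1 - p.2) * (P L p.1 * P L p.2) :=
    ((Ye_meas s).comp (measurable_fst.sub measurable_snd)).mul hPm
  have hWm : Measurable fun p : E3 × E3 => ENNReal.ofReal (Wk s p.1 p.2) * (P L p.1 * P L p.2) :=
    (Wk_meas s).ennreal_ofReal.mul hPm
  have hsec : ∀ {G : E3 → E3 → ℝ≥0∞}, (Measurable fun p : E3 × E3 => G p.1 p.2) → ∀ x,
      Measurable fun y => G x y := fun hG x =>
    hG.comp (measurable_const.prodMk measurable_id : Measurable fun y : E3 => (x, y))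
  have hfst : ∀ {G : E3 → E3 → ℝ≥0∞}, (Measurable fun p : E3 × E3 => G p.1 p.2) →
      Measurable fun x => ∫⁻ y, G x y := fun hG => Measurable.lintegral_prod_right' hG
  calc W0 L s + 2 * (ENNReal.ofReal ((L ^ 3)⁻¹ ^ 2 * (L - 3) ^ 3) * ∫⁻ u, Ye s u) ≤
      W0 L s + ((∫⁻ x, ∫⁻ y, Ye s (x - y) * (P L x * P L y)) +
        ∫⁻ x, ∫⁻ y, Z s x y * (P L x * P L y)) := by
        rw [two_mul]
        gcongr
    _ = ∫⁻ x, ∫⁻ y, (ENNReal.ofReal (Wk s x y) * (P L x * P L y) +
        (Ye s (x - y) * (P L x * P L y) + Z s x y * (P L x * P L y))) := by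
        rw [← lintegral_add_left (hfst (G := fun x y => Ye s (x - y) * (P L x * P L y)) hYm), W0,
          ← lintegral_add_left (hfst (G := fun x y => ENNReal.ofReal (Wk s x y) * (P L x * P L y)) hWm)]
        refine lintegral_congr fun x => ?_
        rw [← lintegral_add_left (hsec (G := fun x y => Ye s (x - y) * (P L x * P L y)) hYm x),
          ← lintegral_add_left (hsec (G := fun x y => ENNReal.ofReal (Wk s x y) * (P L x * P L y)) hWm x)]
    _ = D0 L := by
        unfold D0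
        refine lintegral_congr fun x => lintegral_congr_ae ?_
        filter_upwards [Measure.ae_ne (volume : Measure E3) x] with y hy
        rw [cw_split hs hy.symm, Gf_split hs]
        ring

/-- lower bound for the short range energy -/
lemma X0_lower {L κ : ℝ} (hL : 3 ≤ L) (hκ : 1 < κ) :
    ENNReal.ofReal ((L ^ 3)⁻¹ ^ 2 * (L - 3) ^ 3) * ENNReal.ofReal (4 / 3 * Real.pi * (κ ^ 2)⁻¹) ≤
      X0 L κ := by
  have hκ0 : 0 < κ := by linarith
  have hκi : κ⁻¹ < 1 := inv_lt_one_of_one_lt₀ hκ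
  have h1 := dbl_lower hL (G := fun x y => if ‖x - y‖ < κ⁻¹ then ENNReal.ofReal κ else 0)
    (ENNReal.ofReal (4 / 3 * Real.pi * (κ ^ 2)⁻¹))
    (fun x y h => if_neg (by linarith)) (fun x => ?_)
  · refine h1.trans ?_
    refine lintegral_mono fun x => lintegral_mono_ae ?_
    filter_upwards [Measure.ae_ne (volume : Measure E3) x] with y hy
    unfold k1
    by_cases h : ‖x - y‖ < κ⁻¹
    · rw [if_pos h, if_pos h.le]
      gcongr
      unfold cw
      refine ENNReal.ofReal_le_ofReal ?_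
      have hr : 0 < ‖x - y‖ := norm_pos_iff.2 (sub_ne_zero.2 hy.symm)
      rw [le_div_iff₀ hr]
      have := mul_le_mul_of_nonneg_left h.le hκ0.le
      rw [mul_inv_cancel₀ hκ0.ne'] at this
      exact this
    · rw [if_neg h]; simp
  · have h2 : (fun y : E3 => if ‖x - y‖ < κ⁻¹ then ENNReal.ofReal κ else 0) =
        (ball x κ⁻¹).indicator fun _ => ENNReal.ofReal κ := by
      funext y
      by_cases h : ‖x - y‖ < κ⁻¹
      · rw [if_pos h, Set.indicator_of_mem]
        rw [mem_ball, dist_comm, dist_eq_norm]; exact h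
      · rw [if_neg h, Set.indicator_of_notMem]
        rw [mem_ball, dist_comm, dist_eq_norm]; exact h
    rw [h2, lintegral_indicator measurableSet_ball, setLIntegral_const,
      EuclideanSpace.volume_ball_fin_three]
    have := Real.pi_pos
    rw [← ENNReal.ofReal_pow (by positivity), ← ENNReal.ofReal_mul (by positivity),
      ← ENNReal.ofReal_mul (by positivity)]
    congr 1
    field_simp

end Pool.Agent.TH791.Ge
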