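import Pool.Agent.TH791.Core

/-!
# The inequality obtained by averaging
-/

set_option autoImplicit false

namespace Pool.Agent.TH791.Iq

open MeasureTheory Filter Topology Metric
open Pool.Agent.TH791.QM
open Pool.Agent.TH791.Nw Pool.Agent.TH791.Tl Pool.Agent.TH791.Tq Pool.Agent.TH791.Ge
open Pool.Agent.TH791.Av Pool.Agent.TH791.Co
open Pool.Agent.TH791.Wn (f)
open scoped ENNReal

lemma toR {a b : ℝ≥0∞} (h : a ≤ b) (hb : b ≠ ∞) : a.toReal ≤ b.toReal := ENNReal.toReal_mono hb h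

lemma W0_fin {L s : ℝ} (hL : 3 ≤ L) (hs : 0 < s) (hs2 : s ≤ 1 / 2) : W0 L s ≠ ∞ :=
  ne_top_of_le_ne_top (D0_fin (by linarith)) (le_trans le_self_add (D0_lower hL hs hs2))

lemma X0_fin {L : ℝ} (hL : 1 ≤ L) (κ : ℝ) : X0 L κ ≠ ∞ :=
  ne_top_of_le_ne_top (D0_fin hL) (X0_le L κ)

theorem core_ineq {L κ s C M w v q : ℝ} (hL : 3 ≤ L) (hκ : 1 < κ) (hs : 0 < s) (hs2 : s ≤ 1 / 2)
    (hM : 0 ≤ M) (hC : ∀ t : ℝ, |deriv (f L) t| ≤ C) {K : Finset (Fin 3 → ℤ)} (hKne : K.Nonempty)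
    {N : ℕ} (hN : N = 2 * K.card)
    (hK : ∑ k ∈ K, ∑ c, (2 * Real.pi * k c / L) ^ 2 ≤ κ ^ 2 * K.card)
    (hw : 0 < w) (hv : 0 ≤ v) (hq : 0 ≤ q)
    (h1 : (N : ℝ) * (L ^ 3)⁻¹ * (2 * Real.pi * s ^ 2 / 5) ≤ w ^ 2)
    (h2 : (N : ℝ) * (L ^ 3)⁻¹ * (4 * Real.pi * s) ≤ v)
    (h3 : (N : ℝ) * (L ^ 3)⁻¹ * (8 * Real.pi * √s) ≤ q)
    (hneg : ∀ R : Fin N → E3, Function.Injective R →
      ETF N (fun _ => 1) R ≤ EQ N (fun _ => 1) R + ((M * N : ℝ) : EReal)) :
    (N : ℝ) ^ 2 * ((L ^ 3)⁻¹ ^ 2 * (L - 3) ^ 3) *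
        (2 * Real.pi * s ^ 2 / 5 + Real.pi / 12 * (κ ^ 2)⁻¹) ≤
      (12 * C ^ 2 * K.card + 2 * ∑ k ∈ K, ∑ c, (2 * Real.pi * k c / L) ^ 2) +
        (M + 3 / (4 * s)) * N + cst * ((L + 3) ^ 3 * (w ^ 5 + 2 * w * v + q)) := by
  have hL1 : 1 ≤ L := by linarith
  have hL0 : 0 < L := by linarith
  have hκ0 : 0 < κ := by linarith
  have htr := trial_main hL1 hκ0 hC hKne hK
  rw [← hN] at htr
  obtain ⟨ψ, hψ, EE, T, hEE, hT, hXE, hqE⟩ := htr
  have hprob := mu_prob hL1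
  obtain ⟨n, hn⟩ : ∃ n, N = n + 1 := ⟨N - 1, by have := hKne.card_pos; omega⟩
  set T' : ℝ := 12 * C ^ 2 * K.card + 2 * ∑ k ∈ K, ∑ c, (2 * Real.pi * k c / L) ^ 2 with hT'
  have hT'0 : 0 ≤ T' := by positivity
  have hNpos : (0 : ℝ) ≤ (N : ℝ) := by positivity
  -- the inequality for given positions
  have hpt : ∀ R : Fin N → E3, Function.Injective R →
      ENNReal.ofReal (N * ∑ j, Ap L (R j)) ≤ ENNReal.ofReal (T' + EE + M * N) +
        ENNReal.ofReal cst * Ph s R + ENNReal.ofReal (1 / 2 * ∑ i, ∑ j, Wk s (R i) (R j)) := by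
    intro R hR
    by_cases hΦ : Ph s R = ∞
    · rw [hΦ, ENNReal.mul_top (by simpa using cst_pos)]
      simp
    have h4 : ((Unuc (fun _ => 1) R - cst * (Ph s R).toReal - 1 / 2 * ∑ i, ∑ j, Wk s (R i) (R j) : ℝ) :
        EReal) ≤ ETF N (fun _ => 1) R := by
      unfold ETF
      refine le_iInf fun ρ => ?_
      exact EReal.coe_le_coe_iff.2 (tf_lower hs R hΦ ρ.2)
    have h5 : EQ N (fun _ => 1) R ≤ ((qEnergy (fun _ => 1) R ψ : ℝ) : EReal) := by
      unfold EQ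
      exact iInf_le (fun ψ : {ψ : (Fin N → Fin 2) → (Fin N → E3) → ℂ // Wave N ψ} =>
        ((qEnergy (fun _ => 1) R ψ.1 : ℝ) : EReal)) ⟨ψ, hψ⟩
    have h6 := (h4.trans (hneg R hR)).trans (add_le_add_left h5 _)
    rw [← EReal.coe_add, EReal.coe_le_coe_iff, hqE] at h6
    have h7 : N * ∑ j, Ap L (R j) ≤ (T' + EE + M * N) + cst * (Ph s R).toReal +
        1 / 2 * ∑ i, ∑ j, Wk s (R i) (R j) := by linarith
    have h8 : ENNReal.ofReal (cst * (Ph s R).toReal) = ENNReal.ofReal cst * Ph s R := by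
      rw [ENNReal.ofReal_mul cst_pos.le, ENNReal.ofReal_toReal hΦ]
    rw [← h8]
    refine (ENNReal.ofReal_le_ofReal h7).trans ?_
    refine ENNReal.ofReal_add_le.trans ?_
    gcongr
    exact ENNReal.ofReal_add_le
  -- average
  have hav : ENNReal.ofReal ((N : ℝ) ^ 2) * D0 L ≤ ENNReal.ofReal (T' + EE + M * N) +
      ENNReal.ofReal cst * ENNReal.ofReal ((L + 3) ^ 3 * (w ^ 5 + 2 * w * v + q)) +
      ENNReal.ofReal (1 / 2) * (ENNReal.ofReal (N * (3 / (2 * s))) +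
        ENNReal.ofReal ((N : ℝ) ^ 2) * W0 L s) := by
    have hPh : ∫⁻ R, Ph s R ∂pm (mu L) N ≤
        ENNReal.ofReal ((L + 3) ^ 3 * (w ^ 5 + 2 * w * v + q)) := by
      subst hn
      exact Ph_avg hL1 hs (by linarith) hw hv hq h1 h2 h3
    have hmP : Measurable fun R : Fin N → E3 => Ph s R := by
      unfold Ph
      have hm : Measurable fun p : (Fin N → E3) × E3 => (∑ j, Ye s (p.2 - p.1 j)) ^ (5 / 2 : ℝ) := by
        refine Measurable.pow_const ?_ _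
        refine Finset.measurable_fun_sum _ fun j _ => ?_
        exact (Ye_meas s).comp (measurable_snd.sub ((measurable_pi_apply j).comp measurable_fst))
      exact Measurable.lintegral_prod_right' hm
    calc ENNReal.ofReal ((N : ℝ) ^ 2) * D0 L =
        ∫⁻ R, ENNReal.ofReal (N * ∑ j, Ap L (R j)) ∂pm (mu L) N := (Ap_sum_avg hL1).symm
      _ ≤ ∫⁻ R, (ENNReal.ofReal (T' + EE + M * N) +
          ENNReal.ofReal cst * Ph s R + ENNReal.ofReal (1 / 2 * ∑ i, ∑ j, Wk s (R i) (R j)))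
            ∂pm (mu L) N := by
          refine lintegral_mono_ae ?_
          filter_upwards [ae_inj (N := N) (L := L)] with R hR
          exact hpt R hR
      _ = ENNReal.ofReal (T' + EE + M * N) + ENNReal.ofReal cst * (∫⁻ R, Ph s R ∂pm (mu L) N) +
          ∫⁻ R : Fin N → E3, ENNReal.ofReal (1 / 2 * ∑ i, ∑ j, Wk s (R i) (R j)) ∂pm (mu L) N := by
          have hmA : Measurable fun R : Fin N → E3 => ENNReal.ofReal (T' + EE + M * N) +
              ENNReal.ofReal cst * Ph s R := measurable_const.add (hmP.const_mul _)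
          rw [lintegral_add_left hmA,
            lintegral_add_left measurable_const, lintegral_const_mul _ hmP]
          simp
      _ ≤ _ := by
          refine add_le_add (add_le_add le_rfl ?_) (W_avg hs)
          gcongr
  -- real numbers
  have hD := D0_fin hL1
  have hW := W0_fin hL hs hs2
  have hX := X0_fin hL1 κ
  have hr1 : (N : ℝ) ^ 2 * (D0 L).toReal ≤ (T' + EE + M * N) +
      cst * ((L + 3) ^ 3 * (w ^ 5 + 2 * w * v + q)) +
      1 / 2 * (N * (3 / (2 * s)) + (N : ℝ) ^ 2 * (W0 L s).toReal) := by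
    have hfin : ENNReal.ofReal (T' + EE + M * N) +
      ENNReal.ofReal cst * ENNReal.ofReal ((L + 3) ^ 3 * (w ^ 5 + 2 * w * v + q)) +
      ENNReal.ofReal (1 / 2) * (ENNReal.ofReal (N * (3 / (2 * s))) +
        ENNReal.ofReal ((N : ℝ) ^ 2) * W0 L s) ≠ ∞ := by finiteness
    have h9 := toR hav hfin
    have hc := cst_pos
    rw [ENNReal.toReal_mul, ENNReal.toReal_ofReal (by positivity),
      ENNReal.toReal_add (by finiteness) (by finiteness),
      ENNReal.toReal_add (by finiteness) (by finiteness), ENNReal.toReal_mul, ENNReal.toReal_mul,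
      ENNReal.toReal_add (by finiteness) (by finiteness), ENNReal.toReal_mul,
      ENNReal.toReal_ofReal (by positivity), ENNReal.toReal_ofReal (by positivity),
      ENNReal.toReal_ofReal (by positivity), ENNReal.toReal_ofReal (by positivity),
      ENNReal.toReal_ofReal (by positivity), ENNReal.toReal_ofReal (by positivity)] at h9
    exact h9
  have hr2 : 2 * EE + 2 * ((K.card : ℝ) ^ 2 / 4 * (X0 L κ).toReal) ≤
      4 * ((K.card : ℝ) ^ 2 * (D0 L).toReal) := by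
    have h9 := toR hXE (by finiteness)
    rw [ENNReal.toReal_add (by finiteness) (by finiteness), ENNReal.toReal_mul, ENNReal.toReal_mul,
      ENNReal.toReal_mul, ENNReal.toReal_mul, ENNReal.toReal_ofReal (by positivity),
      ENNReal.toReal_ofReal (by positivity), ENNReal.toReal_ofReal (by positivity)] at h9
    simpa using h9
  have hθ0 : 0 ≤ (L ^ 3)⁻¹ ^ 2 * (L - 3) ^ 3 := by
    have : 0 ≤ L - 3 := by linarith
    positivity
  have hr3 : (W0 L s).toReal + 2 * ((L ^ 3)⁻¹ ^ 2 * (L - 3) ^ 3 * (2 * Real.pi * s ^ 2 / 5)) ≤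
      (D0 L).toReal := by
    have h9 := D0_lower hL hs hs2
    rw [I1 hs] at h9
    have h10 := toR h9 hD
    have := Real.pi_pos
    rw [ENNReal.toReal_add hW (by finiteness), ENNReal.toReal_mul, ENNReal.toReal_mul,
      ENNReal.toReal_ofReal hθ0, ENNReal.toReal_ofReal (by positivity)] at h10
    simpa using h10
  have hr4 : (L ^ 3)⁻¹ ^ 2 * (L - 3) ^ 3 * (4 / 3 * Real.pi * (κ ^ 2)⁻¹) ≤ (X0 L κ).toReal := by
    have h10 := toR (X0_lower hL hκ) hX
    have := Real.pi_pos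
    rw [ENNReal.toReal_mul, ENNReal.toReal_ofReal hθ0, ENNReal.toReal_ofReal (by positivity)] at h10
    exact h10
  have hNK : (N : ℝ) = 2 * K.card := by rw [hN]; push_cast; ring
  set d := (D0 L).toReal
  set w0 := (W0 L s).toReal
  set x0 := (X0 L κ).toReal
  set θ := (L ^ 3)⁻¹ ^ 2 * (L - 3) ^ 3
  have e1 : 4 * ((K.card : ℝ) ^ 2 * d) = (N : ℝ) ^ 2 * d := by rw [hNK]; ring
  have e2 : 2 * ((K.card : ℝ) ^ 2 / 4 * x0) = (N : ℝ) ^ 2 / 8 * x0 := by rw [hNK]; ring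
  rw [e1, e2] at hr2
  have hr4' : (N : ℝ) ^ 2 / 8 * (θ * (4 / 3 * Real.pi * (κ ^ 2)⁻¹)) ≤ (N : ℝ) ^ 2 / 8 * x0 :=
    mul_le_mul_of_nonneg_left hr4 (by positivity)
  have hr3' : (N : ℝ) ^ 2 * (w0 + 2 * (θ * (2 * Real.pi * s ^ 2 / 5))) ≤ (N : ℝ) ^ 2 * d :=
    mul_le_mul_of_nonneg_left hr3 (by positivity)
  have e3 : (N : ℝ) * (3 / (2 * s)) / 2 = 3 / (4 * s) * N := by
    field_simp
    ring
  have e4 : (N : ℝ) ^ 2 * θ * (2 * Real.pi * s ^ 2 / 5 + Real.pi / 12 * (κ ^ 2)⁻¹) =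
      (N : ℝ) ^ 2 * (2 * (θ * (2 * Real.pi * s ^ 2 / 5))) / 2 +
      (N : ℝ) ^ 2 / 8 * (θ * (4 / 3 * Real.pi * (κ ^ 2)⁻¹)) / 2 := by ring
  rw [e4]
  linarith

end Pool.Agent.TH791.Iq
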