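import Pool.Agent.TH791.Coul

/-!
# Potential of a uniformly charged ball
-/

set_option autoImplicit false

namespace Pool.Agent.TH791.Nw

open MeasureTheory Set Filter Topology Metric
open Pool.Agent.TH791.Cl
open scoped ENNReal

/-- potential of the unit charge smeared over a ball of radius `s`, at distance `r` -/
noncomputable def Gf (s r : ℝ) : ℝ := if r < s then (3 - r ^ 2 / s ^ 2) / (2 * s) else 1 / r

/-- difference to the Coulomb potential -/
noncomputable def Yf (s r : ℝ) : ℝ := 1 / r - Gf s r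

lemma Gf_nonneg {s r : ℝ} (hs : 0 < s) (hr : 0 ≤ r) : 0 ≤ Gf s r := by
  unfold Gf
  split_ifs with h
  · have : r ^ 2 / s ^ 2 ≤ 1 := by
      rw [div_le_one (by positivity)]
      exact pow_le_pow_left₀ hr h.le 2
    have h2 : 0 ≤ 3 - r ^ 2 / s ^ 2 := by linarith
    positivity
  · positivity

lemma Gf_le {s r : ℝ} (hs : 0 < s) : Gf s r ≤ 3 / (2 * s) := by
  unfold Gf
  split_ifs with h
  · gcongr
    have : 0 ≤ r ^ 2 / s ^ 2 := by positivity
    linarith
  · push Not at h
    have hr : 0 < r := by linarith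
    rw [div_le_div_iff₀ hr (by positivity)]
    linarith

lemma Yf_eq {s r : ℝ} (hs : 0 < s) (hr : 0 < r) (h : r < s) :
    Yf s r = (s - r) ^ 2 * (2 * s + r) / (2 * s ^ 3 * r) := by
  unfold Yf Gf
  rw [if_pos h]
  field_simp
  ring

lemma Yf_zero {s r : ℝ} (h : s ≤ r) : Yf s r = 0 := by
  unfold Yf Gf
  rw [if_neg (not_lt.2 h), sub_self]

lemma Yf_nonneg {s r : ℝ} (hs : 0 < s) (hr : 0 < r) : 0 ≤ Yf s r := by
  by_cases h : r < s
  · rw [Yf_eq hs hr h]; positivity
  · rw [Yf_zero (not_lt.1 h)]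

lemma Yf_le {s r : ℝ} (hs : 0 < s) (hr : 0 ≤ r) : Yf s r ≤ 1 / r := by
  unfold Yf
  linarith [Gf_nonneg hs hr]

lemma Gf_meas (s : ℝ) : Measurable (Gf s) := by
  unfold Gf
  exact Measurable.ite measurableSet_Iio (by fun_prop) (by fun_prop)

lemma Yf_meas (s : ℝ) : Measurable (Yf s) := by
  unfold Yf
  exact (measurable_const.div measurable_id).sub (Gf_meas s)

lemma cent (a s : ℝ) (hs : 0 < s) (ha0 : 0 ≤ a) :
    ∫ x in ball (0:E3) s, 1 / ‖x - EuclideanSpace.single 0 a‖ = 4/3*Real.pi*s^3 * Gf s a := by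
  obtain ⟨_, hv⟩ := FF_int a s hs
  have hval : ∫ x in ball (0:E3) s, 1 / ‖x - EuclideanSpace.single 0 a‖ =
      2 * Real.pi * ((∫ z in (-s)..s, √(s^2+a^2-2*a*z)) - ∫ z in (-s)..s, |z-a|) := by
    rw [← integral_indicator measurableSet_ball]
    simp only [FF_eq a s hs]
    rw [← tot a s hs, ← hv]
    exact eqv_mp.integral_comp eqv.measurableEmbedding (FF a s)
  have hpi := Real.pi_pos
  by_cases h : a < s
  · rw [Gf, if_pos h, hval]
    rcases ha0.eq_or_lt with h0 | h0
    · subst h0
      rw [B_val2 0 s hs le_rfl hs.le]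
      have : ∫ z in (-s)..s, √(s^2+0^2-2*0*z) = 2 * s ^ 2 := by
        have e : ∀ z : ℝ, √(s^2+0^2-2*0*z) = s := by
          intro z
          rw [show s^2+0^2-2*0*z = s ^ 2 by ring, Real.sqrt_sq hs.le]
        simp_rw [e]
        rw [intervalIntegral.integral_const]
        simp only [smul_eq_mul]; ring
      rw [this]
      field_simp
      ring
    · rw [A_val a s hs h0, B_val2 a s hs ha0 h.le, abs_of_nonneg (by linarith)]
      field_simp
      ring
  · push Not at h
    have ha : 0 < a := by linarith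
    rw [Gf, if_neg (not_lt.2 h), hval, A_val a s hs ha, B_val1 a s hs h, abs_of_nonpos (by linarith)]
    field_simp
    ring

lemma ball_int (x0 y : E3) (s : ℝ) (hs : 0 < s) :
    ∫ x in ball x0 s, 1 / ‖x - y‖ = 4/3*Real.pi*s^3 * Gf s ‖x0 - y‖ := by
  set a := ‖x0 - y‖ with ha
  have ha0 : 0 ≤ a := norm_nonneg _
  have hn : ‖y - x0‖ = ‖(EuclideanSpace.single 0 a : E3)‖ := by
    rw [EuclideanSpace.norm_single, norm_sub_rev, Real.norm_of_nonneg ha0]
  set L : E3 ≃ₗᵢ[ℝ] E3 := Submodule.reflection (Submodule.span ℝ {(y - x0) - (EuclideanSpace.single 0 a : E3)})ᗮ with hL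
  have hLy : L (y - x0) = EuclideanSpace.single 0 a := Submodule.reflection_sub hn
  let T : E3 ≃ᵢ E3 := (IsometryEquiv.subRight x0).trans L.toIsometryEquiv
  have hTm : MeasurePreserving (fun x : E3 => L (x - x0)) := by
    exact L.measurePreserving.comp (measurePreserving_sub_right volume x0)
  have hTe : MeasurableEmbedding (fun x : E3 => L (x - x0)) :=
    T.toHomeomorph.measurableEmbedding
  have hpre : (fun x : E3 => L (x - x0)) ⁻¹' (ball 0 s) = ball x0 s := by
    ext x
    rw [mem_preimage, mem_ball_zero_iff, LinearIsometryEquiv.norm_map, mem_ball, dist_eq_norm]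
  have hf : ∀ x : E3, 1 / ‖x - y‖ = 1 / ‖L (x - x0) - EuclideanSpace.single 0 a‖ := by
    intro x
    rw [← hLy, ← map_sub, LinearIsometryEquiv.norm_map]
    congr 2
    abel
  rw [← cent a s hs ha0]
  simp only [hf]
  rw [← hpre]
  exact hTm.setIntegral_preimage_emb hTe (fun x => 1 / ‖x - EuclideanSpace.single 0 a‖) _

/-- uniform density of a ball -/
noncomputable def gb (s : ℝ) (a : E3) : E3 → ℝ := (ball a s).indicator fun _ => (4/3*Real.pi*s^3)⁻¹

lemma gb_nonneg {s : ℝ} (hs : 0 < s) (a x : E3) : 0 ≤ gb s a x := by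
  unfold gb
  have := Real.pi_pos
  exact indicator_nonneg (fun _ _ => by positivity) x

lemma gb_meas (s : ℝ) (a : E3) : Measurable (gb s a) := measurable_const.indicator measurableSet_ball

lemma gb_int (s : ℝ) (a : E3) : Integrable (gb s a) := by
  unfold gb
  rw [integrable_indicator_iff measurableSet_ball]
  exact integrableOn_const (by finiteness)

lemma gb_total {s : ℝ} (hs : 0 < s) (a : E3) : ∫ x, gb s a x = 1 := by
  unfold gb
  rw [integral_indicator measurableSet_ball, setIntegral_const, Measure.real,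
    EuclideanSpace.volume_ball_fin_three, smul_eq_mul]
  have := Real.pi_pos
  rw [← ENNReal.ofReal_pow hs.le, ← ENNReal.ofReal_mul (by positivity), ENNReal.toReal_ofReal (by positivity)]
  field_simp

lemma gb_nice (s : ℝ) (a : E3) : Nice (gb s a) := by
  refine ⟨gb_meas s a, gb_int s a, ?_⟩
  have : (fun x => |gb s a x| ^ (5 / 3 : ℝ)) =
      (ball a s).indicator fun _ => |(4/3*Real.pi*s^3)⁻¹| ^ (5 / 3 : ℝ) := by
    funext x
    unfold gb
    by_cases h : x ∈ ball a s
    · simp [h]
    · simp only [indicator_of_notMem h, abs_zero]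
      rw [Real.zero_rpow (by norm_num)]
  rw [this, integrable_indicator_iff measurableSet_ball]
  exact integrableOn_const (by finiteness)

lemma pot_gb {s : ℝ} (hs : 0 < s) (a x : E3) : pot (gb s a) x = Gf s ‖x - a‖ := by
  have h : ∀ y, gb s a y / ‖x - y‖ = (4/3*Real.pi*s^3)⁻¹ *
      (ball a s).indicator (fun y => 1 / ‖y - x‖) y := by
    intro y
    unfold gb
    by_cases h : y ∈ ball a s
    · rw [indicator_of_mem h, indicator_of_mem h, norm_sub_rev]; ring
    · rw [indicator_of_notMem h, indicator_of_notMem h]; simp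
  unfold pot
  simp_rw [h]
  rw [integral_const_mul, integral_indicator measurableSet_ball, ball_int a x s hs, norm_sub_rev]
  have := Real.pi_pos
  field_simp

/-- interaction of two smeared charges -/
noncomputable def Wk (s : ℝ) (a b : E3) : ℝ := ∫ x, gb s a x * Gf s ‖x - b‖

lemma Wk_eq {s : ℝ} (hs : 0 < s) (a b : E3) : Wk s a b = ∫ x, gb s a x * pot (gb s b) x := by
  unfold Wk
  simp_rw [pot_gb hs]

lemma Wk_nonneg {s : ℝ} (hs : 0 < s) (a b : E3) : 0 ≤ Wk s a b :=
  integral_nonneg fun x => mul_nonneg (gb_nonneg hs a x) (Gf_nonneg hs (norm_nonneg _))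

lemma gG_int {s : ℝ} (hs : 0 < s) (a b : E3) : Integrable fun x => gb s a x * Gf s ‖x - b‖ := by
  refine (gb_int s a).mul_bdd (c := 3 / (2 * s)) ?_ ?_
  · exact ((Gf_meas s).comp (measurable_id.sub measurable_const).norm).aestronglyMeasurable
  · refine Eventually.of_forall fun x => ?_
    rw [Real.norm_of_nonneg (Gf_nonneg hs (norm_nonneg _))]
    exact Gf_le hs

lemma Wk_self {s : ℝ} (hs : 0 < s) (a : E3) : Wk s a a ≤ 3 / (2 * s) := by
  unfold Wk
  calc ∫ x, gb s a x * Gf s ‖x - a‖ ≤ ∫ x, gb s a x * (3 / (2 * s)) := by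
        refine integral_mono (gG_int hs a a) ((gb_int s a).mul_const _) fun x => ?_
        exact mul_le_mul_of_nonneg_left (Gf_le hs) (gb_nonneg hs a x)
    _ = 3 / (2 * s) := by rw [integral_mul_const, gb_total hs, one_mul]

end Pool.Agent.TH791.Nw
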