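import Pool.Agent.TH791.Win

/-!
# Three-dimensional windowed plane waves
-/

set_option autoImplicit false

namespace Pool.Agent.TH791.Ob

open MeasureTheory Filter Topology
open Pool.Agent.TH791.Wn
open scoped ENNReal ComplexConjugate

abbrev E3 := EuclideanSpace ℝ (Fin 3)

lemma mp : MeasurePreserving (fun x : E3 => WithLp.ofLp x) := PiLp.volume_preserving_ofLp (Fin 3)

lemma emb : MeasurableEmbedding (fun x : E3 => WithLp.ofLp x) :=
  (MeasurableEquiv.toLp 2 (Fin 3 → ℝ)).symm.measurableEmbedding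

lemma int_prod3 {𝕜 : Type} [RCLike 𝕜] (F : Fin 3 → ℝ → 𝕜) :
    ∫ x : E3, ∏ c, F c (x c) = ∏ c, ∫ t, F c t := by
  rw [← integral_fintype_prod_volume_eq_prod F]
  exact mp.integral_comp emb (fun y : Fin 3 → ℝ => ∏ c, F c (y c))

lemma integrable_prod3 {𝕜 : Type} [RCLike 𝕜] {F : Fin 3 → ℝ → 𝕜} (hF : ∀ c, Integrable (F c)) :
    Integrable fun x : E3 => ∏ c, F c (x c) :=
  (mp.integrable_comp_emb emb (g := fun y : Fin 3 → ℝ => ∏ c, F c (y c))).2
    (Integrable.fintype_prod hF)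

/-- orbital -/
noncomputable def o3 (L : ℝ) (k : Fin 3 → ℤ) (x : E3) : ℂ := ∏ c, u L (k c) (x c)

/-- density of an orbital -/
noncomputable def p3 (L : ℝ) (x : E3) : ℝ := ∏ c, (f L (x c) ^ 2 / L)

/-- derivative of an orbital -/
noncomputable def d3 (L : ℝ) (k : Fin 3 → ℤ) (c : Fin 3) (x : E3) : ℂ :=
  ∏ c', if c' = c then du L (k c') (x c') else u L (k c') (x c')

lemma coord_smooth (c : Fin 3) : ContDiff ℝ ((⊤ : ℕ∞) : WithTop ℕ∞) (fun x : E3 => x c) :=
  (EuclideanSpace.proj (𝕜 := ℝ) c).contDiff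

lemma o3_smooth (L : ℝ) (k : Fin 3 → ℤ) : ContDiff ℝ ((⊤ : ℕ∞) : WithTop ℕ∞) (o3 L k) := by
  unfold o3
  exact contDiff_prod fun c _ => (u_smooth L (k c)).comp (coord_smooth c)

lemma o3_cont (L : ℝ) (k : Fin 3 → ℤ) : Continuous (o3 L k) := (o3_smooth L k).continuous

lemma p3_nonneg {L : ℝ} (hL : 0 ≤ L) (x : E3) : 0 ≤ p3 L x :=
  Finset.prod_nonneg fun c _ => by positivity

lemma p3_cont (L : ℝ) : Continuous (p3 L) := by
  unfold p3
  have := f_cont L
  refine continuous_finsetProd _ fun c _ => ?_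
  exact ((this.comp (coord_smooth c).continuous).pow 2).div_const _

lemma o3_norm {L : ℝ} (hL : 1 ≤ L) (k : Fin 3 → ℤ) (x : E3) : ‖o3 L k x‖ ^ 2 = p3 L x := by
  unfold o3 p3
  rw [norm_prod, ← Finset.prod_pow]
  exact Finset.prod_congr rfl fun c _ => u_norm hL _ _

/-- the box -/
def box (a b : ℝ) : Set E3 := {x | ∀ c, x c ∈ Set.Icc a b}

lemma box_compact (a b : ℝ) : IsCompact (box a b) := by
  have h : box a b = (fun x : E3 => WithLp.ofLp x) ⁻¹' (Set.univ.pi fun _ => Set.Icc a b) := by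
    ext x; simp only [box, Set.mem_ofPred_eq, Set.mem_preimage, Set.mem_pi, Set.mem_univ, true_implies]
  rw [h]
  exact (PiLp.homeomorph 2 (fun _ : Fin 3 => ℝ)).isCompact_preimage.2
    (isCompact_univ_pi fun _ => isCompact_Icc)

lemma box_meas (a b : ℝ) : MeasurableSet (box a b) := (box_compact a b).isClosed.measurableSet

lemma box_vol {a b : ℝ} : volume (box a b) = ENNReal.ofReal (b - a) ^ 3 := by
  have h : box a b = (fun x : E3 => WithLp.ofLp x) ⁻¹' (Set.univ.pi fun _ => Set.Icc a b) := by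
    ext x; simp only [box, Set.mem_ofPred_eq, Set.mem_preimage, Set.mem_pi, Set.mem_univ, true_implies]
  rw [h, mp.measure_preimage (MeasurableSet.univ_pi fun _ => measurableSet_Icc).nullMeasurableSet,
    volume_pi_pi]
  simp [Real.volume_Icc]

lemma not_box {a b : ℝ} {x : E3} (h : x ∉ box a b) : ∃ c, x c ≤ a ∨ b ≤ x c := by
  by_contra h2
  push Not at h2
  exact h fun c => ⟨(h2 c).1.le, (h2 c).2.le⟩

lemma o3_zero {L : ℝ} (k : Fin 3 → ℤ) {x : E3} (h : x ∉ box 0 (L + 1)) : o3 L k x = 0 := by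
  obtain ⟨c, hc⟩ := not_box h
  exact Finset.prod_eq_zero (Finset.mem_univ c) (u_zero _ hc)

lemma p3_zero {L : ℝ} {x : E3} (h : x ∉ box 0 (L + 1)) : p3 L x = 0 := by
  obtain ⟨c, hc⟩ := not_box h
  refine Finset.prod_eq_zero (Finset.mem_univ c) ?_
  have : f L (x c) = 0 := by
    rcases hc with h | h
    · exact f_left h
    · exact f_right h
  simp [this]

lemma o3_supp (L : ℝ) (k : Fin 3 → ℤ) : HasCompactSupport (o3 L k) :=
  HasCompactSupport.intro (box_compact 0 (L + 1)) fun _ hx => o3_zero k hx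

lemma p3_supp (L : ℝ) : HasCompactSupport (p3 L) :=
  HasCompactSupport.intro (box_compact 0 (L + 1)) fun _ hx => p3_zero hx

lemma p3_integrable (L : ℝ) : Integrable (p3 L) := (p3_cont L).integrable_of_hasCompactSupport (p3_supp L)

lemma p3_int {L : ℝ} (hL : 1 ≤ L) : ∫ x, p3 L x = 1 := by
  unfold p3
  rw [int_prod3 (fun _ t => f L t ^ 2 / L)]
  have : ∫ t, f L t ^ 2 / L = 1 := by
    rw [integral_div, f_sq_int hL, div_self (by linarith)]
  simp [this]

lemma p3_le {L : ℝ} (hL : 1 ≤ L) (x : E3) : p3 L x ≤ (L ^ 3)⁻¹ := by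
  have hL0 : 0 < L := by linarith
  unfold p3
  calc ∏ c, (f L (x c) ^ 2 / L) ≤ ∏ _c : Fin 3, (1 / L) := by
        refine Finset.prod_le_prod (fun c _ => by positivity) fun c _ => ?_
        gcongr
        exact pow_le_one₀ (f_nonneg _ _) (f_le_one _ _)
    _ = (L ^ 3)⁻¹ := by
        rw [Finset.prod_const, Finset.card_univ, Fintype.card_fin]; field_simp

lemma p3_mid {L : ℝ} {x : E3} (hx : x ∈ box 1 L) : p3 L x = (L ^ 3)⁻¹ := by
  unfold p3
  have : ∀ c, f L (x c) ^ 2 / L = 1 / L := fun c => by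
    rw [f_mid (hx c).1 (hx c).2, one_pow]
  simp_rw [this]
  rw [Finset.prod_const, Finset.card_univ, Fintype.card_fin, one_div, inv_pow]

lemma o3_orth {L : ℝ} (hL : 1 ≤ L) (k k' : Fin 3 → ℤ) :
    ∫ x, o3 L k x * conj (o3 L k' x) = if k = k' then 1 else 0 := by
  have h : ∀ x : E3, o3 L k x * conj (o3 L k' x) = ∏ c, (u L (k c) (x c) * conj (u L (k' c) (x c))) := by
    intro x
    unfold o3
    rw [map_prod, Finset.prod_mul_distrib]
  simp_rw [h]
  rw [int_prod3 (fun c t => u L (k c) t * conj (u L (k' c) t))]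
  simp_rw [u_orth hL]
  rw [Finset.prod_ite_zero]
  simp only [Finset.prod_const_one, Finset.mem_univ, true_implies]
  congr 1
  exact propext ⟨fun h => funext h, fun h c => by rw [h]⟩

lemma d3_eq (L : ℝ) (k : Fin 3 → ℤ) (x : E3) (c : Fin 3) :
    HasDerivAt (fun t : ℝ => o3 L k (x + t • EuclideanSpace.single c (1 : ℝ))) (d3 L k c x) 0 := by
  have h1 : ∀ c' ∈ (Finset.univ : Finset (Fin 3)), HasDerivAt
      (fun t : ℝ => u L (k c') ((x + t • EuclideanSpace.single c (1 : ℝ)) c'))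
      (if c' = c then du L (k c') (x c') else 0) 0 := by
    intro c' _
    by_cases h : c' = c
    · subst h
      rw [if_pos rfl]
      have h2 : HasDerivAt (fun t : ℝ => x c' + t) 1 0 := by
        simpa using (hasDerivAt_id (0 : ℝ)).const_add (x c')
      have h3 : HasDerivAt (u L (k c')) (du L (k c') (x c')) (x c' + 0) := by
        rw [add_zero]; exact u_deriv L (k c') (x c')
      have h4 := HasDerivAt.scomp (0 : ℝ) h3 h2
      simp only [one_smul] at h4
      refine h4.congr_of_eventuallyEq (Eventually.of_forall fun t => ?_)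
      simp
    · rw [if_neg h]
      refine (hasDerivAt_const (0 : ℝ) (u L (k c') (x c'))).congr_of_eventuallyEq
        (Eventually.of_forall fun t => ?_)
      simp [h]
  have h2 := HasDerivAt.fun_finsetProd h1
  refine h2.congr_deriv ?_
  rw [Finset.sum_eq_single c]
  · rw [if_pos rfl, d3, ← Finset.mul_prod_erase _ _ (Finset.mem_univ c), if_pos rfl, smul_eq_mul, mul_comm]
    congr 1
    refine Finset.prod_congr rfl fun c' hc' => ?_
    rw [if_neg (Finset.ne_of_mem_erase hc')]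
    simp
  · intro c' _ h
    rw [if_neg h, smul_zero]
  · intro h
    exact absurd (Finset.mem_univ c) h

lemma o3_fderiv (L : ℝ) (k : Fin 3 → ℤ) (x : E3) (c : Fin 3) :
    fderiv ℝ (o3 L k) x (EuclideanSpace.single c (1 : ℝ)) = d3 L k c x := by
  have h1 : HasFDerivAt (o3 L k) (fderiv ℝ (o3 L k) x) x :=
    ((o3_smooth L k).differentiable (by simp) x).hasFDerivAt
  have h2 : HasDerivAt (fun t : ℝ => x + t • (EuclideanSpace.single c (1 : ℝ) : E3))
      (EuclideanSpace.single c (1 : ℝ)) 0 := by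
    simpa using ((hasDerivAt_id (0 : ℝ)).smul_const (EuclideanSpace.single c (1 : ℝ) : E3)).const_add x
  have h3 : HasFDerivAt (o3 L k) (fderiv ℝ (o3 L k) x) (x + (0 : ℝ) • (EuclideanSpace.single c (1 : ℝ) : E3)) := by
    simpa using h1
  have h4 := h3.comp_hasDerivAt (0 : ℝ) h2
  exact h4.unique (d3_eq L k x c)

lemma d3_int {L : ℝ} (hL : 1 ≤ L) {C : ℝ} (hC : ∀ t : ℝ, |deriv (f L) t| ≤ C) (k : Fin 3 → ℤ)
    (c : Fin 3) : Integrable (fun x => ‖d3 L k c x‖ ^ 2) ∧
      ∫ x, ‖d3 L k c x‖ ^ 2 ≤ 2 * C ^ 2 + (2 * Real.pi * k c / L) ^ 2 := by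
  have hL0 : 0 < L := by linarith
  obtain ⟨h1, h2⟩ := du_int hL hC (k c)
  have h : ∀ x : E3, ‖d3 L k c x‖ ^ 2 =
      ∏ c', (fun t : ℝ => if c' = c then ‖du L (k c') t‖ ^ 2 else f L t ^ 2 / L) (x c') := by
    intro x
    unfold d3
    rw [norm_prod, ← Finset.prod_pow]
    refine Finset.prod_congr rfl fun c' _ => ?_
    by_cases h : c' = c
    · simp [h]
    · simp only [h, if_false]; exact u_norm hL _ _
  simp_rw [h]
  constructor
  · refine integrable_prod3 (F := fun c' t => if c' = c then ‖du L (k c') t‖ ^ 2 else f L t ^ 2 / L) ?_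
    intro c'
    by_cases h : c' = c
    · subst h; simpa using h1
    · simp only [h, if_false]; exact (f_sq_integrable L).div_const _
  · rw [int_prod3 (fun c' t => if c' = c then ‖du L (k c') t‖ ^ 2 else f L t ^ 2 / L)]
    have h3 : ∀ c', (∫ t, (if c' = c then ‖du L (k c') t‖ ^ 2 else f L t ^ 2 / L)) =
        if c' = c then ∫ t, ‖du L (k c) t‖ ^ 2 else 1 := by
      intro c'
      by_cases h : c' = c
      · subst h; simp
      · simp only [h, if_false]; rw [integral_div, f_sq_int hL, div_self hL0.ne']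
    simp_rw [h3]
    rw [Finset.prod_ite_eq']
    simpa using h2

end Pool.Agent.TH791.Ob
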