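import Mathlib

/-!
# Slater determinants over a general one-particle space

Adapted (general measure space `X` instead of `ℝᵈ`, weights instead of sets, exact exchange term)
from the starting files `Pool/Agent/W596/MY/Slater1.lean`, `Slater2.lean`, `Slater4.lean`.
-/

set_option autoImplicit false
set_option linter.unusedSectionVars false
set_option linter.dupNamespace false

namespace Pool.Agent.TH791.Sl

open MeasureTheory Filter Topology Equiv
open scoped ENNReal ComplexConjugate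

variable {X : Type} [MeasureSpace X] [SigmaFinite (volume : Measure X)] {N m n : ℕ}

/-- product of functions of separate variables -/
noncomputable def pr (u : Fin m → X → ℂ) (y : Fin m → X) : ℂ := ∏ k, u k (y k)

lemma pr_aesm {u : Fin m → X → ℂ} (hu : ∀ k, AEStronglyMeasurable (u k) volume) :
    AEStronglyMeasurable (pr u) volume := by
  unfold pr
  refine Finset.aestronglyMeasurable_fun_prod _ fun k _ => ?_
  exact (hu k).comp_quasiMeasurePreserving (Measure.quasiMeasurePreserving_eval _ k)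

lemma sq_integrable {V : Type} [MeasureSpace V] {u : V → ℂ} (hu : MemLp u 2) :
    Integrable (fun x => ‖u x‖ ^ 2) :=
  (memLp_two_iff_integrable_sq_norm hu.aestronglyMeasurable).1 hu

lemma pr_memLp {u : Fin m → X → ℂ} (hu : ∀ k, MemLp (u k) 2) : MemLp (pr u) 2 := by
  rw [memLp_two_iff_integrable_sq_norm (pr_aesm fun k => (hu k).aestronglyMeasurable)]
  have h : Integrable (fun y : Fin m → X => ∏ k, (‖u k (y k)‖ ^ 2)) := by
    exact Integrable.fintype_prod (f := fun k x => ‖u k x‖ ^ 2) fun k => sq_integrable (hu k)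
  refine h.congr (Eventually.of_forall fun y => ?_)
  simp only [pr, norm_prod, Finset.prod_pow]

lemma int_pr (u v : Fin m → X → ℂ) :
    ∫ y, pr u y * conj (pr v y) = ∏ k, ∫ x, u k x * conj (v k x) := by
  rw [← integral_fintype_prod_volume_eq_prod (fun k x => u k x * conj (v k x))]
  refine integral_congr_ae (Eventually.of_forall fun y => ?_)
  simp only [pr, map_prod, Finset.prod_mul_distrib]

lemma l2_mul_int {V : Type} [MeasureSpace V] {u v : V → ℂ} (hu : MemLp u 2) (hv : MemLp v 2) :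
    Integrable (fun x => u x * conj (v x)) := by
  have := hv.star
  exact hu.integrable_mul (q := 2) this

/-- partially integrated determinant-like sum -/
noncomputable def Phi (φ : Fin N → X → ℂ) (e : Fin m → Fin N) (α : Perm (Fin N) → ℂ)
    (y : Fin m → X) : ℂ := ∑ σ, α σ * pr (fun k => φ (σ (e k))) y

lemma Phi_memLp {φ : Fin N → X → ℂ} (hφ : ∀ a, MemLp (φ a) 2) (e : Fin m → Fin N)
    (α : Perm (Fin N) → ℂ) : MemLp (Phi φ e α) 2 := by
  unfold Phi
  refine memLp_finsetSum _ fun σ _ => ?_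
  exact (pr_memLp fun k => hφ _).const_mul _

lemma Phi_gram {φ : Fin N → X → ℂ} (hφ : ∀ a, MemLp (φ a) 2)
    (ho : ∀ a b, ∫ x, φ a x * conj (φ b x) = if a = b then 1 else 0) (e : Fin m → Fin N)
    (α : Perm (Fin N) → ℂ) :
    ((∫ y, ‖Phi φ e α y‖ ^ 2 : ℝ) : ℂ) =
      ∑ σ, ∑ τ, α σ * conj (α τ) * (if ∀ k, σ (e k) = τ (e k) then 1 else 0) := by
  have h1 : ((∫ y, ‖Phi φ e α y‖ ^ 2 : ℝ) : ℂ) = ∫ y, Phi φ e α y * conj (Phi φ e α y) := by
    rw [← integral_complex_ofReal]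
    refine integral_congr_ae (Eventually.of_forall fun y => ?_)
    simp only
    rw [Complex.mul_conj, Complex.normSq_eq_norm_sq]
  rw [h1]
  have h2 : ∀ y, Phi φ e α y * conj (Phi φ e α y) = ∑ σ, ∑ τ, α σ * conj (α τ) *
      (pr (fun k => φ (σ (e k))) y * conj (pr (fun k => φ (τ (e k))) y)) := by
    intro y
    rw [Phi, map_sum, Finset.sum_mul_sum]
    refine Finset.sum_congr rfl fun σ _ => Finset.sum_congr rfl fun τ _ => ?_
    rw [map_mul]; ring
  simp_rw [h2]
  have hint : ∀ σ τ : Perm (Fin N), Integrable fun y : Fin m → X => α σ * conj (α τ) *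
      (pr (fun k => φ (σ (e k))) y * conj (pr (fun k => φ (τ (e k))) y)) := fun σ τ =>
    (l2_mul_int (pr_memLp fun k => hφ _) (pr_memLp fun k => hφ _)).const_mul _
  rw [integral_finsetSum _ fun σ _ => integrable_finsetSum _ fun τ _ => hint σ τ]
  refine Finset.sum_congr rfl fun σ _ => ?_
  rw [integral_finsetSum _ fun τ _ => hint σ τ]
  refine Finset.sum_congr rfl fun τ _ => ?_
  rw [integral_const_mul, int_pr]
  congr 1
  simp_rw [ho]
  rw [Finset.prod_ite_zero]
  simp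

lemma perm_eq_one {n : ℕ} (i : Fin (n + 1)) (σ τ : Perm (Fin (n + 1)))
    (h : ∀ k, σ (i.succAbove k) = τ (i.succAbove k)) : σ = τ := by
  have hne : ∀ x, x ≠ i → σ x = τ x := by
    intro x hx
    obtain ⟨k, rfl⟩ := Fin.exists_succAbove_eq hx
    exact h k
  ext x
  congr 1
  by_cases hx : x = i
  · subst hx
    by_contra hc
    set y := τ.symm (σ x) with hy
    have h1 : τ y = σ x := by simp [hy]
    have hyx : y ≠ x := by rintro h2; rw [h2] at h1; exact hc h1.symm
    rw [← hne y hyx] at h1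
    exact hyx (σ.injective h1)
  · exact hne x hx

lemma perm_eq_two {n : ℕ} (i : Fin (n + 2)) (j' : Fin (n + 1)) (σ τ : Perm (Fin (n + 2))) :
    (∀ k, σ (i.succAbove (j'.succAbove k)) = τ (i.succAbove (j'.succAbove k))) ↔
      τ = σ ∨ τ = σ * swap i (i.succAbove j') := by
  set j := i.succAbove j' with hj
  have hij : j ≠ i := Fin.succAbove_ne _ _
  constructor
  · intro h
    have hne : ∀ x, x ≠ i → x ≠ j → σ x = τ x := by
      intro x hx hx'
      obtain ⟨k, rfl⟩ := Fin.exists_succAbove_eq hx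
      have : k ≠ j' := by rintro rfl; exact hx' hj.symm
      obtain ⟨l, rfl⟩ := Fin.exists_succAbove_eq this
      exact h l
    set π : Perm (Fin (n + 2)) := σ⁻¹ * τ with hπ
    have hfix : ∀ x, x ≠ i → x ≠ j → π x = x := by
      intro x hx hx'
      simp [hπ, Perm.mul_apply, ← hne x hx hx']
    have hτ : τ = σ * π := by simp [hπ]
    have hi : π i = i ∨ π i = j := by
      by_contra hc
      push Not at hc
      have := hfix (π i) hc.1 hc.2
      exact hc.1 (π.injective this)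
    have hjj : π j = i ∨ π j = j := by
      by_contra hc
      push Not at hc
      have := hfix (π j) hc.1 hc.2
      exact hc.2 (π.injective this)
    rcases hi with hi | hi
    · left
      have hj2 : π j = j := by
        rcases hjj with h1 | h1
        · exact absurd (π.injective (h1.trans hi.symm)) hij
        · exact h1
      have : π = 1 := by
        ext x
        by_cases hx : x = i
        · rw [hx, hi]; rfl
        · by_cases hx' : x = j
          · rw [hx', hj2]; rfl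
          · rw [hfix x hx hx']; rfl
      rw [hτ, this, mul_one]
    · right
      have hj2 : π j = i := by
        rcases hjj with h1 | h1
        · exact h1
        · exact absurd (π.injective (h1.trans hi.symm)) hij
      have : π = swap i j := by
        ext x
        by_cases hx : x = i
        · rw [hx, hi, swap_apply_left]
        · by_cases hx' : x = j
          · rw [hx', hj2, swap_apply_right]
          · rw [hfix x hx hx', swap_apply_of_ne_of_ne hx hx']
      rw [hτ, this]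
  · rintro (h | h) k
    · rw [h]
    · rw [h, Perm.mul_apply, swap_apply_of_ne_of_ne]
      · exact Fin.succAbove_ne _ _
      · rw [hj]
        intro h2
        exact Fin.succAbove_ne _ _ (Fin.succAbove_right_injective h2)

lemma gram_one {n : ℕ} {φ : Fin (n + 1) → X → ℂ} (hφ : ∀ a, MemLp (φ a) 2)
    (ho : ∀ a b, ∫ x, φ a x * conj (φ b x) = if a = b then 1 else 0) (i : Fin (n + 1))
    (α : Perm (Fin (n + 1)) → ℂ) :
    ∫ y, ‖Phi φ i.succAbove α y‖ ^ 2 = ∑ σ, ‖α σ‖ ^ 2 := by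
  have h := Phi_gram hφ ho i.succAbove α
  have h2 : ∑ σ, ∑ τ, α σ * conj (α τ) *
      (if ∀ k, σ (i.succAbove k) = τ (i.succAbove k) then (1 : ℂ) else 0) =
      ∑ σ, ((‖α σ‖ ^ 2 : ℝ) : ℂ) := by
    refine Finset.sum_congr rfl fun σ _ => ?_
    rw [Finset.sum_eq_single σ]
    · simp only [implies_true, if_true, mul_one]
      rw [Complex.mul_conj, Complex.normSq_eq_norm_sq]
    · intro τ _ hτ
      rw [if_neg, mul_zero]
      intro hc
      exact hτ (perm_eq_one i σ τ hc).symm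
    · simp
  rw [h2] at h
  exact_mod_cast h

lemma gram_two {n : ℕ} {φ : Fin (n + 2) → X → ℂ} (hφ : ∀ a, MemLp (φ a) 2)
    (ho : ∀ a b, ∫ x, φ a x * conj (φ b x) = if a = b then 1 else 0) (i : Fin (n + 2))
    (j' : Fin (n + 1)) (α : Perm (Fin (n + 2)) → ℂ) :
    ∫ y, ‖Phi φ (fun k => i.succAbove (j'.succAbove k)) α y‖ ^ 2 =
      ∑ σ, (‖α σ‖ ^ 2 + (α σ * conj (α (σ * swap i (i.succAbove j')))).re) := by
  have h := Phi_gram hφ ho (fun k => i.succAbove (j'.succAbove k)) α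
  have h2 : ∑ σ, ∑ τ, α σ * conj (α τ) *
      (if ∀ k, σ (i.succAbove (j'.succAbove k)) = τ (i.succAbove (j'.succAbove k)) then (1 : ℂ) else 0) =
      ∑ σ, (((‖α σ‖ ^ 2 : ℝ) : ℂ) + α σ * conj (α (σ * swap i (i.succAbove j')))) := by
    refine Finset.sum_congr rfl fun σ _ => ?_
    have hne : σ ≠ σ * swap i (i.succAbove j') := by
      intro hc
      have : swap i (i.succAbove j') = 1 := by
        have := congrArg (σ⁻¹ * ·) hc
        simpa using this.symm
      rw [swap_eq_one_iff] at this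
      exact Fin.succAbove_ne _ _ this.symm
    have h3 : ∀ τ, α σ * conj (α τ) *
      (if ∀ k, σ (i.succAbove (j'.succAbove k)) = τ (i.succAbove (j'.succAbove k)) then (1 : ℂ) else 0) =
      (if τ = σ then α σ * conj (α τ) else 0) +
        (if τ = σ * swap i (i.succAbove j') then α σ * conj (α τ) else 0) := by
      intro τ
      by_cases hc : ∀ k, σ (i.succAbove (j'.succAbove k)) = τ (i.succAbove (j'.succAbove k))
      · rw [if_pos hc, mul_one]
        rcases (perm_eq_two i j' σ τ).1 hc with h4 | h4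
        · rw [if_pos h4, if_neg (by rw [h4]; exact hne), add_zero]
        · rw [if_pos h4, if_neg (by rw [h4]; exact hne.symm), zero_add]
      · rw [if_neg hc, mul_zero]
        rw [perm_eq_two] at hc
        push Not at hc
        rw [if_neg hc.1, if_neg hc.2, add_zero]
    simp_rw [h3]
    rw [Finset.sum_add_distrib]
    simp only [Finset.sum_ite_eq', Finset.mem_univ, if_true]
    rw [Complex.mul_conj, Complex.normSq_eq_norm_sq]
  rw [h2] at h
  have h4 := congrArg Complex.re h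
  rw [Complex.ofReal_re, Complex.re_sum] at h4
  rw [h4]
  refine Finset.sum_congr rfl fun σ _ => ?_
  rw [Complex.add_re, Complex.ofReal_re]

/-- insertion of a variable -/
abbrev ins (i : Fin (n + 1)) (s : X) (y : Fin n → X) : Fin (n + 1) → X :=
  Fin.insertNth (α := fun _ => X) i s y

lemma mp_ins (i : Fin (n + 1)) : MeasurePreserving (fun p : X × (Fin n → X) => ins i p.1 p.2)
    ((volume : Measure (X)).prod volume) volume :=
  (volume_preserving_piFinSuccAbove (fun _ => X) i).symm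

lemma emb_ins (i : Fin (n + 1)) :
    MeasurableEmbedding (fun p : X × (Fin n → X) => ins i p.1 p.2) :=
  (MeasurableEquiv.piFinSuccAbove (fun _ => X) i).symm.measurableEmbedding

lemma lint_ins (i : Fin (n + 1)) {F : (Fin (n + 1) → X) → ℝ≥0∞} (hF : AEMeasurable F) :
    ∫⁻ x, F x = ∫⁻ s, ∫⁻ y, F (ins i s y) := by
  rw [← (mp_ins i).lintegral_comp_emb (emb_ins i), lintegral_prod]
  exact hF.comp_quasiMeasurePreserving (mp_ins i).quasiMeasurePreserving

/-- normalisation constant and signs -/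
noncomputable def cc (N : ℕ) (σ : Perm (Fin N)) : ℂ :=
  (((Real.sqrt (N.factorial : ℝ))⁻¹ : ℝ) : ℂ) * ((Perm.sign σ : ℤ) : ℂ)

lemma norm_cc (N : ℕ) (σ : Perm (Fin N)) : ‖cc N σ‖ ^ 2 = (N.factorial : ℝ)⁻¹ := by
  rw [cc, norm_mul, mul_pow, Complex.norm_real, Real.norm_eq_abs, sq_abs, inv_pow,
    Real.sq_sqrt (by positivity)]
  have : ‖((Perm.sign σ : ℤ) : ℂ)‖ = 1 := by
    rcases Int.units_eq_one_or (Perm.sign σ) with h | h <;> simp [h]
  rw [this]; simp

lemma cc_swap (N : ℕ) (σ : Perm (Fin N)) {i j : Fin N} (h : i ≠ j) :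
    cc N (σ * swap i j) = - cc N σ := by
  simp [cc, Perm.sign_mul, Perm.sign_swap h]

/-- the orbitals in their slots, with `h` in slot `i` -/
noncomputable def U (φ : Fin (n + 1) → X → ℂ) (i : Fin (n + 1)) (h : Fin (n + 1) → X → ℂ)
    (σ : Perm (Fin (n + 1))) : Fin (n + 1) → X → ℂ :=
  Fin.insertNth (α := fun _ => X → ℂ) i (h (σ i)) (fun k => φ (σ (i.succAbove k)))

/-- Slater determinant with `h` in slot `i` -/
noncomputable def SL (φ : Fin (n + 1) → X → ℂ) (i : Fin (n + 1)) (h : Fin (n + 1) → X → ℂ)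
    (x : Fin (n + 1) → X) : ℂ := ∑ σ, cc (n + 1) σ * pr (U φ i h σ) x

/-- Slater determinant -/
noncomputable def Psi (φ : Fin (n + 1) → X → ℂ) (x : Fin (n + 1) → X) : ℂ :=
  ∑ σ, cc (n + 1) σ * pr (fun k => φ (σ k)) x

lemma U_self (φ : Fin (n + 1) → X → ℂ) (i : Fin (n + 1)) (σ : Perm (Fin (n + 1))) :
    U φ i φ σ = fun k => φ (σ k) := by
  unfold U
  refine (Fin.insertNth_eq_iff).2 ⟨rfl, rfl⟩

lemma SL_self (φ : Fin (n + 1) → X → ℂ) (i : Fin (n + 1)) : SL φ i φ = Psi φ := by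
  funext x
  simp only [SL, Psi, U_self]

lemma pr_ins (i : Fin (n + 1)) (u : X → ℂ) (v : Fin n → X → ℂ) (s : X) (y : Fin n → X) :
    pr (Fin.insertNth (α := fun _ => X → ℂ) i u v) (ins i s y) = u s * pr v y := by
  simp only [pr, ins, Fin.prod_univ_succAbove _ i, Fin.insertNth_apply_same,
    Fin.insertNth_apply_succAbove]

lemma SL_ins (φ : Fin (n + 1) → X → ℂ) (i : Fin (n + 1)) (h : Fin (n + 1) → X → ℂ) (s : X)
    (y : Fin n → X) :
    SL φ i h (ins i s y) = Phi φ i.succAbove (fun σ => cc (n + 1) σ * h (σ i) s) y := by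
  simp only [SL, Phi, U, pr_ins]
  exact Finset.sum_congr rfl fun σ _ => by ring

lemma SL_memLp {φ h : Fin (n + 1) → X → ℂ} (hφ : ∀ a, MemLp (φ a) 2) (hh : ∀ a, MemLp (h a) 2)
    (i : Fin (n + 1)) : MemLp (SL φ i h) 2 := by
  unfold SL
  refine memLp_finsetSum _ fun σ _ => MemLp.const_mul ?_ _
  refine pr_memLp fun k => ?_
  unfold U
  refine Fin.succAboveCases i ?_ (fun k => ?_) k
  · rw [Fin.insertNth_apply_same]; exact hh _
  · rw [Fin.insertNth_apply_succAbove]; exact hφ _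

lemma sum_perm {N : ℕ} (f : Fin N → ℝ≥0∞) :
    ∑ i, ∑ σ : Perm (Fin N), f (σ i) = N.factorial * ∑ a, f a := by
  rw [Finset.sum_comm]
  have : ∀ σ : Perm (Fin N), ∑ i, f (σ i) = ∑ a, f a := fun σ => Equiv.sum_comp σ f
  simp [this, Fintype.card_perm]

/-- one-body formula -/
lemma one_body {φ h : Fin (n + 1) → X → ℂ} (hφ : ∀ a, MemLp (φ a) 2) (hh : ∀ a, MemLp (h a) 2)
    (ho : ∀ a b, ∫ x, φ a x * conj (φ b x) = if a = b then 1 else 0) (i : Fin (n + 1))
    {V : X → ℝ≥0∞} (hV : Measurable V) :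
    ∫⁻ x : Fin (n + 1) → X, V (x i) * ENNReal.ofReal (‖SL φ i h x‖ ^ 2) =
      ((n + 1).factorial : ℝ≥0∞)⁻¹ *
        ∑ σ : Perm (Fin (n + 1)), ∫⁻ s, V s * ENNReal.ofReal (‖h (σ i) s‖ ^ 2) := by
  have hm : AEMeasurable (fun x : Fin (n + 1) → X =>
      V (x i) * ENNReal.ofReal (‖SL φ i h x‖ ^ 2)) volume :=
    (hV.comp (measurable_pi_apply i)).aemeasurable.mul
    ((SL_memLp hφ hh i).aestronglyMeasurable.norm.aemeasurable.pow_const 2).ennreal_ofReal
  rw [lint_ins i hm]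
  have h1 : ∀ s, (∫⁻ y, V (ins i s y i) * ENNReal.ofReal (‖SL φ i h (ins i s y)‖ ^ 2)) =
      V s * (((n + 1).factorial : ℝ≥0∞)⁻¹ *
        ∑ σ : Perm (Fin (n + 1)), ENNReal.ofReal (‖h (σ i) s‖ ^ 2)) := by
    intro s
    simp_rw [SL_ins]
    simp only [ins, Fin.insertNth_apply_same]
    have hme := ((Phi_memLp hφ i.succAbove
      (fun σ => cc (n + 1) σ * h (σ i) s)).aestronglyMeasurable.norm.aemeasurable.pow_const
      2).ennreal_ofReal
    rw [lintegral_const_mul'' _ hme]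
    rw [← ofReal_integral_eq_lintegral_ofReal (sq_integrable (Phi_memLp hφ _ _))
      (Eventually.of_forall fun y => by positivity), gram_one hφ ho]
    simp_rw [norm_mul, mul_pow, norm_cc]
    rw [← Finset.mul_sum, ENNReal.ofReal_mul (by positivity),
      ENNReal.ofReal_sum_of_nonneg fun _ _ => by positivity, ENNReal.ofReal_inv_of_pos (by positivity)]
    simp
  simp_rw [h1]
  have h2 : ∀ s, V s * (((n + 1).factorial : ℝ≥0∞)⁻¹ *
        ∑ σ : Perm (Fin (n + 1)), ENNReal.ofReal (‖h (σ i) s‖ ^ 2)) =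
      ((n + 1).factorial : ℝ≥0∞)⁻¹ *
        ∑ σ : Perm (Fin (n + 1)), V s * ENNReal.ofReal (‖h (σ i) s‖ ^ 2) := by
    intro s
    rw [← Finset.mul_sum]; ring
  simp_rw [h2]
  rw [lintegral_const_mul', lintegral_finsetSum']
  · intro σ _
    exact hV.aemeasurable.mul
      ((hh _).aestronglyMeasurable.norm.aemeasurable.pow_const 2).ennreal_ofReal
  · simp [Nat.factorial_ne_zero]

lemma one_body_sum {φ h : Fin (n + 1) → X → ℂ} (hφ : ∀ a, MemLp (φ a) 2) (hh : ∀ a, MemLp (h a) 2)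
    (ho : ∀ a b, ∫ x, φ a x * conj (φ b x) = if a = b then 1 else 0)
    {V : X → ℝ≥0∞} (hV : Measurable V) :
    ∑ i, ∫⁻ x : Fin (n + 1) → X, V (x i) * ENNReal.ofReal (‖SL φ i h x‖ ^ 2) =
        ∑ a, ∫⁻ s, V s * ENNReal.ofReal (‖h a s‖ ^ 2) := by
  simp_rw [one_body hφ hh ho _ hV]
  rw [← Finset.mul_sum, sum_perm (fun a => ∫⁻ s, V s * ENNReal.ofReal (‖h a s‖ ^ 2)), ← mul_assoc,
    ENNReal.inv_mul_cancel (by simp [Nat.factorial_ne_zero]) (by simp), one_mul]

lemma lint_sq {V : Type} [MeasureSpace V] {u : V → ℂ} (hu : MemLp u 2) :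
    ∫⁻ x, ENNReal.ofReal (‖u x‖ ^ 2) = ENNReal.ofReal (∫ x, ‖u x‖ ^ 2) := by
  rw [ofReal_integral_eq_lintegral_ofReal (sq_integrable hu)
        (Eventually.of_forall fun y => by positivity)]

lemma kin_sum {φ h : Fin (n + 1) → X → ℂ} (hφ : ∀ a, MemLp (φ a) 2) (hh : ∀ a, MemLp (h a) 2)
    (ho : ∀ a b, ∫ x, φ a x * conj (φ b x) = if a = b then 1 else 0) :
    ∑ i, ∫ x, ‖SL φ i h x‖ ^ 2 = ∑ a, ∫ s, ‖h a s‖ ^ 2 := by
  have h1 := one_body_sum hφ hh ho (V := fun _ => 1) measurable_const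
  simp only [one_mul] at h1
  simp_rw [lint_sq (hh _), lint_sq (SL_memLp hφ hh _)] at h1
  rw [← ENNReal.ofReal_sum_of_nonneg fun _ _ => integral_nonneg fun _ => by positivity,
    ← ENNReal.ofReal_sum_of_nonneg fun _ _ => integral_nonneg fun _ => by positivity] at h1
  refine (ENNReal.ofReal_eq_ofReal_iff ?_ ?_).1 h1
  · exact Finset.sum_nonneg fun _ _ => integral_nonneg fun _ => by positivity
  · exact Finset.sum_nonneg fun _ _ => integral_nonneg fun _ => by positivity

lemma norm_Psi {φ : Fin (n + 1) → X → ℂ} (hφ : ∀ a, MemLp (φ a) 2)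
    (ho : ∀ a b, ∫ x, φ a x * conj (φ b x) = if a = b then 1 else 0) :
    ∫ x, ‖Psi φ x‖ ^ 2 = 1 := by
  have h1 := kin_sum hφ hφ ho
  simp_rw [SL_self] at h1
  have h2 : ∀ a, ∫ s, ‖φ a s‖ ^ 2 = 1 := by
    intro a
    have := ho a a
    rw [if_pos rfl] at this
    have h3 : ∫ x, φ a x * conj (φ a x) = ((∫ s, ‖φ a s‖ ^ 2 : ℝ) : ℂ) := by
      rw [← integral_complex_ofReal]
      refine integral_congr_ae (Eventually.of_forall fun y => ?_)
      simp only
      rw [Complex.mul_conj, Complex.normSq_eq_norm_sq]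
    rw [h3] at this
    exact_mod_cast this
  simp_rw [h2] at h1
  simp only [Finset.sum_const, Finset.card_univ, Fintype.card_fin, nsmul_eq_mul, mul_one] at h1
  have h3 : ((n + 1 : ℕ) : ℝ) ≠ 0 := by positivity
  have h4 : ((n + 1 : ℕ) : ℝ) * ∫ x, ‖Psi φ x‖ ^ 2 = ((n + 1 : ℕ) : ℝ) * 1 := by rw [h1, mul_one]
  exact mul_left_cancel₀ h3 h4

lemma Phi_ins {N : ℕ} (φ : Fin N → X → ℂ) (e : Fin (n + 1) → Fin N) (α : Perm (Fin N) → ℂ)
    (j : Fin (n + 1)) (t : X) (z : Fin n → X) :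
    Phi φ e α (ins j t z) = Phi φ (fun k => e (j.succAbove k)) (fun σ => α σ * φ (σ (e j)) t) z := by
  simp only [Phi, pr, Fin.prod_univ_succAbove _ j, Fin.insertNth_apply_same,
    Fin.insertNth_apply_succAbove]
  exact Finset.sum_congr rfl fun σ _ => by ring

/-- the two-body term -/
noncomputable def rr (φ : Fin (n + 2) → X → ℂ) (s t : X) (a b : Fin (n + 2)) : ℝ :=
  ‖φ a s‖ ^ 2 * ‖φ b t‖ ^ 2 - (φ a s * φ b t * conj (φ b s) * conj (φ a t)).re

lemma rr_self (φ : Fin (n + 2) → X → ℂ) (s t : X) (a : Fin (n + 2)) : rr φ s t a a = 0 := by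
  unfold rr
  have : φ a s * φ a t * conj (φ a s) * conj (φ a t) = ((‖φ a s‖ ^ 2 * ‖φ a t‖ ^ 2 : ℝ) : ℂ) := by
    have h1 : φ a s * conj (φ a s) = ((‖φ a s‖ ^ 2 : ℝ) : ℂ) := by
      rw [Complex.mul_conj, Complex.normSq_eq_norm_sq]
    have h2 : φ a t * conj (φ a t) = ((‖φ a t‖ ^ 2 : ℝ) : ℂ) := by
      rw [Complex.mul_conj, Complex.normSq_eq_norm_sq]
    calc _ = (φ a s * conj (φ a s)) * (φ a t * conj (φ a t)) := by ring
      _ = _ := by rw [h1, h2]; push_cast; ring
  rw [this, Complex.ofReal_re]; ring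

lemma rr_sum (φ : Fin (n + 2) → X → ℂ) (s t : X) :
    ∑ a, ∑ b, rr φ s t a b = (∑ a, ‖φ a s‖ ^ 2) * (∑ a, ‖φ a t‖ ^ 2) -
      ‖∑ a, φ a s * conj (φ a t)‖ ^ 2 := by
  simp only [rr, Finset.sum_sub_distrib]
  rw [Finset.sum_mul_sum]
  have h : ∑ a, ∑ b, (φ a s * φ b t * conj (φ b s) * conj (φ a t)).re =
      ‖∑ a, φ a s * conj (φ a t)‖ ^ 2 := by
    have h1 : ∑ a, ∑ b, (φ a s * φ b t * conj (φ b s) * conj (φ a t)) =
        (∑ a, φ a s * conj (φ a t)) * conj (∑ a, φ a s * conj (φ a t)) := by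
      rw [map_sum, Finset.sum_mul_sum]
      refine Finset.sum_congr rfl fun a _ => Finset.sum_congr rfl fun b _ => ?_
      rw [map_mul, Complex.conj_conj]; ring
    have h2 := congrArg Complex.re h1
    rw [Complex.mul_conj, Complex.ofReal_re, Complex.normSq_eq_norm_sq, Complex.re_sum] at h2
    simp_rw [Complex.re_sum] at h2
    exact h2
  rw [h]

/-- the inner integral -/
noncomputable def RR (φ : Fin (n + 2) → X → ℂ) (i : Fin (n + 2)) (j : Fin (n + 1)) (s t : X) : ℝ :=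
  ((n + 2).factorial : ℝ)⁻¹ * ∑ σ : Perm (Fin (n + 2)), rr φ s t (σ i) (σ (i.succAbove j))

lemma inner_RR {φ : Fin (n + 2) → X → ℂ} (hφ : ∀ a, MemLp (φ a) 2)
    (ho : ∀ a b, ∫ x, φ a x * conj (φ b x) = if a = b then 1 else 0) (i : Fin (n + 2))
    (j : Fin (n + 1)) (s t : X) :
    ∫ z, ‖Phi φ (fun k => i.succAbove (j.succAbove k))
      (fun σ => cc (n + 2) σ * φ (σ i) s * φ (σ (i.succAbove j)) t) z‖ ^ 2 = RR φ i j s t := by
  rw [gram_two hφ ho, RR, Finset.mul_sum]
  refine Finset.sum_congr rfl fun σ _ => ?_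
  have hne : i ≠ i.succAbove j := (Fin.succAbove_ne _ _).symm
  rw [cc_swap _ _ hne, Perm.mul_apply, Perm.mul_apply, swap_apply_left, swap_apply_right,
    norm_mul, norm_mul, mul_pow, mul_pow, norm_cc, rr]
  have h1 : cc (n + 2) σ * φ (σ i) s * φ (σ (i.succAbove j)) t *
      conj (-cc (n + 2) σ * φ (σ (i.succAbove j)) s * φ (σ i) t) =
      -((((n + 2).factorial : ℝ)⁻¹ : ℝ) : ℂ) *
        (φ (σ i) s * φ (σ (i.succAbove j)) t * conj (φ (σ (i.succAbove j)) s) * conj (φ (σ i) t)) := by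
    have h2 : cc (n + 2) σ * conj (cc (n + 2) σ) = ((((n + 2).factorial : ℝ)⁻¹ : ℝ) : ℂ) := by
      rw [Complex.mul_conj, Complex.normSq_eq_norm_sq, norm_cc]
    rw [← h2]
    simp only [map_mul, map_neg]
    ring
  rw [h1, neg_mul, Complex.neg_re, Complex.re_ofReal_mul]
  ring

lemma pair_formula {φ : Fin (n + 2) → X → ℂ} (hφ : ∀ a, MemLp (φ a) 2)
    (ho : ∀ a b, ∫ x, φ a x * conj (φ b x) = if a = b then 1 else 0) (i : Fin (n + 2))
    (j : Fin (n + 1)) {w : X → X → ℝ≥0∞} (hw : Measurable fun p : X × X => w p.1 p.2) :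
    ∫⁻ x : Fin (n + 2) → X, w (x i) (x (i.succAbove j)) * ENNReal.ofReal (‖Psi φ x‖ ^ 2) =
      ∫⁻ s, ∫⁻ t, w s t * ENNReal.ofReal (RR φ i j s t) := by
  have hΨ : MemLp (Psi φ) 2 := by rw [← SL_self φ 0]; exact SL_memLp hφ hφ 0
  have hF : AEMeasurable (fun x : Fin (n + 2) → X =>
      w (x i) (x (i.succAbove j)) * ENNReal.ofReal (‖Psi φ x‖ ^ 2)) volume := by
    refine AEMeasurable.mul (Measurable.aemeasurable ?_) ?_
    · exact hw.comp (g := fun p : X × X => w p.1 p.2) (f := fun x : Fin (n + 2) → X =>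
        (x i, x (i.succAbove j))) ((measurable_pi_apply i).prodMk (measurable_pi_apply _))
    · exact (hΨ.aestronglyMeasurable.norm.aemeasurable.pow_const 2).ennreal_ofReal
  rw [lint_ins i hF]
  refine lintegral_congr fun s => ?_
  have e1 : ∀ y, w (ins i s y i) (ins i s y (i.succAbove j)) * ENNReal.ofReal (‖Psi φ (ins i s y)‖ ^ 2) =
      w s (y j) * ENNReal.ofReal
        (‖Phi φ i.succAbove (fun σ => cc (n + 2) σ * φ (σ i) s) y‖ ^ 2) := by
    intro y
    rw [← SL_self φ i, SL_ins]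
    simp
  simp_rw [e1]
  have hF2 : AEMeasurable (fun y : Fin (n + 1) → X => w s (y j) * ENNReal.ofReal
        (‖Phi φ i.succAbove (fun σ => cc (n + 2) σ * φ (σ i) s) y‖ ^ 2)) volume := by
    refine AEMeasurable.mul (Measurable.aemeasurable ?_) ?_
    · exact hw.comp (g := fun p : X × X => w p.1 p.2) (f := fun y : Fin (n + 1) → X =>
        (s, y j)) (measurable_const.prodMk (measurable_pi_apply _))
    · exact ((Phi_memLp hφ _ _).aestronglyMeasurable.norm.aemeasurable.pow_const 2).ennreal_ofReal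
  rw [lint_ins j hF2]
  refine lintegral_congr fun t => ?_
  simp_rw [Phi_ins]
  have hm := ((Phi_memLp hφ (fun k => i.succAbove (j.succAbove k))
    (fun σ => cc (n + 2) σ * φ (σ i) s * φ (σ (i.succAbove j)) t)).aestronglyMeasurable.norm.aemeasurable.pow_const 2).ennreal_ofReal
  simp only [Fin.insertNth_apply_same]
  rw [lintegral_const_mul'' _ hm, lint_sq (Phi_memLp hφ _ _), inner_RR hφ ho]

lemma RR_sum (φ : Fin (n + 2) → X → ℂ) (s t : X) :
    ∑ i, ∑ j, RR φ i j s t = (∑ a, ‖φ a s‖ ^ 2) * (∑ a, ‖φ a t‖ ^ 2) -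
      ‖∑ a, φ a s * conj (φ a t)‖ ^ 2 := by
  refine Eq.trans ?_ (rr_sum φ s t)
  simp only [RR, ← Finset.mul_sum]
  have h1 : ∀ i : Fin (n + 2), ∑ j : Fin (n + 1), ∑ σ : Perm (Fin (n + 2)),
      rr φ s t (σ i) (σ (i.succAbove j)) =
      ∑ σ : Perm (Fin (n + 2)), ∑ j : Fin (n + 2), rr φ s t (σ i) (σ j) := by
    intro i
    rw [Finset.sum_comm]
    refine Finset.sum_congr rfl fun σ _ => ?_
    rw [Fin.sum_univ_succAbove _ i, rr_self, zero_add]
  simp_rw [h1]
  rw [Finset.sum_comm]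
  have h2 : ∀ σ : Perm (Fin (n + 2)), ∑ i, ∑ j, rr φ s t (σ i) (σ j) = ∑ a, ∑ b, rr φ s t a b := by
    intro σ
    rw [← Equiv.sum_comp σ (fun a => ∑ b, rr φ s t a b)]
    refine Finset.sum_congr rfl fun i _ => ?_
    rw [← Equiv.sum_comp σ (fun b => rr φ s t (σ i) b)]
  simp_rw [h2]
  rw [Finset.sum_const, Finset.card_univ, Fintype.card_perm, Fintype.card_fin, nsmul_eq_mul,
    ← mul_assoc, inv_mul_cancel₀ (by positivity), one_mul]


lemma RR_nonneg {φ : Fin (n + 2) → X → ℂ} (hφ : ∀ a, MemLp (φ a) 2)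
    (ho : ∀ a b, ∫ x, φ a x * conj (φ b x) = if a = b then 1 else 0) (i : Fin (n + 2))
    (j : Fin (n + 1)) (s t : X) : 0 ≤ RR φ i j s t := by
  rw [← inner_RR hφ ho]
  exact integral_nonneg fun _ => by positivity

lemma RR_meas {φ : Fin (n + 2) → X → ℂ} (hm : ∀ a, Measurable (φ a)) (i : Fin (n + 2))
    (j : Fin (n + 1)) : Measurable fun p : X × X => RR φ i j p.1 p.2 := by
  have h1 : ∀ a, Measurable fun p : X × X => φ a p.1 := fun a => (hm a).comp measurable_fst
  have h2 : ∀ a, Measurable fun p : X × X => φ a p.2 := fun a => (hm a).comp measurable_snd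
  unfold RR rr
  refine Measurable.const_mul (Finset.measurable_sum _ fun σ _ => ?_) _
  refine Measurable.sub (((h1 _).norm.pow_const 2).mul ((h2 _).norm.pow_const 2)) ?_
  refine Complex.measurable_re.comp ?_
  refine (((h1 _).mul (h2 _)).mul ?_).mul ?_
  · exact Complex.continuous_conj.measurable.comp (h1 _)
  · exact Complex.continuous_conj.measurable.comp (h2 _)

lemma RR_sum_lint {a b : ℕ} {F : Fin a → Fin b → X → X → ℝ≥0∞}
    (h2 : ∀ i j s, Measurable (F i j s)) (h3 : ∀ i j, Measurable fun s => ∫⁻ t, F i j s t) :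
    ∫⁻ s, ∫⁻ t, ∑ i, ∑ j, F i j s t = ∑ i, ∑ j, ∫⁻ s, ∫⁻ t, F i j s t := by
  have e1 : ∀ s, ∫⁻ t, ∑ i, ∑ j, F i j s t = ∑ i, ∑ j, ∫⁻ t, F i j s t := by
    intro s
    rw [lintegral_finsetSum _ fun i _ => Finset.measurable_sum _ fun j _ => h2 i j s]
    refine Finset.sum_congr rfl fun i _ => ?_
    rw [lintegral_finsetSum _ fun j _ => h2 i j s]
  simp_rw [e1]
  rw [lintegral_finsetSum _ fun i _ => Finset.measurable_sum _ fun j _ => h3 i j]
  refine Finset.sum_congr rfl fun i _ => ?_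
  rw [lintegral_finsetSum _ fun j _ => h3 i j]

/-- two-body formula -/
lemma two_body {φ : Fin (n + 2) → X → ℂ} (hφ : ∀ a, MemLp (φ a) 2) (hm : ∀ a, Measurable (φ a))
    (ho : ∀ a b, ∫ x, φ a x * conj (φ b x) = if a = b then 1 else 0)
    {w : X → X → ℝ≥0∞} (hw : Measurable fun p : X × X => w p.1 p.2) :
    ∑ i : Fin (n + 2), ∑ j : Fin (n + 2), (if i = j then 0 else
          ∫⁻ x : Fin (n + 2) → X, w (x i) (x j) * ENNReal.ofReal (‖Psi φ x‖ ^ 2)) =
          ∫⁻ s, ∫⁻ t, w s t * ENNReal.ofReal ((∑ a, ‖φ a s‖ ^ 2) * (∑ a, ‖φ a t‖ ^ 2) -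
            ‖∑ a, φ a s * conj (φ a t)‖ ^ 2) := by
  have h1 : ∀ i : Fin (n + 2), ∑ j : Fin (n + 2), (if i = j then 0 else
          ∫⁻ x : Fin (n + 2) → X, w (x i) (x j) * ENNReal.ofReal (‖Psi φ x‖ ^ 2)) =
      ∑ j : Fin (n + 1), ∫⁻ s, ∫⁻ t, w s t * ENNReal.ofReal (RR φ i j s t) := by
    intro i
    rw [Fin.sum_univ_succAbove _ i, if_pos rfl, zero_add]
    refine Finset.sum_congr rfl fun j _ => ?_
    rw [← pair_formula hφ ho i j hw, if_neg (Fin.succAbove_ne _ _).symm]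
  simp_rw [h1]
  have hmeas : ∀ (i : Fin (n + 2)) (j : Fin (n + 1)),
      Measurable fun p : X × X => w p.1 p.2 * ENNReal.ofReal (RR φ i j p.1 p.2) := fun i j =>
    hw.mul (RR_meas hm i j).ennreal_ofReal
  have h2 : ∀ (i : Fin (n + 2)) (j : Fin (n + 1)), ∀ s,
      Measurable fun t => w s t * ENNReal.ofReal (RR φ i j s t) := fun i j s =>
    (hmeas i j).comp (g := fun p : X × X => w p.1 p.2 * ENNReal.ofReal (RR φ i j p.1 p.2))
      (f := fun t => (s, t)) (measurable_const.prodMk measurable_id)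
  have h3 : ∀ (i : Fin (n + 2)) (j : Fin (n + 1)),
      Measurable fun s => ∫⁻ t, w s t * ENNReal.ofReal (RR φ i j s t) := fun i j =>
    (hmeas i j).lintegral_prod_right'
  rw [← RR_sum_lint h2 h3]
  refine lintegral_congr fun s => lintegral_congr fun t => ?_
  rw [← RR_sum, ENNReal.ofReal_sum_of_nonneg fun i _ => Finset.sum_nonneg fun j _ =>
    RR_nonneg hφ ho i j s t, Finset.mul_sum]
  refine Finset.sum_congr rfl fun i _ => ?_
  rw [ENNReal.ofReal_sum_of_nonneg fun j _ => RR_nonneg hφ ho i j s t, Finset.mul_sum]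

/-- antisymmetry -/
lemma Psi_perm {N : ℕ} (φ : Fin (N + 1) → X → ℂ) (τ : Perm (Fin (N + 1))) (x : Fin (N + 1) → X) :
    Psi φ (x ∘ τ) = ((Perm.sign τ : ℤ) : ℂ) * Psi φ x := by
  simp only [Psi]
  rw [Finset.mul_sum, ← Equiv.sum_comp (Equiv.mulRight τ)]
  refine Finset.sum_congr rfl fun σ _ => ?_
  simp only [Equiv.coe_mulRight, pr, Function.comp, cc, Perm.sign_mul]
  have h1 : ∏ k, φ ((σ * τ) k) (x (τ k)) = ∏ k, φ (σ k) (x k) := by
    exact Equiv.prod_comp τ (fun k => φ (σ k) (x k))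
  rw [h1]
  push_cast
  ring

end Pool.Agent.TH791.Sl
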