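import Mathlib

/-!
# Integration over position and spin variables
-/

set_option autoImplicit false

namespace Pool.Agent.TH791.Sp

open MeasureTheory Filter Topology
open scoped ENNReal

/-- the two spin states, with counting measure -/
def Spin : Type := Fin 2

instance : Fintype Spin := inferInstanceAs (Fintype (Fin 2))
instance : DecidableEq Spin := inferInstanceAs (DecidableEq (Fin 2))
instance : MeasurableSpace Spin := ⊤
instance : DiscreteMeasurableSpace Spin := ⟨fun _ => trivial⟩
noncomputable instance : MeasureSpace Spin := ⟨Measure.count⟩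

lemma vol_spin : (volume : Measure Spin) = Measure.count := rfl

instance : SigmaFinite (volume : Measure Spin) := inferInstanceAs (SigmaFinite (Measure.count : Measure Spin))

lemma vol_pi (N : ℕ) : (volume : Measure (Fin N → Spin)) = Measure.count := by
  refine Measure.ext_of_singleton fun σ => ?_
  rw [Measure.count_singleton, volume_pi, ← Set.univ_pi_singleton, Measure.pi_pi]
  simp [vol_spin]

variable {E : Type} [MeasureSpace E] [SigmaFinite (volume : Measure E)]

/-- combine positions and spins -/
def zip {N : ℕ} (x : Fin N → E) (σ : Fin N → Spin) : Fin N → E × Spin := fun i => (x i, σ i)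

lemma mp (N : ℕ) : MeasurePreserving (MeasurableEquiv.arrowProdEquivProdArrow E Spin (Fin N)).symm :=
  (volume_measurePreserving_arrowProdEquivProdArrow E Spin (Fin N)).symm

lemma mp_apply {N : ℕ} (p : (Fin N → E) × (Fin N → Spin)) :
    (MeasurableEquiv.arrowProdEquivProdArrow E Spin (Fin N)).symm p = zip p.1 p.2 := rfl

lemma prod_count {A B : Type} [MeasureSpace A] [SigmaFinite (volume : Measure A)] [Fintype B]
    [MeasurableSpace B] [DiscreteMeasurableSpace B] {F : A × B → ℝ}
    (hF : Integrable F ((volume : Measure A).prod Measure.count)) :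
    (∀ b, Integrable fun a => F (a, b)) ∧
      ∑ b, ∫ a, F (a, b) = ∫ p, F p ∂((volume : Measure A).prod Measure.count) := by
  have h1 := (integrable_prod_iff' hF.aestronglyMeasurable).1 hF
  have h2 := Measure.ae_count_iff.1 h1.1
  refine ⟨h2, ?_⟩
  rw [integral_prod_symm _ hF, integral_fintype]
  · simp [Measure.real]
  · exact Integrable.of_finite

lemma spin_int {N : ℕ} {H : (Fin N → E × Spin) → ℝ} (hH : Integrable H) :
    (∀ σ, Integrable fun x => H (zip x σ)) ∧ ∑ σ, ∫ x, H (zip x σ) = ∫ q, H q := by
  have h1 : Integrable (fun p : (Fin N → E) × (Fin N → Spin) => H (zip p.1 p.2))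
      ((volume : Measure (Fin N → E)).prod Measure.count) := by
    have := (mp (E := E) N).integrable_comp_of_integrable hH
    rw [← vol_pi]
    exact this
  obtain ⟨h2, h3⟩ := prod_count h1
  refine ⟨h2, ?_⟩
  rw [h3, ← vol_pi]
  exact (mp (E := E) N).integral_comp (MeasurableEquiv.measurableEmbedding _) H

lemma lint_pair {H : E × Spin → ℝ≥0∞} (hH : Measurable H) :
    ∫⁻ q, H q = ∑ s, ∫⁻ x, H (x, s) := by
  have : (volume : Measure (E × Spin)) = (volume : Measure E).prod (Measure.count : Measure Spin) := rfl
  rw [this, lintegral_prod_symm _ hH.aemeasurable, lintegral_fintype]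
  simp

lemma int_pair {𝕜 : Type} [RCLike 𝕜] {H : E × Spin → 𝕜} (hH : Integrable H) :
    ∫ q, H q = ∑ s, ∫ x, H (x, s) := by
  have e : (volume : Measure (E × Spin)) = (volume : Measure E).prod (Measure.count : Measure Spin) := rfl
  rw [e] at hH ⊢
  rw [integral_prod_symm _ hH, integral_fintype]
  · simp [Measure.real]
  · exact Integrable.of_finite

end Pool.Agent.TH791.Sp
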