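import Pool.Agent.TH791.Newt
import Pool.Agent.TH791.Defs

/-!
# A lower bound for the Thomas-Fermi energy with hydrogen nuclei
-/

set_option autoImplicit false

namespace Pool.Agent.TH791.Tl

open MeasureTheory Filter Topology Metric
open Pool.Agent.TH791.QM
open Pool.Agent.TH791.Cl hiding E3
open Pool.Agent.TH791.Nw
open scoped ENNReal

/-- Thomas-Fermi constant -/
noncomputable def gam : ℝ := 3 / 5 * (3 * Real.pi ^ 2) ^ (2 / 3 : ℝ)

/-- dual constant -/
noncomputable def cst : ℝ := 2 / (15 * Real.pi ^ 2)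

lemma cst_pos : 0 < cst := by unfold cst; have := Real.pi_pos; positivity

lemma young {a b : ℝ} (ha : 0 ≤ a) (hb : 0 ≤ b) :
    b * a ≤ gam * a ^ (5 / 3 : ℝ) + cst * b ^ (5 / 2 : ℝ) := by
  have hp : 0 < 3 * Real.pi ^ 2 := by have := Real.pi_pos; positivity
  set θ : ℝ := (3 * Real.pi ^ 2) ^ (2 / 5 : ℝ) with hθ
  have hθ0 : 0 < θ := Real.rpow_pos_of_pos hp _
  have hpq : (5/3 : ℝ).HolderConjugate (5/2 : ℝ) := by
    rw [Real.holderConjugate_iff]; norm_num
  have h1 := Real.young_inequality_of_nonneg (mul_nonneg hθ0.le ha)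
    (mul_nonneg (inv_pos.mpr hθ0).le hb) hpq
  have h2 : (θ * a) * (θ⁻¹ * b) = b * a := by
    field_simp
  have h3 : (θ * a) ^ (5/3 : ℝ) = (3 * Real.pi ^ 2) ^ (2 / 3 : ℝ) * a ^ (5/3 : ℝ) := by
    rw [Real.mul_rpow hθ0.le ha, hθ, ← Real.rpow_mul hp.le]
    norm_num
  have h4 : (θ⁻¹ * b) ^ (5/2 : ℝ) = (3 * Real.pi ^ 2)⁻¹ * b ^ (5/2 : ℝ) := by
    rw [Real.mul_rpow (inv_pos.mpr hθ0).le hb, hθ, Real.inv_rpow hθ0.le, hθ, ← Real.rpow_mul hp.le]
    norm_num
  rw [h2, h3, h4] at h1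
  refine h1.trans (le_of_eq ?_)
  unfold gam cst
  field_simp
  ring

/-- positive part of `Yf` -/
noncomputable def Ye (s : ℝ) (u : E3) : ℝ≥0∞ := ENNReal.ofReal (Yf s ‖u‖)

lemma Ye_meas (s : ℝ) : Measurable (Ye s) := ((Yf_meas s).comp measurable_norm).ennreal_ofReal

variable {N : ℕ}

/-- the potential of all nuclei minus the potential of the smeared nuclei, to the power `5/2` -/
noncomputable def Ph (s : ℝ) (R : Fin N → E3) : ℝ≥0∞ := ∫⁻ x, (∑ j, Ye s (x - R j)) ^ (5 / 2 : ℝ)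

/-- smeared nuclei -/
noncomputable def NR (s : ℝ) (R : Fin N → E3) (x : E3) : ℝ := ∑ j, gb s (R j) x

lemma nice_zero : Nice fun _ => 0 := by
  refine ⟨measurable_const, integrable_zero _ _ _, ?_⟩
  have : (fun _ : E3 => |(0 : ℝ)| ^ (5 / 3 : ℝ)) = fun _ => 0 := by
    funext x; rw [abs_zero, Real.zero_rpow (by norm_num)]
  rw [this]; exact integrable_zero _ _ _

lemma nice_add {g h : E3 → ℝ} (hg : Nice g) (hh : Nice h) : Nice fun x => g x + h x := by
  have h1 := pd_nice _ _ nice_zero hh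
  have h2 := pd_nice _ _ hg h1
  simpa using h2

lemma NR_nice (s : ℝ) (R : Fin N → E3) : Nice (NR s R) := by
  unfold NR
  have : ∀ S : Finset (Fin N), Nice fun x => ∑ j ∈ S, gb s (R j) x := by
    intro S
    induction S using Finset.induction_on with
    | empty => simpa using nice_zero
    | insert j S hj ih =>
      simp_rw [Finset.sum_insert hj]
      exact nice_add (gb_nice s (R j)) ih
  exact this Finset.univ

lemma pot_NR {s : ℝ} (hs : 0 < s) (R : Fin N → E3) (x : E3) :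
    pot (NR s R) x = ∑ j, Gf s ‖x - R j‖ := by
  unfold pot NR
  simp_rw [Finset.sum_div]
  rw [integral_finsetSum]
  · refine Finset.sum_congr rfl fun j _ => ?_
    exact pot_gb hs (R j) x
  · intro j _
    obtain ⟨B, hB⟩ := nice_bound _ (gb_nice s (R j))
    exact (hB x).1

lemma NR_self {s : ℝ} (hs : 0 < s) (R : Fin N → E3) :
    ∫ x, NR s R x * pot (NR s R) x = ∑ i, ∑ j, Wk s (R i) (R j) := by
  have h : ∀ x, NR s R x * pot (NR s R) x = ∑ i, ∑ j, gb s (R i) x * Gf s ‖x - R j‖ := by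
    intro x
    rw [pot_NR hs, NR, Finset.sum_mul_sum]
  simp_rw [h]
  rw [integral_finsetSum _ fun i _ => integrable_finsetSum _ fun j _ => gG_int hs _ _]
  refine Finset.sum_congr rfl fun i _ => ?_
  rw [integral_finsetSum _ fun j _ => gG_int hs _ _]
  rfl

theorem tf_lower {s : ℝ} (hs : 0 < s) (R : Fin N → E3) (hΦ : Ph s R ≠ ∞) {N' : ℕ} {ρ : E3 → ℝ}
    (hρ : Dens N' ρ) :
    Unuc (fun _ => 1) R - cst * (Ph s R).toReal - 1 / 2 * ∑ i, ∑ j, Wk s (R i) (R j) ≤
      tfEnergy (fun _ => 1) R ρ := by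
  have hnice : Nice ρ := by
    refine ⟨hρ.meas, hρ.int, ?_⟩
    refine hρ.int53.congr (Eventually.of_forall fun x => ?_)
    simp only
    rw [abs_of_nonneg (hρ.nonneg x)]
  obtain ⟨B, hB⟩ := nice_bound ρ hnice
  have hpd := pd_main ρ (NR s R) hnice (NR_nice s R)
  rw [NR_self hs] at hpd
  have hVi : ∀ j, Integrable fun x => 1 / ‖x - R j‖ * ρ x := by
    intro j
    refine (hB (R j)).1.congr (Eventually.of_forall fun x => ?_)
    simp only
    rw [norm_sub_rev]; ring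
  have hV : Integrable fun x => Vext (fun _ => 1) R x * ρ x := by
    unfold Vext
    simp_rw [Finset.sum_mul]
    exact integrable_finsetSum _ fun j _ => hVi j
  have hP := pd_int ρ (NR s R) hnice (NR_nice s R)
  -- the difference potential
  have hΦm : Measurable fun x : E3 => (∑ j, Ye s (x - R j)) ^ (5 / 2 : ℝ) :=
    (Finset.measurable_fun_sum _ fun j _ => (Ye_meas s).comp (measurable_id.sub measurable_const)).pow_const _
  have hi : Integrable fun x : E3 => ((∑ j, Ye s (x - R j)) ^ (5 / 2 : ℝ)).toReal :=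
    integrable_toReal_of_lintegral_ne_top hΦm.aemeasurable hΦ
  have hiv : ∫ x : E3, ((∑ j, Ye s (x - R j)) ^ (5 / 2 : ℝ)).toReal = (Ph s R).toReal :=
    integral_toReal hΦm.aemeasurable (ae_lt_top hΦm hΦ)
  have hae : ∀ᵐ x : E3, ∀ j, x ≠ R j := by
    rw [ae_all_iff]
    intro j
    exact (Measure.ae_ne volume (R j))
  have hpt : ∀ᵐ x : E3, Vext (fun _ => 1) R x * ρ x - ρ x * pot (NR s R) x ≤
      gam * ρ x ^ (5 / 3 : ℝ) + cst * ((∑ j, Ye s (x - R j)) ^ (5 / 2 : ℝ)).toReal := by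
    filter_upwards [hae] with x hx
    have h1 : ∀ j, 0 ≤ Yf s ‖x - R j‖ := fun j =>
      Yf_nonneg hs (norm_pos_iff.2 (sub_ne_zero.2 (hx j)))
    have h2 : ∑ j, Ye s (x - R j) = ENNReal.ofReal (∑ j, Yf s ‖x - R j‖) := by
      unfold Ye
      rw [ENNReal.ofReal_sum_of_nonneg fun j _ => h1 j]
    have h3 : 0 ≤ ∑ j, Yf s ‖x - R j‖ := Finset.sum_nonneg fun j _ => h1 j
    rw [h2, ENNReal.ofReal_rpow_of_nonneg h3 (by norm_num), ENNReal.toReal_ofReal (by positivity)]
    have h4 : Vext (fun _ => 1) R x * ρ x - ρ x * pot (NR s R) x = (∑ j, Yf s ‖x - R j‖) * ρ x := by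
      rw [pot_NR hs, Vext]
      unfold Yf
      rw [Finset.sum_sub_distrib]
      ring
    rw [h4]
    exact young (hρ.nonneg x) h3
  have h5 : (∫ x, Vext (fun _ => 1) R x * ρ x) - (∫ x, ρ x * pot (NR s R) x) ≤
      gam * (∫ x, ρ x ^ (5 / 3 : ℝ)) + cst * (Ph s R).toReal := by
    rw [← integral_sub hV hP, ← hiv, ← integral_const_mul, ← integral_const_mul,
      ← integral_add (hρ.int53.const_mul _) (hi.const_mul _)]
    exact integral_mono_ae (hV.sub hP) ((hρ.int53.const_mul _).add (hi.const_mul _)) hpt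
  unfold tfEnergy
  unfold gam at h5
  linarith

end Pool.Agent.TH791.Tl
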