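import Pool.Agent.TH791.Defs
import Pool.Agent.TH791.Slater
import Pool.Agent.TH791.Spin

/-!
# Slater determinants of smooth spin orbitals
-/

set_option autoImplicit false

namespace Pool.Agent.TH791.Tr

open MeasureTheory Filter Topology
open Pool.Agent.TH791.QM Pool.Agent.TH791.Sl Pool.Agent.TH791.Sp
open scoped ENNReal ComplexConjugate

abbrev X := E3 × Spin

/-- smooth compactly supported spin orbitals -/
structure SO (g : X → ℂ) : Prop where
  smooth : ∀ s, ContDiff ℝ ((⊤ : ℕ∞) : WithTop ℕ∞) (fun x => g (x, s))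
  supp : ∀ s, HasCompactSupport (fun x => g (x, s))

lemma SO.meas {g : X → ℂ} (h : SO g) : Measurable g :=
  measurable_from_prod_countable_left fun s => (h.smooth s).continuous.measurable

lemma fin_pair {H : X → ℝ≥0∞} (hH : Measurable H) (h : ∀ s, ∫⁻ x, H (x, s) ≠ ∞) : ∫⁻ q, H q ≠ ∞ := by
  rw [lint_pair hH]
  exact ENNReal.sum_ne_top.2 fun s _ => h s

lemma memLp_pair {g : X → ℂ} (hm : Measurable g) (h : ∀ s, MemLp (fun x => g (x, s)) 2) : MemLp g 2 := by
  rw [memLp_two_iff_integrable_sq_norm hm.aestronglyMeasurable]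
  refine ⟨(hm.norm.pow_const 2).aestronglyMeasurable, ?_⟩
  rw [hasFiniteIntegral_iff_ofReal (Eventually.of_forall fun x => by positivity)]
  refine (fin_pair (H := fun q => ENNReal.ofReal (‖g q‖ ^ 2)) (hm.norm.pow_const 2).ennreal_ofReal
    fun s => ?_).lt_top
  have := (memLp_two_iff_integrable_sq_norm (h s).aestronglyMeasurable).1 (h s)
  exact ((hasFiniteIntegral_iff_ofReal (Eventually.of_forall fun x => by positivity)).1 this.2).ne

lemma SO.memLp {g : X → ℂ} (h : SO g) : MemLp g 2 :=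
  memLp_pair h.meas fun s => (h.smooth s).continuous.memLp_of_hasCompactSupport (h.supp s)

/-- derivative orbitals -/
noncomputable def dO (c : Fin 3) (g : X → ℂ) (q : X) : ℂ :=
  fderiv ℝ (fun x => g (x, q.2)) q.1 (EuclideanSpace.single c (1 : ℝ))

lemma SO.dO {g : X → ℂ} (h : SO g) (c : Fin 3) : SO (dO c g) where
  smooth s := by
    unfold Tr.dO
    simp only
    exact ((h.smooth s).fderiv_right (m := ((⊤ : ℕ∞) : WithTop ℕ∞)) (by simp)).clm_apply contDiff_const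
  supp s := by
    unfold Tr.dO
    simp only
    exact (h.supp s).fderiv_apply (𝕜 := ℝ) (EuclideanSpace.single c (1 : ℝ))

variable {n : ℕ}

/-- the wave function -/
noncomputable def wv (φ : Fin (n + 1) → X → ℂ) (σ : Fin (n + 1) → Fin 2) (x : Fin (n + 1) → E3) : ℂ :=
  Psi φ (zip x (σ : Fin (n + 1) → Spin))

lemma wv_smooth {φ : Fin (n + 1) → X → ℂ} (hφ : ∀ a, SO (φ a)) (σ : Fin (n + 1) → Fin 2) :
    ContDiff ℝ ((⊤ : ℕ∞) : WithTop ℕ∞) (wv φ σ) := by
  unfold wv Psi pr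
  refine ContDiff.sum fun τ _ => contDiff_const.mul ?_
  refine contDiff_prod fun k _ => ?_
  exact ((hφ (τ k)).smooth (σ k)).comp (contDiff_apply ℝ E3 k)

lemma wv_supp {φ : Fin (n + 1) → X → ℂ} (hφ : ∀ a, SO (φ a)) (σ : Fin (n + 1) → Fin 2) :
    HasCompactSupport (wv φ σ) := by
  set K : Set E3 := ⋃ a, ⋃ s, tsupport (fun x => φ a (x, s)) with hK
  have hKc : IsCompact K := isCompact_iUnion fun a => isCompact_iUnion fun s => (hφ a).supp s
  refine HasCompactSupport.intro (isCompact_univ_pi fun _ : Fin (n + 1) => hKc) fun x hx => ?_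
  rw [Set.mem_univ_pi] at hx
  push Not at hx
  obtain ⟨k, hk⟩ := hx
  unfold wv Psi pr
  refine Finset.sum_eq_zero fun τ _ => ?_
  rw [Finset.prod_eq_zero (Finset.mem_univ k), mul_zero]
  by_contra h
  apply hk
  rw [hK, Set.mem_iUnion]
  refine ⟨τ k, Set.mem_iUnion.2 ⟨σ k, subset_tsupport _ ?_⟩⟩
  exact h

lemma wv_anti (φ : Fin (n + 1) → X → ℂ) (τ : Equiv.Perm (Fin (n + 1))) (σ : Fin (n + 1) → Fin 2)
    (x : Fin (n + 1) → E3) :
    wv φ (σ ∘ τ) (x ∘ τ) = ((Equiv.Perm.sign τ : ℤ) : ℂ) * wv φ σ x := by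
  unfold wv
  rw [← Psi_perm]
  rfl

lemma line_deriv {V : Type} [NormedAddCommGroup V] [NormedSpace ℝ V] {g : V → ℂ} {x : V}
    (hg : DifferentiableAt ℝ g x) (v : V) :
    HasDerivAt (fun t : ℝ => g (x + t • v)) (fderiv ℝ g x v) 0 := by
  have h2 : HasDerivAt (fun t : ℝ => x + t • v) v 0 := by
    simpa using ((hasDerivAt_id (0 : ℝ)).smul_const v).const_add x
  have h3 : HasFDerivAt g (fderiv ℝ g x) (x + (0 : ℝ) • v) := by
    simpa using hg.hasFDerivAt
  exact h3.comp_hasDerivAt (0 : ℝ) h2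

lemma wv_pd {φ : Fin (n + 1) → X → ℂ} (hφ : ∀ a, SO (φ a)) (σ : Fin (n + 1) → Fin 2)
    (i : Fin (n + 1)) (c : Fin 3) (x : Fin (n + 1) → E3) :
    pd i c (wv φ σ) x = SL φ i (fun a => dO c (φ a)) (zip x (σ : Fin (n + 1) → Spin)) := by
  set v : E3 := EuclideanSpace.single c (1 : ℝ) with hv
  have h1 : HasDerivAt (fun t : ℝ => wv φ σ (x + t • (Pi.single i v : Fin (n + 1) → E3))) (pd i c (wv φ σ) x) 0 :=
    line_deriv ((wv_smooth hφ σ).differentiable (by simp) x) _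
  refine h1.unique ?_
  unfold wv Psi SL
  refine HasDerivAt.fun_sum fun τ _ => HasDerivAt.const_mul _ ?_
  unfold pr U
  simp only [Fin.prod_univ_succAbove _ i, Fin.insertNth_apply_same, Fin.insertNth_apply_succAbove]
  have h2 : ∀ t : ℝ, ∀ k : Fin n, zip (x + t • (Pi.single i v : Fin (n + 1) → E3)) (σ : Fin (n + 1) → Spin) (i.succAbove k) =
      zip x (σ : Fin (n + 1) → Spin) (i.succAbove k) := by
    intro t k
    unfold zip
    simp
  simp_rw [h2]
  refine HasDerivAt.mul_const ?_ _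
  have h3 := line_deriv (((hφ (τ i)).smooth (σ i)).differentiable (by simp) (x i)) v
  refine h3.congr_of_eventuallyEq (Eventually.of_forall fun t => ?_)
  unfold zip
  simp

lemma toReal_int {α : Type} [MeasureSpace α] {F : α → ℝ} (hm : AEStronglyMeasurable F volume)
    (h0 : ∀ x, 0 ≤ F x) (h : ∫⁻ x, ENNReal.ofReal (F x) ≠ ∞) :
    Integrable F ∧ ENNReal.ofReal (∫ x, F x) = ∫⁻ x, ENNReal.ofReal (F x) := by
  have hi : Integrable F :=
    ⟨hm, (hasFiniteIntegral_iff_ofReal (Eventually.of_forall h0)).2 h.lt_top⟩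
  exact ⟨hi, ofReal_integral_eq_lintegral_ofReal hi (Eventually.of_forall h0)⟩

variable {φ : Fin (n + 2) → X → ℂ} (hφ : ∀ a, SO (φ a))
  (ho : ∀ a b, ∫ q, φ a q * conj (φ b q) = if a = b then 1 else 0)

include hφ ho in
lemma wv_wave : Wave (n + 2) (wv φ) where
  smooth := wv_smooth hφ
  supp := wv_supp hφ
  anti := wv_anti φ
  norm := by
    have h1 := norm_Psi (fun a => (hφ a).memLp) ho
    have h2 : MemLp (Psi φ) 2 := by
      rw [← SL_self φ 0]
      exact SL_memLp (fun a => (hφ a).memLp) (fun a => (hφ a).memLp) 0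
    have h3 := spin_int (sq_integrable h2)
    rw [h1] at h3
    exact h3.2

/-- kinetic energy -/
noncomputable def kin (φ : Fin (n + 2) → X → ℂ) : ℝ := ∑ c, ∑ a, ∫ q, ‖dO c (φ a) q‖ ^ 2

include hφ ho in
lemma kin_eq : (∀ σ, Integrable fun x => ∑ i, ∑ c, ‖pd i c (wv φ σ) x‖ ^ 2) ∧
    ∑ σ, ∫ x, (∑ i, ∑ c, ‖pd i c (wv φ σ) x‖ ^ 2) = kin φ := by
  simp_rw [wv_pd hφ]
  have h1 : ∀ i c, Integrable fun q => ‖SL φ i (fun a => dO c (φ a)) q‖ ^ 2 := fun i c =>
    sq_integrable (SL_memLp (fun a => (hφ a).memLp) (fun a => ((hφ a).dO c).memLp) i)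
  have h2 : Integrable fun q => ∑ i, ∑ c, ‖SL φ i (fun a => dO c (φ a)) q‖ ^ 2 :=
    integrable_finsetSum _ fun i _ => integrable_finsetSum _ fun c _ => h1 i c
  obtain ⟨h3, h4⟩ := spin_int h2
  refine ⟨h3, ?_⟩
  refine h4.trans ?_
  rw [integral_finsetSum _ fun i _ => integrable_finsetSum _ fun c _ => h1 i c]
  simp_rw [integral_finsetSum _ fun c _ => h1 _ c]
  rw [Finset.sum_comm]
  unfold kin
  refine Finset.sum_congr rfl fun c _ => ?_
  exact kin_sum (fun a => (hφ a).memLp) (fun a => ((hφ a).dO c).memLp) ho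

include hφ ho in
lemma one_eq {V : E3 → ℝ} (hV : Measurable V) (hV0 : ∀ x, 0 ≤ V x)
    (hf : ∑ a, ∫⁻ q, ENNReal.ofReal (V q.1) * ENNReal.ofReal (‖φ a q‖ ^ 2) ≠ ∞) :
    (∀ σ, Integrable fun x => (∑ i, V (x i)) * ‖wv φ σ x‖ ^ 2) ∧
    ENNReal.ofReal (∑ σ, ∫ x, (∑ i, V (x i)) * ‖wv φ σ x‖ ^ 2) =
      ∑ a, ∫⁻ q, ENNReal.ofReal (V q.1) * ENNReal.ofReal (‖φ a q‖ ^ 2) := by
  have h1 := one_body_sum (fun a => (hφ a).memLp) (fun a => (hφ a).memLp) ho
    (V := fun q : X => ENNReal.ofReal (V q.1)) (hV.comp measurable_fst).ennreal_ofReal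
  simp_rw [SL_self] at h1
  have hPm : Measurable (Psi φ) := by
    unfold Psi pr
    refine Finset.measurable_fun_sum _ fun τ _ => Measurable.const_mul ?_ _
    exact Finset.measurable_fun_prod _ fun k _ => (hφ _).meas.comp (measurable_pi_apply k)
  have hVi : ∀ i, Measurable fun q : Fin (n + 2) → X => V (q i).1 := fun i =>
    hV.comp (measurable_fst.comp (measurable_pi_apply i))
  have h2 : ∫⁻ q : Fin (n + 2) → X, ENNReal.ofReal ((∑ i, V (q i).1) * ‖Psi φ q‖ ^ 2) =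
      ∑ a, ∫⁻ q, ENNReal.ofReal (V q.1) * ENNReal.ofReal (‖φ a q‖ ^ 2) := by
    rw [← h1, ← lintegral_finsetSum]
    · refine lintegral_congr fun q => ?_
      rw [ENNReal.ofReal_mul (Finset.sum_nonneg fun i _ => hV0 _),
        ENNReal.ofReal_sum_of_nonneg fun i _ => hV0 _, Finset.sum_mul]
    · intro i _
      exact (hVi i).ennreal_ofReal.mul (hPm.norm.pow_const 2).ennreal_ofReal
  obtain ⟨h3, h4⟩ := toReal_int (F := fun q : Fin (n + 2) → X => (∑ i, V (q i).1) * ‖Psi φ q‖ ^ 2)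
    ((Finset.measurable_fun_sum _ fun i _ => hVi i).mul (hPm.norm.pow_const 2)).aestronglyMeasurable
    (fun q => mul_nonneg (Finset.sum_nonneg fun i _ => hV0 _) (by positivity)) (by rw [h2]; exact hf)
  obtain ⟨h5, h6⟩ := spin_int h3
  refine ⟨h5, ?_⟩
  rw [← h2, ← h4, ← h6]
  rfl

include hφ ho in
lemma two_eq {w : E3 → E3 → ℝ} (hw : Measurable fun p : E3 × E3 => w p.1 p.2)
    (hw0 : ∀ x y, 0 ≤ w x y) (hwd : ∀ x, w x x = 0)
    (hf : ∫⁻ s : X, ∫⁻ t : X, ENNReal.ofReal (w s.1 t.1) *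
      ENNReal.ofReal ((∑ a, ‖φ a s‖ ^ 2) * (∑ a, ‖φ a t‖ ^ 2) - ‖∑ a, φ a s * conj (φ a t)‖ ^ 2) ≠ ∞) :
    (∀ σ, Integrable fun x => (∑ i, ∑ j, w (x i) (x j)) * ‖wv φ σ x‖ ^ 2) ∧
    ENNReal.ofReal (∑ σ, ∫ x, (∑ i, ∑ j, w (x i) (x j)) * ‖wv φ σ x‖ ^ 2) =
      ∫⁻ s : X, ∫⁻ t : X, ENNReal.ofReal (w s.1 t.1) *
        ENNReal.ofReal ((∑ a, ‖φ a s‖ ^ 2) * (∑ a, ‖φ a t‖ ^ 2) - ‖∑ a, φ a s * conj (φ a t)‖ ^ 2) := by
  have hwm : Measurable fun p : X × X => ENNReal.ofReal (w p.1.1 p.2.1) :=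
    (hw.comp ((measurable_fst.comp measurable_fst).prodMk
      (measurable_fst.comp measurable_snd))).ennreal_ofReal
  have h1 := two_body (fun a => (hφ a).memLp) (fun a => (hφ a).meas) ho
    (w := fun s t : X => ENNReal.ofReal (w s.1 t.1)) hwm
  have hPm : Measurable (Psi φ) := by
    unfold Psi pr
    refine Finset.measurable_fun_sum _ fun τ _ => Measurable.const_mul ?_ _
    exact Finset.measurable_fun_prod _ fun k _ => (hφ _).meas.comp (measurable_pi_apply k)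
  have hVi : ∀ i j, Measurable fun q : Fin (n + 2) → X => w (q i).1 (q j).1 := fun i j =>
    hw.comp ((measurable_fst.comp (measurable_pi_apply i)).prodMk
      (measurable_fst.comp (measurable_pi_apply j)))
  have h2 : ∫⁻ q : Fin (n + 2) → X, ENNReal.ofReal ((∑ i, ∑ j, w (q i).1 (q j).1) * ‖Psi φ q‖ ^ 2) =
      ∫⁻ s : X, ∫⁻ t : X, ENNReal.ofReal (w s.1 t.1) *
        ENNReal.ofReal ((∑ a, ‖φ a s‖ ^ 2) * (∑ a, ‖φ a t‖ ^ 2) - ‖∑ a, φ a s * conj (φ a t)‖ ^ 2) := by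
    rw [← h1]
    have h3 : ∀ i j, (if i = j then 0 else ∫⁻ q : Fin (n + 2) → X, ENNReal.ofReal (w (q i).1 (q j).1) *
        ENNReal.ofReal (‖Psi φ q‖ ^ 2)) = ∫⁻ q : Fin (n + 2) → X, ENNReal.ofReal (w (q i).1 (q j).1) *
        ENNReal.ofReal (‖Psi φ q‖ ^ 2) := by
      intro i j
      split_ifs with h
      · subst h
        simp [hwd]
      · rfl
    simp_rw [h3]
    have hmij : ∀ i j, Measurable fun q : Fin (n + 2) → X => ENNReal.ofReal (w (q i).1 (q j).1) *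
        ENNReal.ofReal (‖Psi φ q‖ ^ 2) := fun i j =>
      (hVi i j).ennreal_ofReal.mul (hPm.norm.pow_const 2).ennreal_ofReal
    simp_rw [← lintegral_finsetSum _ fun j _ => hmij _ j]
    rw [← lintegral_finsetSum _ fun i _ => Finset.measurable_fun_sum _ fun j _ => hmij i j]
    refine lintegral_congr fun q => ?_
    rw [ENNReal.ofReal_mul (Finset.sum_nonneg fun i _ => Finset.sum_nonneg fun j _ => hw0 _ _),
      ENNReal.ofReal_sum_of_nonneg fun i _ => Finset.sum_nonneg fun j _ => hw0 _ _, Finset.sum_mul]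
    refine Finset.sum_congr rfl fun i _ => ?_
    rw [ENNReal.ofReal_sum_of_nonneg fun j _ => hw0 _ _, Finset.sum_mul]
  obtain ⟨h3, h4⟩ := toReal_int
    (F := fun q : Fin (n + 2) → X => (∑ i, ∑ j, w (q i).1 (q j).1) * ‖Psi φ q‖ ^ 2)
    ((Finset.measurable_fun_sum _ fun i _ => Finset.measurable_fun_sum _ fun j _ => hVi i j).mul
      (hPm.norm.pow_const 2)).aestronglyMeasurable
    (fun q => mul_nonneg (Finset.sum_nonneg fun i _ => Finset.sum_nonneg fun j _ => hw0 _ _)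
      (by positivity)) (by rw [h2]; exact hf)
  obtain ⟨h5, h6⟩ := spin_int h3
  refine ⟨h5, ?_⟩
  rw [← h2, ← h4, ← h6]
  rfl

lemma sum_lt {N : ℕ} (G : Fin N → Fin N → ℝ) (hs : ∀ i j, G i j = G j i) (hd : ∀ i, G i i = 0) :
    ∑ i, ∑ j ∈ Finset.Ioi i, G i j = 1 / 2 * ∑ i, ∑ j, G i j := by
  have h1 : ∀ i, ∑ j, G i j = (∑ j ∈ Finset.Ioi i, G i j) + ∑ j ∈ Finset.Iio i, G i j := by
    intro i
    rw [← Finset.sum_filter_add_sum_filter_not Finset.univ (fun j => i < j)]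
    congr 1
    · refine Finset.sum_congr ?_ fun _ _ => rfl
      ext j; simp
    · have : Finset.univ.filter (fun j => ¬ i < j) = insert i (Finset.Iio i) := by
        ext j
        simp only [Finset.mem_filter, Finset.mem_univ, true_and, Finset.mem_insert, Finset.mem_Iio,
          not_lt]
        exact le_iff_eq_or_lt
      rw [this, Finset.sum_insert (by simp), hd, zero_add]
  have h2 : ∑ i, ∑ j ∈ Finset.Iio i, G i j = ∑ i, ∑ j ∈ Finset.Ioi i, G i j := by
    rw [Finset.sum_comm' (t' := Finset.univ) (s' := fun j => Finset.Ioi j)]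
    · exact Finset.sum_congr rfl fun i _ => Finset.sum_congr rfl fun j _ => hs _ _
    · intro x y
      simp
  simp_rw [h1]
  rw [Finset.sum_add_distrib, h2]
  ring

end Pool.Agent.TH791.Tr
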