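import Pool.Agent.TH791.Trial
import Pool.Agent.TH791.Orb
import Pool.Agent.TH791.Coul

/-!
# The Slater determinant of windowed plane waves
-/

set_option autoImplicit false

namespace Pool.Agent.TH791.Tp

open MeasureTheory Filter Topology
open Pool.Agent.TH791.QM Pool.Agent.TH791.Sl Pool.Agent.TH791.Sp Pool.Agent.TH791.Tr
open Pool.Agent.TH791.Ob hiding E3
open Pool.Agent.TH791.Wn
open scoped ENNReal ComplexConjugate


/-- spin orbital -/
noncomputable def so (L : ℝ) (b : (Fin 3 → ℤ) × Spin) (q : X) : ℂ :=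
  if q.2 = b.2 then o3 L b.1 q.1 else 0

lemma so_SO (L : ℝ) (b : (Fin 3 → ℤ) × Spin) : SO (so L b) where
  smooth s := by
    unfold so
    by_cases h : s = b.2
    · simp only [h, if_true]; exact o3_smooth L b.1
    · simp only [h, if_false]; exact contDiff_const
  supp s := by
    unfold so
    by_cases h : s = b.2
    · simp only [h, if_true]; exact o3_supp L b.1
    · simp only [h, if_false]; exact HasCompactSupport.zero

lemma so_dO (L : ℝ) (b : (Fin 3 → ℤ) × Spin) (c : Fin 3) (q : X) :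
    dO c (so L b) q = if q.2 = b.2 then d3 L b.1 c q.1 else 0 := by
  unfold dO so
  by_cases h : q.2 = b.2
  · simp only [h, if_true]
    exact o3_fderiv L b.1 q.1 c
  · simp only [h, if_false]
    rw [fderiv_const_apply]
    rfl

lemma so_orth {L : ℝ} (hL : 1 ≤ L) (b b' : (Fin 3 → ℤ) × Spin) :
    ∫ q, so L b q * conj (so L b' q) = if b = b' then 1 else 0 := by
  rw [int_pair (l2_mul_int (so_SO L b).memLp (so_SO L b').memLp)]
  have h : ∀ s : Spin, ∫ x, so L b (x, s) * conj (so L b' (x, s)) =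
      if s = b.2 then (if b = b' then 1 else 0) else 0 := by
    intro s
    unfold so
    by_cases h : s = b.2
    · subst h
      simp only [if_true]
      by_cases h' : b.2 = b'.2
      · simp only [h', if_true]
        rw [o3_orth hL]
        have : b.1 = b'.1 ↔ b = b' := ⟨fun h => Prod.ext h h', fun h => by rw [h]⟩
        simp only [this]
      · have : b ≠ b' := fun h => h' (by rw [h])
        simp [h', this]
    · simp [h]
  simp_rw [h]
  simp

variable {n : ℕ} (L : ℝ) (K : Finset (Fin 3 → ℤ)) (e : Fin (n + 2) ≃ K × Spin)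

/-- the orbitals -/
noncomputable def ob (a : Fin (n + 2)) : X → ℂ := so L ((e a).1.1, (e a).2)

lemma ob_SO (a : Fin (n + 2)) : SO (ob L K e a) := so_SO L _

lemma ob_orth (hL : 1 ≤ L) (a b : Fin (n + 2)) :
    ∫ q, ob L K e a q * conj (ob L K e b q) = if a = b then 1 else 0 := by
  unfold ob
  rw [so_orth hL]
  have : (((e a).1 : Fin 3 → ℤ), (e a).2) = (((e b).1 : Fin 3 → ℤ), (e b).2) ↔ a = b := by
    constructor
    · intro h
      rw [Prod.mk.injEq] at h
      exact e.injective (Prod.ext (Subtype.ext h.1) h.2)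
    · intro h; rw [h]
  simp only [this]

lemma sum_ob {M : Type} [AddCommMonoid M] (F : (Fin 3 → ℤ) → Spin → M) :
    ∑ a, F (e a).1 (e a).2 = ∑ k ∈ K, ∑ s, F k s := by
  rw [Equiv.sum_comp e (fun b : K × Spin => F b.1 b.2), Fintype.sum_prod_type,
    ← Finset.sum_coe_sort K (fun k => ∑ s, F k s)]

lemma ob_dens (hL : 1 ≤ L) (q : X) : ∑ a, ‖ob L K e a q‖ ^ 2 = K.card * p3 L q.1 := by
  unfold ob so
  rw [sum_ob K e (fun k s => ‖if q.2 = s then o3 L k q.1 else 0‖ ^ 2)]
  have : ∀ k s, ‖if q.2 = s then o3 L k q.1 else 0‖ ^ 2 = if q.2 = s then p3 L q.1 else 0 := by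
    intro k s
    split_ifs
    · exact o3_norm hL k q.1
    · simp
  simp_rw [this]
  simp

lemma ob_ex (s t : X) : ∑ a, ob L K e a s * conj (ob L K e a t) =
    if s.2 = t.2 then ∑ k ∈ K, o3 L k s.1 * conj (o3 L k t.1) else 0 := by
  unfold ob so
  rw [sum_ob K e (fun k r => (if s.2 = r then o3 L k s.1 else 0) *
    conj (if t.2 = r then o3 L k t.1 else 0))]
  by_cases h : s.2 = t.2
  · rw [if_pos h]
    refine Finset.sum_congr rfl fun k _ => ?_
    rw [Finset.sum_eq_single t.2]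
    · simp [h]
    · intro r _ hr
      simp [Ne.symm hr]
    · intro h; exact absurd (Finset.mem_univ _) h
  · rw [if_neg h]
    refine Finset.sum_eq_zero fun k _ => Finset.sum_eq_zero fun r _ => ?_
    by_cases h1 : s.2 = r
    · have : t.2 ≠ r := fun h2 => h (h1.trans h2.symm)
      simp [this]
    · simp [h1]

lemma ob_kin {C : ℝ} (hL : 1 ≤ L) (hC : ∀ t : ℝ, |deriv (f L) t| ≤ C) :
    kin (ob L K e) ≤ 12 * C ^ 2 * K.card + 2 * ∑ k ∈ K, ∑ c, (2 * Real.pi * k c / L) ^ 2 := by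
  unfold kin
  have h : ∀ c a, ∫ q, ‖dO c (ob L K e a) q‖ ^ 2 = ∫ x, ‖d3 L (e a).1 c x‖ ^ 2 := by
    intro c a
    rw [int_pair (sq_integrable ((ob_SO L K e a).dO c).memLp)]
    unfold ob
    simp_rw [so_dO]
    rw [Finset.sum_eq_single (e a).2]
    · simp
    · intro r _ hr
      simp [hr]
    · intro h; exact absurd (Finset.mem_univ _) h
  simp_rw [h]
  have h2 : ∀ c, ∑ a, ∫ x, ‖d3 L (e a).1 c x‖ ^ 2 = 2 * ∑ k ∈ K, ∫ x, ‖d3 L k c x‖ ^ 2 := by
    intro c
    rw [sum_ob K e (fun k _ => ∫ x, ‖d3 L k c x‖ ^ 2), Finset.mul_sum]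
    refine Finset.sum_congr rfl fun k _ => ?_
    have : Fintype.card Spin = 2 := rfl
    rw [Finset.sum_const, Finset.card_univ, this]
    simp
  simp_rw [h2]
  rw [← Finset.mul_sum, Finset.sum_comm]
  have h3 : ∑ k ∈ K, ∑ c, ∫ x, ‖d3 L k c x‖ ^ 2 ≤
      ∑ k ∈ K, (6 * C ^ 2 + ∑ c, (2 * Real.pi * k c / L) ^ 2) := by
    refine Finset.sum_le_sum fun k _ => ?_
    calc ∑ c, ∫ x, ‖d3 L k c x‖ ^ 2 ≤ ∑ c, (2 * C ^ 2 + (2 * Real.pi * k c / L) ^ 2) :=
          Finset.sum_le_sum fun c _ => (d3_int hL hC k c).2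
      _ = _ := by
          rw [Finset.sum_add_distrib, Finset.sum_const, Finset.card_univ, Fintype.card_fin]
          simp; ring
  rw [Finset.sum_add_distrib, Finset.sum_const, nsmul_eq_mul] at h3
  linarith

end Pool.Agent.TH791.Tp
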