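import Pool.Agent.TH791.TrialP

/-!
# Energy of the Slater determinant of windowed plane waves
-/

set_option autoImplicit false

namespace Pool.Agent.TH791.Tq

open MeasureTheory Filter Topology
open Pool.Agent.TH791.QM Pool.Agent.TH791.Sl Pool.Agent.TH791.Sp Pool.Agent.TH791.Tr
open Pool.Agent.TH791.Ob hiding E3
open Pool.Agent.TH791.Wn Pool.Agent.TH791.Tp
open scoped ENNReal ComplexConjugate

/-! ### exchange -/

/-- amplitude -/
noncomputable def am (L : ℝ) (x : E3) : ℝ := ∏ c, (f L (x c) / √L)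

lemma am_nonneg (L : ℝ) (x : E3) : 0 ≤ am L x :=
  Finset.prod_nonneg fun c _ => div_nonneg (f_nonneg _ _) (Real.sqrt_nonneg _)

lemma am_sq {L : ℝ} (hL : 1 ≤ L) (x : E3) : am L x ^ 2 = p3 L x := by
  unfold am p3
  rw [← Finset.prod_pow]
  refine Finset.prod_congr rfl fun c _ => ?_
  rw [div_pow, Real.sq_sqrt (by linarith)]

lemma o3_mul (L : ℝ) (k : Fin 3 → ℤ) (x y : E3) :
    o3 L k x * conj (o3 L k y) = ((am L x * am L y : ℝ) : ℂ) *
      Complex.exp (((∑ c, 2 * Real.pi * k c / L * (x c - y c) : ℝ) : ℂ) * Complex.I) := by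
  unfold o3 am u ph
  rw [map_prod, ← Finset.prod_mul_distrib, ← Finset.prod_mul_distrib, Complex.ofReal_prod,
    Complex.ofReal_sum, Finset.sum_mul, Complex.exp_sum, ← Finset.prod_mul_distrib]
  refine Finset.prod_congr rfl fun c _ => ?_
  rw [map_mul, Complex.conj_ofReal, ← Complex.exp_conj, map_mul, Complex.conj_I, Complex.conj_ofReal]
  have h : Complex.exp (((2 * Real.pi * k c / L * x c : ℝ) : ℂ) * Complex.I) *
      Complex.exp (((2 * Real.pi * k c / L * y c : ℝ) : ℂ) * -Complex.I) =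
      Complex.exp (((2 * Real.pi * k c / L * (x c - y c) : ℝ) : ℂ) * Complex.I) := by
    rw [← Complex.exp_add]
    congr 1
    push_cast
    ring
  rw [← h]
  push_cast
  ring

lemma ex_lower {L κ : ℝ} (hL : 1 ≤ L) (hκ : 0 < κ) {K : Finset (Fin 3 → ℤ)}
    (hK : ∑ k ∈ K, ∑ c, (2 * Real.pi * k c / L) ^ 2 ≤ κ ^ 2 * K.card) {x y : E3} (hxy : ‖x - y‖ ≤ κ⁻¹) :
    (K.card : ℝ) ^ 2 / 4 * (p3 L x * p3 L y) ≤ ‖∑ k ∈ K, o3 L k x * conj (o3 L k y)‖ ^ 2 := by
  have h1 : (K.card : ℝ) / 2 * (am L x * am L y) ≤ (∑ k ∈ K, o3 L k x * conj (o3 L k y)).re := by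
    rw [Complex.re_sum]
    have h6 : 0 ≤ am L x * am L y := mul_nonneg (am_nonneg _ _) (am_nonneg _ _)
    have h2 : ∀ k ∈ K, (1 - (∑ c, (2 * Real.pi * k c / L) ^ 2) * κ⁻¹ ^ 2 / 2) * (am L x * am L y) ≤
        (o3 L k x * conj (o3 L k y)).re := by
      intro k hk
      rw [o3_mul, Complex.re_ofReal_mul, Complex.exp_ofReal_mul_I_re]
      set θ : ℝ := ∑ c, 2 * Real.pi * k c / L * (x c - y c) with hθ
      have h3 : θ ^ 2 ≤ (∑ c, (2 * Real.pi * k c / L) ^ 2) * κ⁻¹ ^ 2 := by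
        calc θ ^ 2 ≤ (∑ c, (2 * Real.pi * k c / L) ^ 2) * ∑ c, (x c - y c) ^ 2 :=
              Finset.sum_mul_sq_le_sq_mul_sq _ _ _
          _ = (∑ c, (2 * Real.pi * k c / L) ^ 2) * ‖x - y‖ ^ 2 := by
              rw [EuclideanSpace.norm_sq_eq]
              simp
          _ ≤ (∑ c, (2 * Real.pi * k c / L) ^ 2) * κ⁻¹ ^ 2 := by
              gcongr
      have h4 := Real.one_sub_sq_div_two_le_cos (x := θ)
      have h5 : 1 - (∑ c, (2 * Real.pi * k c / L) ^ 2) * κ⁻¹ ^ 2 / 2 ≤ Real.cos θ := by linarith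
      rw [mul_comm]
      exact mul_le_mul_of_nonneg_left h5 h6
    refine le_trans ?_ (Finset.sum_le_sum h2)
    rw [← Finset.sum_mul]
    refine mul_le_mul_of_nonneg_right ?_ h6
    rw [Finset.sum_sub_distrib, ← Finset.sum_div, ← Finset.sum_mul, Finset.sum_const, nsmul_eq_mul,
      mul_one]
    have h7 : (∑ k ∈ K, ∑ c, (2 * Real.pi * k c / L) ^ 2) * κ⁻¹ ^ 2 ≤ K.card := by
      calc _ ≤ (κ ^ 2 * K.card) * κ⁻¹ ^ 2 := by gcongr
        _ = K.card := by field_simp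
    linarith
  have h2 : 0 ≤ (K.card : ℝ) / 2 * (am L x * am L y) := by
    have := am_nonneg L x
    have := am_nonneg L y
    positivity
  calc (K.card : ℝ) ^ 2 / 4 * (p3 L x * p3 L y) = ((K.card : ℝ) / 2 * (am L x * am L y)) ^ 2 := by
        rw [← am_sq hL, ← am_sq hL]; ring
    _ ≤ (∑ k ∈ K, o3 L k x * conj (o3 L k y)).re ^ 2 := pow_le_pow_left₀ h2 h1 2
    _ ≤ ‖∑ k ∈ K, o3 L k x * conj (o3 L k y)‖ ^ 2 := by
        rw [← sq_abs]
        exact pow_le_pow_left₀ (abs_nonneg _) (Complex.abs_re_le_norm _) 2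

/-! ### direct and exchange energies -/

/-- Coulomb kernel -/
noncomputable def cw (x y : E3) : ℝ≥0∞ := ENNReal.ofReal (1 / ‖x - y‖)

/-- density -/
noncomputable def P (L : ℝ) (x : E3) : ℝ≥0∞ := ENNReal.ofReal (p3 L x)

/-- direct energy -/
noncomputable def D0 (L : ℝ) : ℝ≥0∞ := ∫⁻ x, ∫⁻ y, cw x y * (P L x * P L y)

/-- short range part -/
noncomputable def k1 (L κ : ℝ) (x y : E3) : ℝ≥0∞ := if ‖x - y‖ ≤ κ⁻¹ then cw x y * (P L x * P L y) else 0

/-- short range energy -/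
noncomputable def X0 (L κ : ℝ) : ℝ≥0∞ := ∫⁻ x, ∫⁻ y, k1 L κ x y

lemma cw_meas : Measurable fun p : E3 × E3 => cw p.1 p.2 := by
  unfold cw
  exact (measurable_const.div (measurable_fst.sub measurable_snd).norm).ennreal_ofReal

lemma P_meas (L : ℝ) : Measurable (P L) := (p3_cont L).measurable.ennreal_ofReal

lemma k0_meas (L : ℝ) : Measurable fun p : E3 × E3 => cw p.1 p.2 * (P L p.1 * P L p.2) :=
  cw_meas.mul (((P_meas L).comp measurable_fst).mul ((P_meas L).comp measurable_snd))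

lemma k1_meas (L κ : ℝ) : Measurable fun p : E3 × E3 => k1 L κ p.1 p.2 := by
  unfold k1
  exact Measurable.ite (measurableSet_le (measurable_fst.sub measurable_snd).norm measurable_const)
    (k0_meas L) measurable_const

lemma p3_nice (L : ℝ) (hL : 0 ≤ L) : Cl.Nice (p3 L) := by
  refine ⟨(p3_cont L).measurable, p3_integrable L, ?_⟩
  have hc : Continuous fun x => |p3 L x| ^ (5 / 3 : ℝ) :=
    (p3_cont L).abs.rpow_const fun x => Or.inr (by norm_num)
  refine hc.integrable_of_hasCompactSupport ?_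
  refine HasCompactSupport.intro (box_compact 0 (L + 1)) fun x hx => ?_
  rw [p3_zero hx, abs_zero, Real.zero_rpow (by norm_num)]

lemma D0_fin {L : ℝ} (hL : 1 ≤ L) : D0 L ≠ ∞ := by
  have hL0 : 0 ≤ L := by linarith
  obtain ⟨B, hB⟩ := Cl.nice_bound _ (p3_nice L hL0)
  have h1 : ∀ x, ∫⁻ y, cw x y * (P L x * P L y) ≤ P L x * ENNReal.ofReal B := by
    intro x
    have h2 : ∀ y, cw x y * (P L x * P L y) = P L x * ENNReal.ofReal (|p3 L y| / ‖x - y‖) := by
      intro y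
      unfold cw P
      rw [abs_of_nonneg (p3_nonneg hL0 y), mul_left_comm, ← ENNReal.ofReal_mul (by positivity)]
      congr 2
      ring
    simp_rw [h2]
    have h3 : Measurable fun y => ENNReal.ofReal (|p3 L y| / ‖x - y‖) :=
      ((p3_cont L).measurable.norm.div (measurable_const.sub measurable_id).norm).ennreal_ofReal
    rw [lintegral_const_mul _ h3]
    gcongr
    have h4 : Integrable fun y => |p3 L y| / ‖x - y‖ := by
      refine (hB x).1.congr (Eventually.of_forall fun y => ?_)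
      simp only
      rw [abs_of_nonneg (p3_nonneg hL0 y)]
    rw [← ofReal_integral_eq_lintegral_ofReal h4 (Eventually.of_forall fun y => by positivity)]
    exact ENNReal.ofReal_le_ofReal (hB x).2
  have h5 : D0 L ≤ (∫⁻ x, P L x) * ENNReal.ofReal B := by
    rw [← lintegral_mul_const _ (P_meas L)]
    exact lintegral_mono h1
  refine ne_top_of_le_ne_top ?_ h5
  refine ENNReal.mul_ne_top ?_ ENNReal.ofReal_ne_top
  unfold P
  rw [← ofReal_integral_eq_lintegral_ofReal (p3_integrable L) (Eventually.of_forall (p3_nonneg hL0))]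
  exact ENNReal.ofReal_ne_top

lemma X0_le (L κ : ℝ) : X0 L κ ≤ D0 L := by
  refine lintegral_mono fun x => lintegral_mono fun y => ?_
  simp only
  unfold k1
  split_ifs
  · exact le_rfl
  · exact zero_le

variable {n : ℕ} {L κ : ℝ} (hL : 1 ≤ L) (hκ : 0 < κ) {K : Finset (Fin 3 → ℤ)}
    (hK : ∑ k ∈ K, ∑ c, (2 * Real.pi * k c / L) ^ 2 ≤ κ ^ 2 * K.card) (e : Fin (n + 2) ≃ K × Spin)

include hL hκ hK in
lemma pair_pt (s t : X) : ENNReal.ofReal (1 / ‖s.1 - t.1‖) *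
      ENNReal.ofReal ((∑ a, ‖ob L K e a s‖ ^ 2) * (∑ a, ‖ob L K e a t‖ ^ 2) -
        ‖∑ a, ob L K e a s * conj (ob L K e a t)‖ ^ 2) +
      (if s.2 = t.2 then ENNReal.ofReal ((K.card : ℝ) ^ 2 / 4) * k1 L κ s.1 t.1 else 0) ≤
    ENNReal.ofReal ((K.card : ℝ) ^ 2) * (cw s.1 t.1 * (P L s.1 * P L t.1)) := by
  have hL0 : 0 ≤ L := by linarith
  rw [ob_dens L K e hL, ob_dens L K e hL, ob_ex]
  have hp1 := p3_nonneg hL0 s.1
  have hp2 := p3_nonneg hL0 t.1
  have hr : ENNReal.ofReal ((K.card : ℝ) ^ 2) * (cw s.1 t.1 * (P L s.1 * P L t.1)) =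
      ENNReal.ofReal (1 / ‖s.1 - t.1‖) * ENNReal.ofReal ((K.card : ℝ) ^ 2 * (p3 L s.1 * p3 L t.1)) := by
    unfold cw P
    rw [ENNReal.ofReal_mul (by positivity : (0 : ℝ) ≤ (K.card : ℝ) ^ 2), ENNReal.ofReal_mul hp1]
    ring
  rw [hr]
  by_cases h : s.2 = t.2 ∧ ‖s.1 - t.1‖ ≤ κ⁻¹
  · rw [if_pos h.1, if_pos h.1, k1, if_pos h.2]
    have h1 : ENNReal.ofReal ((K.card : ℝ) ^ 2 / 4) * (cw s.1 t.1 * (P L s.1 * P L t.1)) =
        ENNReal.ofReal (1 / ‖s.1 - t.1‖) *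
          ENNReal.ofReal ((K.card : ℝ) ^ 2 / 4 * (p3 L s.1 * p3 L t.1)) := by
      unfold cw P
      rw [ENNReal.ofReal_mul (by positivity : (0 : ℝ) ≤ (K.card : ℝ) ^ 2 / 4), ENNReal.ofReal_mul hp1]
      ring
    rw [h1, ← mul_add]
    gcongr
    have h2 := ex_lower hL hκ hK h.2
    have h3 : (0 : ℝ) ≤ (K.card : ℝ) ^ 2 / 4 * (p3 L s.1 * p3 L t.1) := by positivity
    calc _ ≤ ENNReal.ofReal ((K.card : ℝ) ^ 2 * (p3 L s.1 * p3 L t.1) -
          (K.card : ℝ) ^ 2 / 4 * (p3 L s.1 * p3 L t.1)) +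
          ENNReal.ofReal ((K.card : ℝ) ^ 2 / 4 * (p3 L s.1 * p3 L t.1)) := by
          refine add_le_add (ENNReal.ofReal_le_ofReal ?_) le_rfl
          linarith
      _ = _ := by
          rw [← ENNReal.ofReal_add _ h3]
          · congr 1; ring
          · nlinarith
  · have h1 : (if s.2 = t.2 then ENNReal.ofReal ((K.card : ℝ) ^ 2 / 4) * k1 L κ s.1 t.1 else 0) = 0 := by
      by_cases h2 : s.2 = t.2
      · have h3 : ¬ ‖s.1 - t.1‖ ≤ κ⁻¹ := fun h3 => h ⟨h2, h3⟩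
        rw [if_pos h2, k1, if_neg h3, mul_zero]
      · rw [if_neg h2]
    rw [h1, add_zero]
    gcongr
    have : 0 ≤ ‖if s.2 = t.2 then ∑ k ∈ K, o3 L k s.1 * conj (o3 L k t.1) else 0‖ ^ 2 := by positivity
    nlinarith

lemma dbl_const (c : ℝ≥0∞) {G : E3 → E3 → ℝ≥0∞} (hG : Measurable fun p : E3 × E3 => G p.1 p.2) :
    ∫⁻ x, ∫⁻ y, c * G x y = c * ∫⁻ x, ∫⁻ y, G x y := by
  have h1 : ∀ x, Measurable fun y => G x y := fun x =>
    hG.comp (measurable_const.prodMk measurable_id : Measurable fun y : E3 => (x, y))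
  have h2 : Measurable fun x => ∫⁻ y, G x y := Measurable.lintegral_prod_right' hG
  have h3 : ∀ x, ∫⁻ y, c * G x y = c * ∫⁻ y, G x y := fun x => lintegral_const_mul _ (h1 x)
  simp_rw [h3]
  exact lintegral_const_mul _ h2

lemma lint2 {G : E3 → E3 → ℝ≥0∞} (hG : Measurable fun p : E3 × E3 => G p.1 p.2) :
    ∫⁻ s : X, ∫⁻ t : X, G s.1 t.1 = 4 * ∫⁻ x, ∫⁻ y, G x y := by
  have h1 : ∀ s : X, ∫⁻ t : X, G s.1 t.1 = 2 * ∫⁻ y, G s.1 y := by
    intro s
    rw [lint_pair (H := fun t : X => G s.1 t.1)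
      (hG.comp (measurable_const.prodMk measurable_fst))]
    have : Fintype.card Spin = 2 := rfl
    simp [this]
  simp_rw [h1]
  have hm : Measurable fun x => ∫⁻ y, G x y := Measurable.lintegral_prod_right' hG
  have hm' : Measurable fun s : X => ∫⁻ y, G s.1 y := hm.comp measurable_fst
  rw [lintegral_const_mul _ hm', lint_pair (H := fun s : X => ∫⁻ y, G s.1 y) hm']
  have : Fintype.card Spin = 2 := rfl
  simp only [Finset.sum_const, Finset.card_univ, this]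
  rw [nsmul_eq_mul, ← mul_assoc]
  norm_num

lemma lint2_diag {G : E3 → E3 → ℝ≥0∞} (hG : Measurable fun p : E3 × E3 => G p.1 p.2) :
    ∫⁻ s : X, ∫⁻ t : X, (if s.2 = t.2 then G s.1 t.1 else 0) = 2 * ∫⁻ x, ∫⁻ y, G x y := by
  have h1 : ∀ s : X, ∫⁻ t : X, (if s.2 = t.2 then G s.1 t.1 else 0) = ∫⁻ y, G s.1 y := by
    intro s
    rw [lint_pair (H := fun t : X => if s.2 = t.2 then G s.1 t.1 else 0)
      (Measurable.ite (measurableSet_eq_fun measurable_const measurable_snd)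
        (hG.comp (measurable_const.prodMk measurable_fst)) measurable_const)]
    have : ∀ r : Spin, ∫⁻ y, (if s.2 = r then G s.1 y else 0) = if s.2 = r then ∫⁻ y, G s.1 y else 0 := by
      intro r
      split_ifs <;> simp
    simp only [this]
    simp
  simp_rw [h1]
  have hm : Measurable fun x => ∫⁻ y, G x y := Measurable.lintegral_prod_right' hG
  rw [lint_pair (H := fun s : X => ∫⁻ y, G s.1 y) (hm.comp measurable_fst)]
  have : Fintype.card Spin = 2 := rfl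
  simp [this]



lemma lint2_diag_k1 (c : ℝ≥0∞) (L κ : ℝ) : ∫⁻ s : X, ∫⁻ t : X, (if s.2 = t.2 then
    c * k1 L κ s.1 t.1 else 0) = 2 * (c * X0 L κ) := by
  have hm1 : Measurable fun p : E3 × E3 => c * k1 L κ p.1 p.2 := (k1_meas L κ).const_mul _
  have := lint2_diag (G := fun x y => c * k1 L κ x y) hm1
  rw [this, dbl_const _ (k1_meas L κ), X0]

lemma lint2_k0 (c : ℝ≥0∞) (L : ℝ) : ∫⁻ s : X, ∫⁻ t : X, c *
    (cw s.1 t.1 * (P L s.1 * P L t.1)) = 4 * (c * D0 L) := by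
  have := lint2 (G := fun x y => c * (cw x y * (P L x * P L y))) ((k0_meas L).const_mul _)
  rw [this, dbl_const _ (k0_meas L), D0]

lemma add_general {Y : Type} [MeasureSpace Y] [SigmaFinite (volume : Measure Y)]
    {A B C : Y → Y → ℝ≥0∞} (hB : Measurable fun p : Y × Y => B p.1 p.2)
    (h : ∀ s t, A s t + B s t ≤ C s t) :
    (∫⁻ s, ∫⁻ t, A s t) + (∫⁻ s, ∫⁻ t, B s t) ≤ ∫⁻ s, ∫⁻ t, C s t := by
  have hm3 : Measurable fun s => ∫⁻ t, B s t := Measurable.lintegral_prod_right' hB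
  have hm4 : ∀ s, Measurable fun t => B s t := fun s =>
    hB.comp (measurable_const.prodMk measurable_id : Measurable fun t : Y => (s, t))
  rw [← lintegral_add_right _ hm3]
  refine lintegral_mono fun s => ?_
  simp only
  rw [← lintegral_add_right _ (hm4 s)]
  exact lintegral_mono fun t => h s t


lemma pi_meas : Measurable fun p : X × X => (p.1.1, p.2.1) :=
  (measurable_fst.comp measurable_fst).prodMk (measurable_fst.comp measurable_snd)

lemma kc_meas (c : ℝ≥0∞) (L κ : ℝ) : Measurable fun p : E3 × E3 => c * k1 L κ p.1 p.2 :=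
  (k1_meas L κ).const_mul c

lemma comp1 {Y Z : Type} [MeasurableSpace Y] [MeasurableSpace Z] {G : Z → ℝ≥0∞}
    (hG : Measurable G) {π : Y → Z} (hπ : Measurable π) : Measurable fun p => G (π p) := hG.comp hπ

lemma kd1_meas (c : ℝ≥0∞) (L κ : ℝ) :
    Measurable fun p : X × X => c * k1 L κ p.1.1 p.2.1 := by
  have := comp1 (kc_meas c L κ) pi_meas
  exact this

lemma kd2_meas : MeasurableSet {p : X × X | p.1.2 = p.2.2} := by
  have h1 : Measurable fun p : X × X => p.1.2 := measurable_snd.comp measurable_fst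
  have h2 : Measurable fun p : X × X => p.2.2 := measurable_snd.comp measurable_snd
  exact measurableSet_eq_fun h1 h2

lemma kd_meas (c : ℝ≥0∞) (L κ : ℝ) :
    Measurable fun p : X × X => (if p.1.2 = p.2.2 then c * k1 L κ p.1.1 p.2.1 else 0) :=
  Measurable.ite kd2_meas (kd1_meas c L κ) measurable_const

lemma lint2_add (c c' : ℝ≥0∞) (L κ : ℝ) (A : X → X → ℝ≥0∞)
    (h : ∀ s t : X, A s t + (if s.2 = t.2 then c * k1 L κ s.1 t.1 else 0) ≤
      c' * (cw s.1 t.1 * (P L s.1 * P L t.1))) :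
    (∫⁻ s : X, ∫⁻ t : X, A s t) + 2 * (c * X0 L κ) ≤ 4 * (c' * D0 L) := by
  rw [← lint2_diag_k1, ← lint2_k0]
  exact add_general (kd_meas c L κ) h

include hL hκ hK in
lemma pair_int : (∫⁻ s : X, ∫⁻ t : X, ENNReal.ofReal (1 / ‖s.1 - t.1‖) *
      ENNReal.ofReal ((∑ a, ‖ob L K e a s‖ ^ 2) * (∑ a, ‖ob L K e a t‖ ^ 2) -
        ‖∑ a, ob L K e a s * conj (ob L K e a t)‖ ^ 2)) +
      2 * (ENNReal.ofReal ((K.card : ℝ) ^ 2 / 4) * X0 L κ) ≤
    4 * (ENNReal.ofReal ((K.card : ℝ) ^ 2) * D0 L) :=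
  lint2_add _ _ L κ _ fun s t => pair_pt hL hκ hK e s t

end Pool.Agent.TH791.Tq
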