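import Pool.Agent.W741.MYwin1

/-!
# One-dimensional windowed plane waves

`f L` is a smooth window supported in `[0, L + 1]`, equal to one on `[1, L]`, with
`f(t)² + f(t + L)² = 1` on `[0, 1]`; `u L m` is the windowed plane wave of momentum `2πm/L`.
-/

set_option autoImplicit false

namespace Pool.Agent.TH791.Wn

open MeasureTheory Filter Topology
open Pool.Agent.W564.MY (ang Wf)
open Pool.Agent.W741.MY
open scoped ENNReal ComplexConjugate

/-- window -/
noncomputable def f (L : ℝ) : ℝ → ℝ := Wf 1 L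

lemma f_smooth (L : ℝ) : ContDiff ℝ ((⊤ : ℕ∞) : WithTop ℕ∞) (f L) := Wf_smooth 1 L

lemma f_cont (L : ℝ) : Continuous (f L) := (f_smooth L).continuous

lemma f_nonneg (L t : ℝ) : 0 ≤ f L t := mul_nonneg (sin_ang_nonneg _) (cos_ang_nonneg _)

lemma f_le_one (L t : ℝ) : f L t ≤ 1 := by
  unfold f Wf
  calc _ ≤ (1 : ℝ) * 1 := mul_le_mul (Real.sin_le_one _) (Real.cos_le_one _) (cos_ang_nonneg _)
        zero_le_one
    _ = 1 := by norm_num

lemma f_mid {L t : ℝ} (h : 1 ≤ t) (h' : t ≤ L) : f L t = 1 := Wf_mid one_pos h h'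

lemma f_left {L t : ℝ} (ht : t ≤ 0) : f L t = 0 := Wf_zero_left one_pos ht

lemma f_right {L t : ℝ} (ht : L + 1 ≤ t) : f L t = 0 := Wf_zero_right one_pos ht

lemma f_part {L t : ℝ} (hL : 1 ≤ L) (ht : 0 ≤ t) (ht' : t ≤ 1) : f L t ^ 2 + f L (t + L) ^ 2 = 1 := by
  unfold f
  rw [Wf_left one_pos hL ht', Wf_right one_pos hL ht, Real.sin_sq_add_cos_sq]

lemma df_bound : ∃ C : ℝ, 0 < C ∧ ∀ L t : ℝ, |deriv (f L) t| ≤ C := by
  obtain ⟨C, hC, h⟩ := deriv_bounds
  exact ⟨C, hC, fun L t => by have := (h 1 L t one_pos).1; rw [div_one] at this; exact this⟩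

lemma df_zero {L t : ℝ} (ht : t ≤ 0 ∨ L + 1 ≤ t) : deriv (f L) t = 0 := by
  refine IsLocalMin.deriv_eq_zero (Eventually.of_forall fun y => ?_)
  have : f L t = 0 := by
    rcases ht with h | h
    · exact f_left h
    · exact f_right h
  rw [this]
  exact f_nonneg L y

/-- phase -/
noncomputable def ph (L : ℝ) (m : ℤ) (t : ℝ) : ℂ :=
  Complex.exp ((2 * Real.pi * m / L * t : ℝ) * Complex.I)

lemma norm_ph (L : ℝ) (m : ℤ) (t : ℝ) : ‖ph L m t‖ = 1 := Complex.norm_exp_ofReal_mul_I _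

lemma ph_cont (L : ℝ) (m : ℤ) : Continuous (ph L m) := by unfold ph; fun_prop

lemma ph_mul (L : ℝ) (m m' : ℤ) (t t' : ℝ) (h : t = t') :
    ph L m t * conj (ph L m' t') = ph L (m - m') t := by
  subst h
  unfold ph
  rw [← Complex.exp_conj, ← Complex.exp_add]
  congr 1
  rw [map_mul, Complex.conj_I, Complex.conj_ofReal]
  push_cast
  ring

lemma ph_shift {L : ℝ} (hL : 0 < L) (m : ℤ) (t : ℝ) : ph L m (t + L) = ph L m t := by
  unfold ph
  have : ((2 * Real.pi * m / L * (t + L) : ℝ) : ℂ) * Complex.I =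
      ((2 * Real.pi * m / L * t : ℝ) : ℂ) * Complex.I + m * (2 * Real.pi * Complex.I) := by
    have hL' : (L : ℂ) ≠ 0 := by exact_mod_cast hL.ne'
    push_cast
    field_simp
  rw [this, Complex.exp_add, Complex.exp_int_mul_two_pi_mul_I, mul_one]

/-- integral of a full period of an exponential -/
theorem ph_int {T : ℝ} (hT : 0 < T) (n : ℤ) :
    ∫ t in (0 : ℝ)..T, ph T n t = if n = 0 then (T : ℂ) else 0 := by
  unfold ph
  split_ifs with h
  · subst h
    simp
  · have hc : (2 * Real.pi * n / T : ℝ) * Complex.I ≠ 0 := by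
      refine mul_ne_zero ?_ Complex.I_ne_zero
      have : (2 * Real.pi * n / T : ℝ) ≠ 0 := by
        have h1 : (n : ℝ) ≠ 0 := by exact_mod_cast h
        have := Real.pi_pos
        positivity
      exact_mod_cast this
    have e : (fun t : ℝ => Complex.exp ((2 * Real.pi * n / T * t : ℝ) * Complex.I)) =
        fun t : ℝ => Complex.exp ((((2 * Real.pi * n / T : ℝ) : ℂ) * Complex.I) * t) := by
      funext t
      congr 1
      push_cast
      ring
    rw [e, integral_exp_mul_complex hc]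
    have e2 : Complex.exp ((((2 * Real.pi * n / T : ℝ) : ℂ) * Complex.I) * T) = 1 := by
      have : (((2 * Real.pi * n / T : ℝ) : ℂ) * Complex.I) * T = n * (2 * Real.pi * Complex.I) := by
        have hT' : (T : ℂ) ≠ 0 := by exact_mod_cast hT.ne'
        push_cast
        field_simp
      rw [this, Complex.exp_int_mul_two_pi_mul_I]
    rw [e2]
    simp

lemma f_int {L : ℝ} (hL : 1 ≤ L) (n : ℤ) :
    ∫ t, ((f L t ^ 2 : ℝ) : ℂ) * ph L n t = if n = 0 then (L : ℂ) else 0 := by
  have hL0 : 0 < L := by linarith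
  set g : ℝ → ℂ := fun t => ((f L t ^ 2 : ℝ) : ℂ) * ph L n t with hg
  have hgc : Continuous g := by
    have := f_cont L
    have := ph_cont L n
    rw [hg]; fun_prop
  have hgi : ∀ a b : ℝ, IntervalIntegrable g volume a b := fun a b => hgc.intervalIntegrable _ _
  have h1 : ∫ t, g t = ∫ t in (0 : ℝ)..(L + 1), g t := by
    rw [intervalIntegral.integral_of_le (by linarith)]
    symm
    apply setIntegral_eq_integral_of_forall_compl_eq_zero
    intro t ht
    have : f L t = 0 := by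
      by_cases h0 : t ≤ 0
      · exact f_left h0
      · refine f_right ?_
        by_contra h2
        exact ht ⟨not_le.1 h0, (not_le.1 h2).le⟩
    simp [hg, this]
  have h2 : ∫ t in (0 : ℝ)..(L + 1), g t =
      (∫ t in (0 : ℝ)..1, g t) + (∫ t in (1 : ℝ)..L, g t) + ∫ t in L..(L + 1), g t := by
    rw [intervalIntegral.integral_add_adjacent_intervals (hgi _ _) (hgi _ _),
      intervalIntegral.integral_add_adjacent_intervals (hgi _ _) (hgi _ _)]
  have h3 : ∫ t in L..(L + 1), g t = ∫ t in (0 : ℝ)..1, g (t + L) := by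
    rw [intervalIntegral.integral_comp_add_right]
    congr 1 <;> ring
  have h4 : (∫ t in (0 : ℝ)..1, g t) + (∫ t in (0 : ℝ)..1, g (t + L)) = ∫ t in (0 : ℝ)..1, ph L n t := by
    have hg2 : Continuous fun t => g (t + L) := hgc.comp (continuous_id.add continuous_const)
    rw [← intervalIntegral.integral_add (hgi _ _) (hg2.intervalIntegrable _ _)]
    apply intervalIntegral.integral_congr
    intro t ht
    rw [Set.uIcc_of_le zero_le_one] at ht
    simp only [hg]
    rw [ph_shift hL0, ← add_mul, ← Complex.ofReal_add, f_part hL ht.1 ht.2]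
    simp
  have h5 : ∫ t in (1 : ℝ)..L, g t = ∫ t in (1 : ℝ)..L, ph L n t := by
    apply intervalIntegral.integral_congr
    intro t ht
    rw [Set.uIcc_of_le hL] at ht
    simp only [hg]
    rw [f_mid ht.1 ht.2]
    simp
  rw [h1, h2, h3, h5, ← ph_int hL0 n, add_right_comm, h4,
    intervalIntegral.integral_add_adjacent_intervals ((ph_cont L n).intervalIntegrable _ _)
      ((ph_cont L n).intervalIntegrable _ _)]

/-- windowed plane waves -/
noncomputable def u (L : ℝ) (m : ℤ) (t : ℝ) : ℂ := (((f L t / √L : ℝ)) : ℂ) * ph L m t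

lemma u_smooth (L : ℝ) (m : ℤ) : ContDiff ℝ ((⊤ : ℕ∞) : WithTop ℕ∞) (u L m) := by
  unfold u ph
  have h1 : ContDiff ℝ ((⊤ : ℕ∞) : WithTop ℕ∞) fun s : ℝ => ((f L s / √L : ℝ) : ℂ) :=
    Complex.ofRealCLM.contDiff.comp ((f_smooth L).div_const _)
  have h2 : ContDiff ℝ ((⊤ : ℕ∞) : WithTop ℕ∞)
      fun s : ℝ => Complex.exp ((2 * Real.pi * m / L * s : ℝ) * Complex.I) :=
    ((Complex.ofRealCLM.contDiff.comp
      (contDiff_const.mul contDiff_id)).mul contDiff_const).cexp
  exact h1.mul h2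

lemma u_cont (L : ℝ) (m : ℤ) : Continuous (u L m) := (u_smooth L m).continuous

lemma u_norm {L : ℝ} (hL : 1 ≤ L) (m : ℤ) (t : ℝ) : ‖u L m t‖ ^ 2 = f L t ^ 2 / L := by
  unfold u
  rw [norm_mul, norm_ph, mul_one, Complex.norm_real, Real.norm_eq_abs, sq_abs, div_pow,
    Real.sq_sqrt (by linarith)]

lemma u_zero {L : ℝ} (m : ℤ) {t : ℝ} (ht : t ≤ 0 ∨ L + 1 ≤ t) : u L m t = 0 := by
  unfold u
  have : f L t = 0 := by
    rcases ht with h | h
    · exact f_left h
    · exact f_right h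
  simp [this]

lemma u_mul {L : ℝ} (hL : 1 ≤ L) (m m' : ℤ) (t : ℝ) :
    u L m t * conj (u L m' t) = (L : ℂ)⁻¹ * (((f L t ^ 2 : ℝ) : ℂ) * ph L (m - m') t) := by
  have hL0 : 0 < L := by linarith
  unfold u
  rw [map_mul, Complex.conj_ofReal, ← ph_mul L m m' t t rfl]
  have h : ((f L t / √L : ℝ) : ℂ) * ((f L t / √L : ℝ) : ℂ) = (L : ℂ)⁻¹ * ((f L t ^ 2 : ℝ) : ℂ) := by
    rw [← Complex.ofReal_mul, ← Complex.ofReal_inv, ← Complex.ofReal_mul]
    congr 1
    have h1 : √L * √L = L := Real.mul_self_sqrt hL0.le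
    have h2 : √L ≠ 0 := (Real.sqrt_pos.2 hL0).ne'
    rw [div_mul_div_comm, h1]
    field_simp
  calc _ = (((f L t / √L : ℝ) : ℂ) * ((f L t / √L : ℝ) : ℂ)) * (ph L m t * conj (ph L m' t)) := by ring
    _ = _ := by rw [h]; ring

lemma u_orth {L : ℝ} (hL : 1 ≤ L) (m m' : ℤ) :
    ∫ t, u L m t * conj (u L m' t) = if m = m' then 1 else 0 := by
  simp_rw [u_mul hL]
  rw [integral_const_mul, f_int hL]
  have hL' : (L : ℂ) ≠ 0 := by
    have : L ≠ 0 := by linarith
    exact_mod_cast this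
  by_cases h : m = m'
  · rw [if_pos (by omega), if_pos h, inv_mul_cancel₀ hL']
  · rw [if_neg (by omega), if_neg h, mul_zero]

lemma f_sq_int {L : ℝ} (hL : 1 ≤ L) : ∫ t, f L t ^ 2 = L := by
  have h := f_int hL 0
  rw [if_pos rfl] at h
  have h2 : ∫ t, ((f L t ^ 2 : ℝ) : ℂ) * ph L 0 t = ((∫ t, f L t ^ 2 : ℝ) : ℂ) := by
    rw [← integral_complex_ofReal]
    refine integral_congr_ae (Eventually.of_forall fun t => ?_)
    simp [ph]
  rw [h2] at h
  exact_mod_cast h

/-- derivative of the windowed plane wave -/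
noncomputable def du (L : ℝ) (m : ℤ) (t : ℝ) : ℂ :=
  (((deriv (f L) t / √L : ℝ) : ℂ) + ((2 * Real.pi * m / L * (f L t / √L) : ℝ) : ℂ) * Complex.I) *
    ph L m t

lemma u_deriv (L : ℝ) (m : ℤ) (t : ℝ) : HasDerivAt (u L m) (du L m t) t := by
  have h1 : HasDerivAt (fun s : ℝ => ((f L s / √L : ℝ) : ℂ))
      ((deriv (f L) t / √L : ℝ) : ℂ) t := by
    have h0 : HasDerivAt (f L) (deriv (f L) t) t :=
      ((f_smooth L).differentiable (by simp) _).hasDerivAt
    exact (h0.div_const _).ofReal_comp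
  have h2 := hasDerivAt_phase (2 * Real.pi * m / L) 0 t
  simp only [add_zero] at h2
  have h3 := h1.mul h2
  refine h3.congr_deriv ?_
  unfold du ph
  push_cast
  ring

lemma du_norm {L : ℝ} (hL : 1 ≤ L) (m : ℤ) (t : ℝ) :
    ‖du L m t‖ ^ 2 = deriv (f L) t ^ 2 / L + (2 * Real.pi * m / L) ^ 2 * (f L t ^ 2 / L) := by
  have hL0 : 0 ≤ L := by linarith
  unfold du
  rw [norm_mul, norm_ph, mul_one, ← Complex.normSq_eq_norm_sq, Complex.normSq_add_mul_I]
  simp only [div_pow, mul_pow, Real.sq_sqrt hL0]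

lemma f_sq_integrable (L : ℝ) : Integrable fun t => f L t ^ 2 := by
  have h : IntegrableOn (fun t => f L t ^ 2) (Set.Icc 0 (L + 1)) :=
    ((f_cont L).pow 2).continuousOn.integrableOn_compact isCompact_Icc
  rw [← integrableOn_univ]
  refine h.of_forall_sdiff_eq_zero MeasurableSet.univ ?_
  intro t ht
  have : f L t = 0 := by
    by_cases h0 : t ≤ 0
    · exact f_left h0
    · refine f_right ?_
      by_contra h2
      exact ht.2 ⟨(not_le.1 h0).le, (not_le.1 h2).le⟩
  simp [this]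

lemma df_sq {L : ℝ} (hL : 0 ≤ L) {C : ℝ} (hC : ∀ t : ℝ, |deriv (f L) t| ≤ C) :
    Integrable (fun t => deriv (f L) t ^ 2) ∧ ∫ t, deriv (f L) t ^ 2 ≤ (L + 1) * C ^ 2 := by
  have hc : Continuous (deriv (f L)) := (f_smooth L).continuous_deriv (by simp)
  have h0 : ∀ t, t ∉ Set.Icc 0 (L + 1) → deriv (f L) t ^ 2 = 0 := by
    intro t ht
    have : deriv (f L) t = 0 := by
      refine df_zero ?_
      by_contra h2
      push Not at h2
      exact ht ⟨h2.1.le, h2.2.le⟩
    rw [this]; ring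
  have h : IntegrableOn (fun t => deriv (f L) t ^ 2) (Set.Icc 0 (L + 1)) :=
    (hc.pow 2).continuousOn.integrableOn_compact isCompact_Icc
  constructor
  · rw [← integrableOn_univ]
    refine h.of_forall_sdiff_eq_zero MeasurableSet.univ ?_
    intro t ht
    exact h0 t ht.2
  · rw [← setIntegral_eq_integral_of_forall_compl_eq_zero (s := Set.Icc 0 (L + 1)) h0]
    calc ∫ t in Set.Icc 0 (L + 1), deriv (f L) t ^ 2 ≤ ∫ t in Set.Icc 0 (L + 1), C ^ 2 := by
          refine setIntegral_mono_on h (by simp) measurableSet_Icc fun t _ => ?_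
          rw [← sq_abs]
          exact pow_le_pow_left₀ (abs_nonneg _) (hC t) 2
      _ = (L + 1) * C ^ 2 := by
          rw [setIntegral_const, Measure.real, Real.volume_Icc, smul_eq_mul,
            ENNReal.toReal_ofReal (by linarith)]
          ring

lemma du_int {L : ℝ} (hL : 1 ≤ L) {C : ℝ} (hC : ∀ t : ℝ, |deriv (f L) t| ≤ C) (m : ℤ) :
    Integrable (fun t => ‖du L m t‖ ^ 2) ∧
      ∫ t, ‖du L m t‖ ^ 2 ≤ 2 * C ^ 2 + (2 * Real.pi * m / L) ^ 2 := by
  have hL0 : 0 < L := by linarith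
  obtain ⟨h1, h2⟩ := df_sq hL0.le hC
  simp_rw [du_norm hL]
  refine ⟨(h1.div_const _).add (((f_sq_integrable L).div_const _).const_mul _), ?_⟩
  rw [integral_add (h1.div_const _) (((f_sq_integrable L).div_const _).const_mul _),
    integral_const_mul, integral_div, integral_div, f_sq_int hL, div_self hL0.ne', mul_one]
  gcongr
  rw [div_le_iff₀ hL0]
  nlinarith [sq_nonneg C]

end Pool.Agent.TH791.Wn
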